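import Mathlib

set_option autoImplicit false
open Set Topology
open scoped ENNReal NNReal

namespace Pool.Agent.Helper747.BL

/-- finite binary strings -/
abbrev Str := List Bool

/-- points of the Cantor space -/
abbrev X := ℕ → Bool

/-- the initial segment of length `n` -/
def pre (x : X) (n : ℕ) : Str := (List.range n).map x

/-- the cylinder of a string -/
def cyl (σ : Str) : Set X := {x | pre x σ.length = σ}

lemma pre_length (x : X) (n : ℕ) : (pre x n).length = n := by simp [pre]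

lemma pre_succ (x : X) (n : ℕ) : pre x (n + 1) = pre x n ++ [x n] := by
  simp [pre, List.range_succ]

lemma pre_prefix (x : X) {m n : ℕ} (h : m ≤ n) : pre x m <+: pre x n := by
  induction n, h using Nat.le_induction with
  | base => exact List.prefix_refl _
  | succ n _ ih => rw [pre_succ]; exact ih.trans (List.prefix_append _ _)

lemma mem_cyl_pre (x : X) (n : ℕ) : x ∈ cyl (pre x n) := by
  simp [cyl, pre_length]

lemma prefix_iff_of_mem {x : X} {σ τ : Str} (hσ : x ∈ cyl σ) (hτ : x ∈ cyl τ)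
    (h : σ.length ≤ τ.length) : σ <+: τ := by
  rw [← hσ, ← hτ]
  exact pre_prefix x h

lemma mem_cyl_iff (x : X) (σ : Str) {n : ℕ} (h : σ.length ≤ n) :
    x ∈ cyl σ ↔ σ <+: pre x n := by
  constructor
  · intro hx
    exact prefix_iff_of_mem hx (mem_cyl_pre x n) (by rw [pre_length]; exact h)
  · intro hp
    have h1 := pre_prefix x h
    have h2 := List.prefix_of_prefix_length_le h1 hp (by rw [pre_length])
    exact List.IsPrefix.eq_of_length h2 (pre_length _ _)

lemma cyl_mono {σ τ : Str} (h : σ <+: τ) : cyl τ ⊆ cyl σ := by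
  intro x hx
  rw [mem_cyl_iff x σ h.length_le]
  have hx' : pre x τ.length = τ := hx
  rw [hx']
  exact h

/-- the point extending a string by zeros -/
def pad (σ : Str) : X := fun i => σ.getD i false

lemma pad_mem (σ : Str) : pad σ ∈ cyl σ := by
  change pre (pad σ) σ.length = σ
  apply List.ext_getElem
  · simp [pre]
  · intro i h1 h2
    simp [pre, pad, List.getElem?_eq_getElem h2]

lemma cyl_disjoint {σ τ : Str} (h : ¬ σ <+: τ) (hl : σ.length ≤ τ.length) :
    Disjoint (cyl σ) (cyl τ) := by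
  rw [Set.disjoint_left]
  intro x h1 h2
  exact h (prefix_iff_of_mem h1 h2 hl)

lemma cyl_eq (σ : Str) : cyl σ = ⋂ i : Fin σ.length, {x : X | x i = σ[i]} := by
  ext x
  simp only [Set.mem_iInter, Set.mem_ofPred_eq]
  constructor
  · intro h i
    have h' : pre x σ.length = σ := h
    have : (pre x σ.length)[(i : ℕ)]'(by rw [pre_length]; exact i.2) = σ[i] := by
      simp only [h']
      rfl
    rw [← this]
    simp [pre]
  · intro h
    change pre x σ.length = σ
    apply List.ext_getElem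
    · simp [pre]
    · intro i h1 h2
      have := h ⟨i, h2⟩
      simpa [pre] using this

lemma isClopen_cyl (σ : Str) : IsClopen (cyl σ) := by
  rw [cyl_eq]
  refine isClopen_iInter_of_finite fun i => ?_
  have h : IsClopen ({σ[i]} : Set Bool) := isClopen_discrete _
  have hc : Continuous (fun x : X => x i) := continuous_apply _
  exact h.preimage hc

section Weights
variable (r : ℝ≥0)

/-- the weight of a string -/
noncomputable def w (σ : Str) : ℝ≥0∞ := (r : ℝ≥0∞) ^ σ.length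

/-- the total weight of the members of `C` extending `σ` -/
noncomputable def Wt (σ : Str) (C : Set Str) : ℝ≥0∞ :=
  ∑' τ, ({τ | τ ∈ C ∧ σ <+: τ} : Set Str).indicator (w r) τ

/-- `(σ, C)` is a condition -/
def Cond (σ : Str) (C : Set Str) : Prop := Wt r σ C < w r σ ∧ ∀ γ ∈ C, ¬ γ <+: σ

/-- the compact set of a condition -/
def K (σ : Str) (C : Set Str) : Set X := cyl σ \ ⋃ γ ∈ C, cyl γ

variable {r}

lemma w_append (σ : Str) (b : Bool) : w r (σ ++ [b]) = r * w r σ := by
  simp [w, pow_succ, mul_comm]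

lemma w_ne_top (σ : Str) : w r σ ≠ ∞ := by
  unfold w
  exact ENNReal.pow_ne_top ENNReal.coe_ne_top

lemma w_ne_zero (hr : r ≠ 0) (σ : Str) : w r σ ≠ 0 := by
  unfold w
  exact pow_ne_zero _ (by simpa using hr)

lemma Wt_mono_left {σ τ : Str} (h : σ <+: τ) (C : Set Str) : Wt r τ C ≤ Wt r σ C := by
  unfold Wt
  refine ENNReal.tsum_le_tsum fun γ => ?_
  refine Set.indicator_le_indicator_of_subset ?_ (fun _ => zero_le) γ
  rintro γ ⟨h1, h2⟩
  exact ⟨h1, h.trans h2⟩

lemma Wt_mono_right (σ : Str) {C D : Set Str} (h : C ⊆ D) : Wt r σ C ≤ Wt r σ D := by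
  unfold Wt
  refine ENNReal.tsum_le_tsum fun γ => ?_
  refine Set.indicator_le_indicator_of_subset ?_ (fun _ => zero_le) γ
  rintro γ ⟨h1, h2⟩
  exact ⟨h h1, h2⟩

lemma Wt_union (σ : Str) (C D : Set Str) : Wt r σ (C ∪ D) ≤ Wt r σ C + Wt r σ D := by
  unfold Wt
  rw [← ENNReal.tsum_add]
  refine ENNReal.tsum_le_tsum fun γ => ?_
  by_cases h1 : γ ∈ ({τ | τ ∈ C ∧ σ <+: τ} : Set Str)
  · rw [Set.indicator_of_mem (show γ ∈ ({τ | τ ∈ C ∪ D ∧ σ <+: τ} : Set Str) from
      ⟨Or.inl h1.1, h1.2⟩), Set.indicator_of_mem h1]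
    exact le_self_add
  · by_cases h2 : γ ∈ ({τ | τ ∈ D ∧ σ <+: τ} : Set Str)
    · rw [Set.indicator_of_mem (show γ ∈ ({τ | τ ∈ C ∪ D ∧ σ <+: τ} : Set Str) from
        ⟨Or.inr h2.1, h2.2⟩), Set.indicator_of_mem h2]
      exact le_add_self
    · rw [Set.indicator_of_notMem]
      · exact zero_le
      · rintro ⟨h3 | h3, h4⟩
        · exact h1 ⟨h3, h4⟩
        · exact h2 ⟨h3, h4⟩

lemma w_le_Wt {σ γ : Str} {C : Set Str} (h : γ ∈ C) (hp : σ <+: γ) : w r γ ≤ Wt r σ C := by
  unfold Wt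
  have := ENNReal.le_tsum (f := ({τ | τ ∈ C ∧ σ <+: τ} : Set Str).indicator (w r)) γ
  rwa [Set.indicator_of_mem (show γ ∈ ({τ | τ ∈ C ∧ σ <+: τ} : Set Str) from ⟨h, hp⟩)] at this

lemma prefix_cases (σ τ : Str) :
    σ <+: τ ↔ τ = σ ∨ (σ ++ [false] <+: τ) ∨ (σ ++ [true] <+: τ) := by
  constructor
  · rintro ⟨ρ, rfl⟩
    cases ρ with
    | nil => left; simp
    | cons b ρ =>
      right
      cases b
      · left; exact ⟨ρ, by simp⟩
      · right; exact ⟨ρ, by simp⟩
  · rintro (rfl | h | h)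
    · exact List.prefix_refl _
    · exact (List.prefix_append _ _).trans h
    · exact (List.prefix_append _ _).trans h

lemma not_both {σ τ : Str} (h0 : σ ++ [false] <+: τ) (h1 : σ ++ [true] <+: τ) : False := by
  have h := List.prefix_of_prefix_length_le h0 h1 (by simp)
  have := List.IsPrefix.eq_of_length h (by simp)
  simp at this

lemma Wt_children {σ : Str} {C : Set Str} (h : σ ∉ C) :
    Wt r σ C = Wt r (σ ++ [false]) C + Wt r (σ ++ [true]) C := by
  unfold Wt
  rw [← ENNReal.tsum_add]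
  congr 1
  funext γ
  by_cases h0 : γ ∈ ({τ | τ ∈ C ∧ σ ++ [false] <+: τ} : Set Str)
  · have h1 : γ ∉ ({τ | τ ∈ C ∧ σ ++ [true] <+: τ} : Set Str) := fun h1 => not_both h0.2 h1.2
    rw [Set.indicator_of_mem h0, Set.indicator_of_notMem h1, add_zero, Set.indicator_of_mem]
    exact ⟨h0.1, (List.prefix_append _ _).trans h0.2⟩
  · rw [Set.indicator_of_notMem h0, zero_add]
    by_cases h1 : γ ∈ ({τ | τ ∈ C ∧ σ ++ [true] <+: τ} : Set Str)
    · rw [Set.indicator_of_mem h1, Set.indicator_of_mem]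
      exact ⟨h1.1, (List.prefix_append _ _).trans h1.2⟩
    · rw [Set.indicator_of_notMem h1, Set.indicator_of_notMem]
      rintro ⟨h2, h3⟩
      rcases (prefix_cases σ γ).1 h3 with rfl | h4 | h4
      · exact h h2
      · exact h0 ⟨h2, h4⟩
      · exact h1 ⟨h2, h4⟩

lemma prefix_append_singleton {γ σ : Str} {b : Bool} (h : γ <+: σ ++ [b]) :
    γ <+: σ ∨ γ = σ ++ [b] := by
  by_cases hl : γ.length ≤ σ.length
  · left
    exact List.prefix_of_prefix_length_le h (List.prefix_append _ _) hl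
  · right
    refine List.IsPrefix.eq_of_length h ?_
    have := h.length_le
    simp at this ⊢
    omega

lemma cond_step (hr : 1 / 2 ≤ r) {σ : Str} {C : Set Str} (h : Cond r σ C) :
    ∃ b : Bool, Cond r (σ ++ [b]) C ∧ 2 * Wt r (σ ++ [b]) C ≤ Wt r σ C := by
  have hσ : σ ∉ C := fun hc => h.2 σ hc (List.prefix_refl _)
  have hch := Wt_children (r := r) hσ
  have h1 : ∃ b : Bool, 2 * Wt r (σ ++ [b]) C ≤ Wt r σ C := by
    rcases le_total (Wt r (σ ++ [false]) C) (Wt r (σ ++ [true]) C) with hle | hle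
    · refine ⟨false, ?_⟩
      rw [hch, two_mul]
      gcongr
    · refine ⟨true, ?_⟩
      rw [hch, two_mul]
      gcongr
  obtain ⟨b, hb⟩ := h1
  have h2 : Wt r (σ ++ [b]) C < w r (σ ++ [b]) := by
    have h3 : 2 * Wt r (σ ++ [b]) C < w r σ := hb.trans_lt h.1
    have h4 : w r σ ≤ 2 * w r (σ ++ [b]) := by
      rw [w_append, ← mul_assoc]
      have : (1 : ℝ≥0∞) ≤ 2 * (r : ℝ≥0∞) := by
        have h5 : (1 : ℝ≥0) ≤ 2 * r := by
          have := mul_le_mul_right hr 2
          simpa using this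
        exact_mod_cast h5
      calc w r σ = 1 * w r σ := (one_mul _).symm
        _ ≤ _ := by gcongr
    have h5 := h3.trans_le h4
    exact (ENNReal.mul_lt_mul_iff_right (by norm_num) (by norm_num)).1 h5
  refine ⟨b, ⟨h2, ?_⟩, hb⟩
  intro γ hγ hp
  rcases prefix_append_singleton hp with hp | rfl
  · exact h.2 γ hγ hp
  · exact absurd (w_le_Wt (r := r) hγ (List.prefix_refl _)) (not_le.2 h2)

/-- a condition can be extended to any length, halving the weight at each step -/
theorem cond_ext (hr : 1 / 2 ≤ r) {σ : Str} {C : Set Str} (h : Cond r σ C) (k : ℕ) :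
    ∃ τ, σ <+: τ ∧ τ.length = σ.length + k ∧ Cond r τ C ∧ 2 ^ k * Wt r τ C ≤ Wt r σ C := by
  induction k with
  | zero => exact ⟨σ, List.prefix_refl _, rfl, h, by simp⟩
  | succ k ih =>
    obtain ⟨τ, h1, h2, h3, h4⟩ := ih
    obtain ⟨b, h5, h6⟩ := cond_step hr h3
    refine ⟨τ ++ [b], h1.trans (List.prefix_append _ _), by simp [h2]; ring, h5, ?_⟩
    calc 2 ^ (k + 1) * Wt r (τ ++ [b]) C = 2 ^ k * (2 * Wt r (τ ++ [b]) C) := by ring
      _ ≤ 2 ^ k * Wt r τ C := by gcongr
      _ ≤ _ := h4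

lemma isClosed_K (σ : Str) (C : Set Str) : IsClosed (K σ C) := by
  unfold K
  refine (isClopen_cyl σ).isClosed.sdiff ?_
  exact isOpen_biUnion fun γ _ => (isClopen_cyl γ).isOpen

/-- the set of a condition is nonempty -/
theorem K_nonempty (hr : 1 / 2 ≤ r) {σ : Str} {C : Set Str} (h : Cond r σ C) :
    (K σ C).Nonempty := by
  let A : ℕ → Set X := fun m => cyl σ \ ⋃ γ ∈ {γ ∈ C | γ.length ≤ m}, cyl γ
  have hA : (⋂ m, A m).Nonempty := by
    refine IsCompact.nonempty_iInter_of_sequence_nonempty_isCompact_isClosed A ?_ ?_ ?_ ?_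
    · intro m x hx
      refine ⟨hx.1, fun h2 => hx.2 ?_⟩
      simp only [Set.mem_iUnion] at h2 ⊢
      obtain ⟨γ, hγ, hxγ⟩ := h2
      exact ⟨γ, ⟨hγ.1, hγ.2.trans (Nat.le_succ m)⟩, hxγ⟩
    · intro m
      obtain ⟨τ, h1, h2, h3, _⟩ := cond_ext hr h m
      refine ⟨pad τ, cyl_mono h1 (pad_mem τ), ?_⟩
      simp only [Set.mem_iUnion, not_exists]
      intro γ hγ hx
      exact h3.2 γ hγ.1 (prefix_iff_of_mem hx (pad_mem τ) (by rw [h2]; have := hγ.2; omega))
    · exact ((isClopen_cyl σ).isClosed.sdiff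
        (isOpen_biUnion fun γ _ => (isClopen_cyl γ).isOpen)).isCompact
    · intro m
      exact (isClopen_cyl σ).isClosed.sdiff
        (isOpen_biUnion fun γ _ => (isClopen_cyl γ).isOpen)
  obtain ⟨x, hx⟩ := hA
  rw [Set.mem_iInter] at hx
  refine ⟨x, (hx 0).1, ?_⟩
  simp only [Set.mem_iUnion, not_exists]
  intro γ hγ hxγ
  apply (hx γ.length).2
  simp only [Set.mem_iUnion]
  exact ⟨γ, ⟨hγ, le_rfl⟩, hxγ⟩

end Weights

end Pool.Agent.Helper747.BL
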