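import Mathlib
import Pool.Agent.Helper747.BLA

set_option autoImplicit false
open Set Topology
open scoped ENNReal NNReal

namespace Pool.Agent.Helper747.BL

variable {r : ℝ≥0}

lemma K_mono {σ τ : Str} {C D : Set Str} (h : σ <+: τ) (hCD : C ⊆ D) : K τ D ⊆ K σ C := by
  rintro x ⟨h1, h2⟩
  refine ⟨cyl_mono h h1, fun h3 => h2 ?_⟩
  simp only [Set.mem_iUnion] at h3 ⊢
  obtain ⟨γ, hγ, hx⟩ := h3
  exact ⟨γ, hCD hγ, hx⟩

/-- extension with small relative weight -/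
theorem shrink (hr : 1 / 2 < r) {σ : Str} {C : Set Str} (h : Cond r σ C) (M N : ℕ) :
    ∃ τ, σ <+: τ ∧ N ≤ τ.length ∧ Cond r τ C ∧ (M : ℝ≥0∞) * Wt r τ C ≤ w r τ := by
  have h2r : 1 < 2 * r := by
    have := mul_lt_mul_of_pos_left hr (show (0 : ℝ≥0) < 2 by norm_num)
    simpa using this
  obtain ⟨k0, hk0⟩ := pow_unbounded_of_one_lt (M : ℝ≥0) h2r
  let k := max k0 N
  have hk : (M : ℝ≥0) ≤ (2 * r) ^ k :=
    hk0.le.trans (pow_le_pow_right₀ h2r.le (le_max_left _ _))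
  obtain ⟨τ, h1, h2, h3, h4⟩ := cond_ext hr.le h k
  refine ⟨τ, h1, ?_, h3, ?_⟩
  · rw [h2]; exact (le_max_right k0 N).trans (Nat.le_add_left _ _)
  · have h5 : w r τ = (r : ℝ≥0∞) ^ k * w r σ := by
      unfold w
      rw [h2, pow_add, mul_comm]
    have h6 : (M : ℝ≥0∞) ≤ (r : ℝ≥0∞) ^ k * 2 ^ k := by
      rw [← mul_pow, mul_comm (r : ℝ≥0∞) 2]
      exact_mod_cast hk
    calc (M : ℝ≥0∞) * Wt r τ C ≤ ((r : ℝ≥0∞) ^ k * 2 ^ k) * Wt r τ C := by gcongr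
      _ = (r : ℝ≥0∞) ^ k * (2 ^ k * Wt r τ C) := by ring
      _ ≤ (r : ℝ≥0∞) ^ k * Wt r σ C := by gcongr
      _ ≤ (r : ℝ≥0∞) ^ k * w r σ := by gcongr; exact h.1.le
      _ = w r τ := h5.symm

lemma cond_of_le (hr : r ≠ 0) {τ : Str} {D : Set Str} (h1 : (2 : ℝ≥0∞) * Wt r τ D ≤ w r τ)
    (h2 : ∀ γ ∈ D, ¬ γ <+: τ) : Cond r τ D := by
  refine ⟨?_, h2⟩
  have h3 : w r τ ≠ ∞ := w_ne_top τ
  have h4 : w r τ ≠ 0 := w_ne_zero hr τ
  by_contra hcon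
  push Not at hcon
  have h5 : (2 : ℝ≥0∞) * w r τ ≤ w r τ := le_trans (by gcongr) h1
  rw [two_mul] at h5
  have h6 : w r τ < w r τ + w r τ := ENNReal.lt_add_right h3 h4
  exact absurd h5 (not_le.2 h6)

lemma half_of_quarter {τ : Str} {C D : Set Str} (h1 : (4 : ℝ≥0∞) * Wt r τ C ≤ w r τ)
    (h2 : (4 : ℝ≥0∞) * Wt r τ D ≤ w r τ) : (2 : ℝ≥0∞) * Wt r τ (C ∪ D) ≤ w r τ := by
  have h3 : (2 : ℝ≥0∞) * (2 * Wt r τ (C ∪ D)) ≤ 2 * w r τ := by
    calc (2 : ℝ≥0∞) * (2 * Wt r τ (C ∪ D)) = 4 * Wt r τ (C ∪ D) := by ring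
      _ ≤ 4 * (Wt r τ C + Wt r τ D) := by gcongr; exact Wt_union _ _ _
      _ = 4 * Wt r τ C + 4 * Wt r τ D := by ring
      _ ≤ w r τ + w r τ := by gcongr
      _ = 2 * w r τ := by ring
  exact (ENNReal.mul_le_mul_iff_right (by norm_num) (by norm_num)).1 h3

variable (r) in
/-- nowhere dense in the sense of conditions -/
def ND (A : Set X) : Prop :=
  ∀ σ C, Cond r σ C → ∃ τ D, Cond r τ D ∧ K τ D ⊆ K σ C ∧ Disjoint (K τ D) A

variable (r) in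
/-- meager in the sense of conditions -/
def Meag (A : Set X) : Prop := ∃ F : ℕ → Set X, (∀ i, ND r (F i)) ∧ A ⊆ ⋃ i, F i

lemma ND.meag {A : Set X} (h : ND r A) : Meag r A :=
  ⟨fun _ => A, fun _ => h, fun _ hx => Set.mem_iUnion.2 ⟨0, hx⟩⟩

lemma Meag.mono {A B : Set X} (h : Meag r B) (hAB : A ⊆ B) : Meag r A := by
  obtain ⟨F, h1, h2⟩ := h
  exact ⟨F, h1, hAB.trans h2⟩

lemma nd_empty : ND r (∅ : Set X) := fun σ C h => ⟨σ, C, h, le_rfl, by simp⟩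

lemma Meag.iUnion {ι : Type*} [Countable ι] {A : ι → Set X} (h : ∀ i, Meag r (A i)) :
    Meag r (⋃ i, A i) := by
  cases isEmpty_or_nonempty ι with
  | inl he => exact (nd_empty (r := r)).meag.mono (by simp)
  | inr hne =>
    choose F h1 h2 using h
    obtain ⟨e, he⟩ := exists_surjective_nat (ι × ℕ)
    refine ⟨fun n => F (e n).1 (e n).2, fun n => h1 _ _, ?_⟩
    intro x hx
    obtain ⟨i, hi⟩ := Set.mem_iUnion.1 hx
    obtain ⟨j, hj⟩ := Set.mem_iUnion.1 (h2 i hi)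
    obtain ⟨n, hn⟩ := he (i, j)
    refine Set.mem_iUnion.2 ⟨n, ?_⟩
    rw [hn]
    exact hj

lemma Meag.union {A B : Set X} (hA : Meag r A) (hB : Meag r B) : Meag r (A ∪ B) := by
  have : A ∪ B = ⋃ b : Bool, (if b then A else B) := by
    ext x; simp [or_comm]
  rw [this]
  refine Meag.iUnion fun b => ?_
  cases b
  · simpa using hB
  · simpa using hA

/-- Baire category theorem for conditions -/
theorem baire (hr : 1 / 2 ≤ r) {σ : Str} {C : Set Str} (h : Cond r σ C) {A : Set X}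
    (hA : Meag r A) : (K σ C \ A).Nonempty := by
  obtain ⟨F, hF, hAF⟩ := hA
  let P : Type := {p : Str × Set Str // Cond r p.1 p.2}
  have hstep : ∀ (i : ℕ) (p : P), ∃ q : P, K q.1.1 q.1.2 ⊆ K p.1.1 p.1.2 ∧
      Disjoint (K q.1.1 q.1.2) (F i) := by
    intro i p
    obtain ⟨τ, D, h1, h2, h3⟩ := hF i p.1.1 p.1.2 p.2
    exact ⟨⟨(τ, D), h1⟩, h2, h3⟩
  choose step h1 h2 using hstep
  let seq : ℕ → P := fun n => Nat.rec ⟨(σ, C), h⟩ (fun i p => step i p) n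
  have hseq : ∀ n, seq (n + 1) = step n (seq n) := fun n => rfl
  have hne : (⋂ n, K (seq n).1.1 (seq n).1.2).Nonempty := by
    refine IsCompact.nonempty_iInter_of_sequence_nonempty_isCompact_isClosed _ ?_ ?_ ?_ ?_
    · intro n
      rw [hseq]
      exact h1 _ _
    · intro n
      exact K_nonempty hr (seq n).2
    · exact (isClosed_K _ _).isCompact
    · intro n
      exact isClosed_K _ _
  obtain ⟨x, hx⟩ := hne
  rw [Set.mem_iInter] at hx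
  refine ⟨x, hx 0, fun hxA => ?_⟩
  obtain ⟨i, hi⟩ := Set.mem_iUnion.1 (hAF hxA)
  have := hx (i + 1)
  rw [hseq] at this
  exact Set.disjoint_left.1 (h2 i (seq i)) this hi

/-- weights over an antichain add up -/
theorem antichain_sum {τ : Str} {M : Set Str} (C : Set Str) (hM : ∀ γ ∈ M, τ <+: γ)
    (hanti : ∀ γ ∈ M, ∀ δ ∈ M, γ <+: δ → γ = δ) :
    ∑' γ, M.indicator (fun γ => Wt r γ C) γ ≤ Wt r τ C := by
  classical
  have h1 : ∀ γ, M.indicator (fun γ => Wt r γ C) γ =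
      ∑' δ, (if γ ∈ M ∧ δ ∈ C ∧ γ <+: δ then w r δ else 0) := by
    intro γ
    by_cases hγ : γ ∈ M
    · rw [Set.indicator_of_mem hγ]
      unfold Wt
      congr 1
      funext δ
      by_cases h : δ ∈ C ∧ γ <+: δ
      · rw [Set.indicator_of_mem (show δ ∈ ({τ | τ ∈ C ∧ γ <+: τ} : Set Str) from h),
          if_pos ⟨hγ, h⟩]
      · rw [Set.indicator_of_notMem (show δ ∉ ({τ | τ ∈ C ∧ γ <+: τ} : Set Str) from h), if_neg]
        exact fun h' => h h'.2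
    · rw [Set.indicator_of_notMem hγ]
      symm
      rw [ENNReal.tsum_eq_zero]
      intro δ
      rw [if_neg]
      exact fun h' => hγ h'.1
  simp_rw [h1]
  rw [ENNReal.tsum_comm]
  unfold Wt
  refine ENNReal.tsum_le_tsum fun δ => ?_
  by_cases h : ∃ γ, γ ∈ M ∧ δ ∈ C ∧ γ <+: δ
  · obtain ⟨γ, hγ⟩ := h
    rw [tsum_eq_single γ, if_pos hγ, Set.indicator_of_mem]
    · exact ⟨hγ.2.1, (hM γ hγ.1).trans hγ.2.2⟩
    · intro γ' hne
      rw [if_neg]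
      rintro ⟨h1, h2, h3⟩
      apply hne
      rcases le_total γ'.length γ.length with hl | hl
      · exact hanti _ h1 _ hγ.1 (List.prefix_of_prefix_length_le h3 hγ.2.2 hl)
      · exact (hanti _ hγ.1 _ h1 (List.prefix_of_prefix_length_le hγ.2.2 h3 hl)).symm
  · have : ∀ γ, (if γ ∈ M ∧ δ ∈ C ∧ γ <+: δ then w r δ else 0) = 0 := by
      intro γ
      rw [if_neg]
      exact fun h' => h ⟨γ, h'⟩
    simp_rw [this]
    simp

lemma exists_minimal {τ : Str} {C : Set Str} : ∀ n : ℕ, ∀ γ₀ ∈ C, τ <+: γ₀ → γ₀.length ≤ n →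
    ∃ γ ∈ C, τ <+: γ ∧ γ <+: γ₀ ∧ ∀ γ₁ ∈ C, τ <+: γ₁ → γ₁ <+: γ → γ₁ = γ := by
  intro n
  induction n with
  | zero =>
    intro γ₀ h1 h2 h3
    refine ⟨γ₀, h1, h2, List.prefix_refl _, ?_⟩
    intro γ₁ _ _ h4
    refine List.IsPrefix.eq_of_length h4 ?_
    have := h4.length_le
    omega
  | succ n ih =>
    intro γ₀ h1 h2 h3
    by_cases h : ∃ γ₁ ∈ C, τ <+: γ₁ ∧ γ₁ <+: γ₀ ∧ γ₁ ≠ γ₀
    · obtain ⟨γ₁, h4, h5, h6, h7⟩ := h
      have h8 : γ₁.length < γ₀.length := by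
        refine lt_of_le_of_ne h6.length_le fun he => h7 (List.IsPrefix.eq_of_length h6 he)
      obtain ⟨γ, h9, h10, h11, h12⟩ := ih γ₁ h4 h5 (by omega)
      exact ⟨γ, h9, h10, h11.trans h6, h12⟩
    · push Not at h
      exact ⟨γ₀, h1, h2, List.prefix_refl _, fun γ₁ h4 h5 h6 => h γ₁ h4 h5 h6⟩

/-- dichotomy between two conditions -/
theorem dichotomy (hr : 1 / 2 < r) {τ₀ σ : Str} {C' C : Set Str} (hq : Cond r τ₀ C')
    (_hp : Cond r σ C) : ∃ ρ D, Cond r ρ D ∧ K ρ D ⊆ K τ₀ C' ∧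
      (K ρ D ⊆ K σ C ∨ Disjoint (K ρ D) (K σ C)) := by
  have hr0 : r ≠ 0 := by rintro rfl; simp at hr
  obtain ⟨τ, h1, h2, h3, h4⟩ := shrink hr hq 4 σ.length
  have hsub : K τ C' ⊆ K τ₀ C' := K_mono h1 le_rfl
  by_cases hστ : σ <+: τ
  swap
  · refine ⟨τ, C', h3, hsub, Or.inr ?_⟩
    exact (cyl_disjoint hστ h2).symm.mono Set.sdiff_subset Set.sdiff_subset
  by_cases hC : ∃ γ ∈ C, γ <+: τ
  · obtain ⟨γ, hγ, hp⟩ := hC
    refine ⟨τ, C', h3, hsub, Or.inr ?_⟩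
    rw [Set.disjoint_left]
    rintro x ⟨hx, _⟩ ⟨_, hx2⟩
    apply hx2
    simp only [Set.mem_iUnion]
    exact ⟨γ, hγ, cyl_mono hp hx⟩
  push Not at hC
  by_cases hg : ∃ γ ∈ C, τ <+: γ ∧ Cond r γ C'
  · obtain ⟨γ, hγ, hp, hc⟩ := hg
    refine ⟨γ, C', hc, (K_mono hp le_rfl).trans hsub, Or.inr ?_⟩
    rw [Set.disjoint_left]
    rintro x ⟨hx, _⟩ ⟨_, hx2⟩
    apply hx2
    simp only [Set.mem_iUnion]
    exact ⟨γ, hγ, hx⟩
  push Not at hg
  let M : Set Str := {γ | γ ∈ C ∧ τ <+: γ ∧ (∀ γ' ∈ C', ¬ γ' <+: γ) ∧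
    ∀ γ₁ ∈ C, τ <+: γ₁ → γ₁ <+: γ → γ₁ = γ}
  have hMle : Wt r τ M ≤ Wt r τ C' := by
    refine le_trans ?_ (antichain_sum (r := r) C' (M := M) (τ := τ) (fun γ h => h.2.1) ?_)
    · unfold Wt
      refine ENNReal.tsum_le_tsum fun γ => ?_
      by_cases hγ : γ ∈ M
      · rw [Set.indicator_of_mem hγ, Set.indicator_of_mem (show γ ∈ ({τ_1 | τ_1 ∈ M ∧ τ <+: τ_1} :
          Set Str) from ⟨hγ, hγ.2.1⟩)]
        by_contra hcon
        push Not at hcon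
        exact hg γ hγ.1 hγ.2.1 ⟨hcon, hγ.2.2.1⟩
      · rw [Set.indicator_of_notMem (show γ ∉ ({τ_1 | τ_1 ∈ M ∧ τ <+: τ_1} :
          Set Str) from fun h => hγ h.1)]
        exact zero_le
    · intro γ hγ δ hδ hp
      exact hδ.2.2.2 γ hγ.1 hγ.2.1 hp
  have h5 : (4 : ℝ≥0∞) * Wt r τ C' ≤ w r τ := by exact_mod_cast h4
  have h6 : (2 : ℝ≥0∞) * Wt r τ (C' ∪ M) ≤ w r τ :=
    half_of_quarter h5 (le_trans (by gcongr) h5)
  refine ⟨τ, C' ∪ M, cond_of_le hr0 h6 ?_, (K_mono (List.prefix_refl _) Set.subset_union_left).trans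
    hsub, Or.inl ?_⟩
  · rintro γ (hγ | hγ) hp
    · exact h3.2 γ hγ hp
    · exact hC γ hγ.1 hp
  · rintro x ⟨hx1, hx2⟩
    refine ⟨cyl_mono hστ hx1, fun hx3 => hx2 ?_⟩
    simp only [Set.mem_iUnion] at hx3 ⊢
    obtain ⟨γ₀, hγ₀, hxγ₀⟩ := hx3
    have hpre : τ <+: γ₀ := by
      rcases le_total τ.length γ₀.length with hl | hl
      · exact prefix_iff_of_mem hx1 hxγ₀ hl
      · exact absurd (prefix_iff_of_mem hxγ₀ hx1 hl) (hC γ₀ hγ₀)
    obtain ⟨γ, h7, h8, h9, h10⟩ := exists_minimal (τ := τ) (C := C) γ₀.length γ₀ hγ₀ hpre le_rfl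
    by_cases hcov : ∃ γ' ∈ C', γ' <+: γ
    · obtain ⟨γ', h11, h12⟩ := hcov
      exact ⟨γ', Or.inl h11, cyl_mono (h12.trans h9) hxγ₀⟩
    · push Not at hcov
      exact ⟨γ, Or.inr ⟨h7, h8, hcov, h10⟩, cyl_mono h9 hxγ₀⟩

/-- Banach category theorem for conditions -/
theorem meag_of_local (hr : 1 / 2 < r) {σ : Str} {C : Set Str} (hp : Cond r σ C) (A : Set X)
    (h : ∀ ρ D, Cond r ρ D → K ρ D ⊆ K σ C → ∃ ρ' D', Cond r ρ' D' ∧ K ρ' D' ⊆ K ρ D ∧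
      Meag r (K ρ' D' ∩ A)) : Meag r (K σ C ∩ A) := by
  classical
  have hr0 : r ≠ 0 := by rintro rfl; simp at hr
  let S : Set Str := {τ | ∃ D, (4 : ℝ≥0∞) * Wt r τ D ≤ w r τ ∧ (∀ γ ∈ D, ¬ γ <+: τ) ∧
    Meag r (K τ D ∩ A)}
  have hS : ∀ τ : S, ∃ D, (4 : ℝ≥0∞) * Wt r τ.1 D ≤ w r τ.1 ∧ (∀ γ ∈ D, ¬ γ <+: τ.1) ∧
    Meag r (K τ.1 D ∩ A) := fun τ => τ.2
  choose D hD1 hD2 hD3 using hS
  let Z : Set X := (K σ C ∩ A) \ ⋃ τ : S, K τ.1 (D τ)
  have hZ : ND r Z := by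
    intro ρ₀ E₀ hE₀
    obtain ⟨ρ, E, h1, h2, h3⟩ := dichotomy hr hE₀ hp
    rcases h3 with h3 | h3
    · obtain ⟨ρ', D', h4, h5, h6⟩ := h ρ E h1 h3
      obtain ⟨τ, h7, _, h8, h9⟩ := shrink hr h4 4 0
      have h9' : (4 : ℝ≥0∞) * Wt r τ D' ≤ w r τ := by exact_mod_cast h9
      have hτ : τ ∈ S := ⟨D', h9', h8.2, h6.mono (Set.inter_subset_inter_left _
        (K_mono h7 le_rfl))⟩
      refine ⟨τ, D' ∪ D ⟨τ, hτ⟩, cond_of_le hr0 (half_of_quarter h9' (hD1 ⟨τ, hτ⟩)) ?_, ?_, ?_⟩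
      · rintro γ (hγ | hγ)
        · exact h8.2 γ hγ
        · exact hD2 ⟨τ, hτ⟩ γ hγ
      · exact ((K_mono h7 Set.subset_union_left).trans h5).trans h2
      · rw [Set.disjoint_left]
        rintro x hx ⟨_, hx2⟩
        apply hx2
        rw [Set.mem_iUnion]
        exact ⟨⟨τ, hτ⟩, K_mono (List.prefix_refl _) Set.subset_union_right hx⟩
    · exact ⟨ρ, E, h1, h2, h3.mono_right (Set.sdiff_subset.trans Set.inter_subset_left)⟩
  refine (hZ.meag.union (Meag.iUnion fun τ : S => hD3 τ)).mono ?_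
  intro x hx
  by_cases hx2 : x ∈ ⋃ τ : S, K τ.1 (D τ)
  · right
    obtain ⟨τ, hτ⟩ := Set.mem_iUnion.1 hx2
    exact Set.mem_iUnion.2 ⟨τ, hτ, hx.2⟩
  · left
    exact ⟨hx, hx2⟩

variable (r) in
/-- `B` is decided by conditions -/
def Dec (B : Set X) : Prop := ∀ σ C, Cond r σ C → ∃ τ D, Cond r τ D ∧ K τ D ⊆ K σ C ∧
  (Meag r (K τ D ∩ B) ∨ Meag r (K τ D \ B))

lemma Dec.compl {B : Set X} (h : Dec r B) : Dec r Bᶜ := by
  intro σ C hC
  obtain ⟨τ, D, h1, h2, h3⟩ := h σ C hC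
  refine ⟨τ, D, h1, h2, ?_⟩
  rcases h3 with h3 | h3
  · right
    rwa [Set.sdiff_eq, compl_compl]
  · left
    rwa [← Set.sdiff_eq]

theorem Dec.iUnion (hr : 1 / 2 < r) {B : ℕ → Set X} (h : ∀ i, Dec r (B i)) :
    Dec r (⋃ i, B i) := by
  intro σ C hC
  by_cases hcase : ∃ i, ∃ τ D, Cond r τ D ∧ K τ D ⊆ K σ C ∧ Meag r (K τ D \ B i)
  · obtain ⟨i, τ, D, h1, h2, h3⟩ := hcase
    refine ⟨τ, D, h1, h2, Or.inr (h3.mono ?_)⟩
    exact Set.sdiff_subset_sdiff_right (Set.subset_iUnion _ i)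
  · push Not at hcase
    refine ⟨σ, C, hC, le_rfl, Or.inl ?_⟩
    rw [Set.inter_iUnion]
    refine Meag.iUnion fun i => ?_
    refine meag_of_local hr hC _ fun ρ D h1 h2 => ?_
    obtain ⟨τ, E, h3, h4, h5⟩ := h i ρ D h1
    rcases h5 with h5 | h5
    · exact ⟨τ, E, h3, h4, h5⟩
    · exact absurd h5 (hcase i τ E h3 (h4.trans h2))

lemma dec_coord (hr : 1 / 2 < r) (i : ℕ) (s : Set Bool) : Dec r {x : X | x i ∈ s} := by
  intro σ C hC
  obtain ⟨τ, h1, h2, h3, _⟩ := shrink hr hC 1 (i + 1)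
  refine ⟨τ, C, h3, K_mono h1 le_rfl, ?_⟩
  have hval : ∀ x ∈ cyl τ, x i = pad τ i := by
    intro x hx
    rw [cyl_eq] at hx
    have h4 := Set.mem_iInter.1 hx ⟨i, h2⟩
    have h5 : pad τ ∈ cyl τ := pad_mem τ
    rw [cyl_eq] at h5
    have h6 := Set.mem_iInter.1 h5 ⟨i, h2⟩
    simp only [Set.mem_ofPred_eq] at h4 h6
    rw [h4, h6]
  by_cases hb : pad τ i ∈ s
  · right
    refine (nd_empty (r := r)).meag.mono ?_
    rintro x ⟨hx, hx2⟩
    apply hx2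
    simp only [Set.mem_ofPred_eq]
    rw [hval x hx.1]
    exact hb
  · left
    refine (nd_empty (r := r)).meag.mono ?_
    rintro x ⟨hx, hx2⟩
    apply hb
    simp only [Set.mem_ofPred_eq] at hx2
    rw [← hval x hx.1]
    exact hx2

/-- every Borel set is decided -/
theorem dec_of_measurable (hr : 1 / 2 < r) {B : Set X} (hB : MeasurableSet B) : Dec r B := by
  let m : MeasurableSpace X :=
    { MeasurableSet' := fun B => Dec r B
      measurableSet_empty := by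
        intro σ C hC
        exact ⟨σ, C, hC, le_rfl, Or.inl (by simpa using (nd_empty (r := r)).meag)⟩
      measurableSet_compl := fun s hs => hs.compl
      measurableSet_iUnion := fun f hf => Dec.iUnion hr hf }
  have hle : MeasurableSpace.pi ≤ m := by
    refine iSup_le fun i => ?_
    rintro _ ⟨s, _, rfl⟩
    exact dec_coord hr i s
  exact hle B hB

end Pool.Agent.Helper747.BL
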