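import Mathlib
import Pool.Agent.Helper747.BLB

set_option autoImplicit false
open Set Topology
open scoped ENNReal NNReal

namespace Pool.Agent.Helper747.BL

variable {r : ℝ≥0}

lemma Wt_le_of_imp {σ : Str} {C D : Set Str} (h : ∀ γ ∈ C, σ <+: γ → γ ∈ D) :
    Wt r σ C ≤ Wt r σ D := by
  unfold Wt
  refine ENNReal.tsum_le_tsum fun γ => ?_
  refine Set.indicator_le_indicator_of_subset ?_ (fun _ => zero_le) γ
  rintro γ ⟨h1, h2⟩
  exact ⟨h γ h1 h2, h2⟩

open Classical in
variable (r) in
/-- minimal cuts of depth `k` -/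
noncomputable def cut (T : Set Str) : ℕ → Str → ℝ≥0∞
  | 0, γ => if γ ∈ T then w r γ else 0
  | k + 1, γ => if γ ∈ T then w r γ else
      min (w r γ) (cut T k (γ ++ [false]) + cut T k (γ ++ [true]))

lemma cut_le_w (T : Set Str) (k : ℕ) (γ : Str) : cut r T k γ ≤ w r γ := by
  cases k with
  | zero =>
    unfold cut
    split_ifs
    · exact le_rfl
    · exact zero_le
  | succ k =>
    unfold cut
    split_ifs
    · exact le_rfl
    · exact min_le_left _ _

lemma cut_mono (T : Set Str) (k : ℕ) : ∀ γ : Str, cut r T k γ ≤ cut r T (k + 1) γ := by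
  induction k with
  | zero =>
    intro γ
    rw [cut, cut]
    split_ifs
    · exact le_rfl
    · exact zero_le
  | succ k ih =>
    intro γ
    rw [cut, cut]
    split_ifs
    · exact le_rfl
    · exact min_le_min_left _ (add_le_add (ih _) (ih _))

variable (r) in
/-- limit of the minimal cuts -/
noncomputable def cutS (T : Set Str) (γ : Str) : ℝ≥0∞ := ⨆ k, cut r T k γ

lemma cutS_le_w (T : Set Str) (γ : Str) : cutS r T γ ≤ w r γ :=
  iSup_le fun k => cut_le_w T k γ

lemma cutS_of_mem {T : Set Str} {γ : Str} (h : γ ∈ T) : cutS r T γ = w r γ := by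
  refine le_antisymm (cutS_le_w T γ) ?_
  refine le_trans ?_ (le_iSup (fun k => cut r T k γ) 0)
  change w r γ ≤ cut r T 0 γ
  rw [cut, if_pos h]

lemma cutS_eq {T : Set Str} {γ : Str} (h : γ ∉ T) :
    cutS r T γ = min (w r γ) (cutS r T (γ ++ [false]) + cutS r T (γ ++ [true])) := by
  have hm : ∀ δ, Monotone fun k => cut r T k δ := fun δ =>
    monotone_nat_of_le_succ fun k => cut_mono T k δ
  have h1 : cutS r T γ = ⨆ k, cut r T (k + 1) γ := by
    refine le_antisymm (iSup_le fun k => ?_) (iSup_le fun k => ?_)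
    · exact (cut_mono T k γ).trans (le_iSup (fun k => cut r T (k + 1) γ) k)
    · exact le_iSup (fun k => cut r T k γ) (k + 1)
  have h2 : ∀ k, cut r T (k + 1) γ =
      w r γ ⊓ (cut r T k (γ ++ [false]) + cut r T k (γ ++ [true])) := by
    intro k
    rw [cut, if_neg h]
  rw [h1]
  simp_rw [h2]
  rw [← inf_iSup_eq, ← ENNReal.iSup_add_iSup_of_monotone (hm _) (hm _)]
  rfl

variable (r) in
/-- every condition has an extension in `T` -/
def Hits (T : Set Str) : Prop :=
  ∀ σ C, Cond r σ C → ∃ τ ∈ T, σ <+: τ ∧ ∀ γ ∈ C, ¬ γ <+: τ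

variable (r) in
/-- first saturated strings above `ρ` -/
def firstSat (T : Set Str) (ρ : Str) : Set Str :=
  {γ | ρ <+: γ ∧ cutS r T γ = w r γ ∧
    ∀ γ', ρ <+: γ' → γ' <+: γ → γ' ≠ γ → cutS r T γ' ≠ w r γ'}

lemma firstSat_partial (T : Set Str) (m : ℕ) : ∀ ρ : Str,
    Wt r ρ (firstSat r T ρ ∩ {γ | γ.length ≤ ρ.length + m}) ≤ cutS r T ρ := by
  have hsat : ∀ (m : ℕ) (ρ : Str), cutS r T ρ = w r ρ →
      Wt r ρ (firstSat r T ρ ∩ {γ | γ.length ≤ ρ.length + m}) ≤ cutS r T ρ := by
    intro m ρ h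
    have h1 : ∀ γ ∈ firstSat r T ρ, γ = ρ := by
      intro γ hγ
      by_contra hne
      exact hγ.2.2 ρ (List.prefix_refl _) hγ.1 (fun h => hne h.symm) h
    rw [h]
    unfold Wt
    rw [tsum_eq_single ρ]
    · refine Set.indicator_le_self' (fun _ _ => zero_le) ρ
    · intro γ hγ
      rw [Set.indicator_of_notMem]
      rintro ⟨⟨h2, _⟩, _⟩
      exact hγ (h1 γ h2)
  induction m with
  | zero =>
    intro ρ
    by_cases h : cutS r T ρ = w r ρ
    · exact hsat 0 ρ h
    · have : Wt r ρ (firstSat r T ρ ∩ {γ | γ.length ≤ ρ.length + 0}) = 0 := by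
        unfold Wt
        rw [ENNReal.tsum_eq_zero]
        intro γ
        rw [Set.indicator_of_notMem]
        rintro ⟨⟨h2, h3⟩, h4⟩
        have h5 : ρ = γ := List.IsPrefix.eq_of_length h4 (le_antisymm h4.length_le (by simpa using h3))
        rw [← h5] at h2
        exact h h2.2.1
      rw [this]
      exact zero_le
  | succ m ih =>
    intro ρ
    by_cases h : cutS r T ρ = w r ρ
    · exact hsat (m + 1) ρ h
    · have hρT : ρ ∉ T := fun hT => h (cutS_of_mem hT)
      have hρ : ρ ∉ (firstSat r T ρ ∩ {γ | γ.length ≤ ρ.length + (m + 1)}) := fun h2 => h h2.1.2.1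
      rw [Wt_children hρ]
      have h3 := cutS_eq (r := r) hρT
      have h4 : cutS r T ρ = cutS r T (ρ ++ [false]) + cutS r T (ρ ++ [true]) := by
        rcases min_choice (w r ρ) (cutS r T (ρ ++ [false]) + cutS r T (ρ ++ [true])) with h5 | h5
        · rw [h5] at h3
          exact absurd h3 h
        · rw [h5] at h3
          exact h3
      rw [h4]
      have h5 : ∀ b : Bool, Wt r (ρ ++ [b]) (firstSat r T ρ ∩ {γ | γ.length ≤ ρ.length + (m + 1)})
          ≤ cutS r T (ρ ++ [b]) := by
        intro b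
        refine (Wt_le_of_imp ?_).trans (ih (ρ ++ [b]))
        rintro γ ⟨h6, h7⟩ h8
        refine ⟨⟨h8, h6.2.1, ?_⟩, ?_⟩
        · intro γ' h9 h10 h11
          exact h6.2.2 γ' ((List.prefix_append _ _).trans h9) h10 h11
        · simp only [Set.mem_ofPred_eq, List.length_append, List.length_singleton] at h7 ⊢
          omega
      exact add_le_add (h5 false) (h5 true)

lemma firstSat_le (T : Set Str) (ρ : Str) : Wt r ρ (firstSat r T ρ) ≤ cutS r T ρ := by
  unfold Wt
  rw [ENNReal.tsum_eq_iSup_sum]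
  refine iSup_le fun s => ?_
  have hb : ∃ m, ∀ γ ∈ s, γ.length ≤ ρ.length + m := by
    refine ⟨s.sup List.length, fun γ hγ => ?_⟩
    have := Finset.le_sup (f := List.length) hγ
    omega
  obtain ⟨m, hm⟩ := hb
  refine le_trans ?_ (firstSat_partial T m ρ)
  unfold Wt
  refine le_trans ?_ (ENNReal.sum_le_tsum s)
  refine Finset.sum_le_sum fun γ hγ => ?_
  by_cases h : γ ∈ ({τ | τ ∈ firstSat r T ρ ∧ ρ <+: τ} : Set Str)
  · rw [Set.indicator_of_mem h, Set.indicator_of_mem]
    exact ⟨⟨h.1, hm γ hγ⟩, h.2⟩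
  · rw [Set.indicator_of_notMem h]
    exact zero_le

theorem cutS_full {T : Set Str} (hT : Hits r T) (ρ : Str) : cutS r T ρ = w r ρ := by
  by_contra hne
  have hlt : cutS r T ρ < w r ρ := lt_of_le_of_ne (cutS_le_w T ρ) hne
  have hcond : Cond r ρ (firstSat r T ρ) := by
    refine ⟨(firstSat_le T ρ).trans_lt hlt, ?_⟩
    intro γ hγ hp
    have h5 : ρ = γ := List.IsPrefix.eq_of_length hγ.1 (le_antisymm hγ.1.length_le hp.length_le)
    rw [← h5] at hγ
    exact hne hγ.2.1
  obtain ⟨τ, h1, h2, h3⟩ := hT ρ _ hcond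
  obtain ⟨γ, h4, h5, h6, h7⟩ := exists_minimal (τ := ρ) (C := {γ | cutS r T γ = w r γ})
    τ.length τ (cutS_of_mem h1) h2 le_rfl
  refine h3 γ ⟨h5, h4, ?_⟩ h6
  intro γ' h8 h9 h10 h11
  exact h10 (h7 γ' h11 h8 h9)

/-- the mass above a string -/
noncomputable def mass (ν : Str →₀ ℝ≥0) (β : Str) : ℝ≥0 :=
  ν.sum fun τ a => if β <+: τ then a else 0

lemma mass_add (ν ν' : Str →₀ ℝ≥0) (β : Str) : mass (ν + ν') β = mass ν β + mass ν' β := by
  unfold mass
  rw [Finsupp.sum_add_index']
  · intro a; split_ifs <;> rfl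
  · intro a b c; split_ifs
    · rfl
    · simp

lemma mass_eq_zero {ν : Str →₀ ℝ≥0} {β : Str} (h : ∀ τ ∈ ν.support, ¬ β <+: τ) :
    mass ν β = 0 := by
  unfold mass Finsupp.sum
  refine Finset.sum_eq_zero fun τ hτ => ?_
  exact if_neg (h τ hτ)

lemma mass_congr {ν : Str →₀ ℝ≥0} {β γ : Str} (h : ∀ τ ∈ ν.support, (β <+: τ ↔ γ <+: τ)) :
    mass ν β = mass ν γ := by
  unfold mass Finsupp.sum
  refine Finset.sum_congr rfl fun τ hτ => ?_
  by_cases h1 : β <+: τ
  · exact (if_pos h1).trans (if_pos ((h τ hτ).1 h1)).symm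
  · exact (if_neg h1).trans (if_neg fun h2 => h1 ((h τ hτ).2 h2)).symm

variable (r) in
/-- a flow from `γ` to `T` of total mass `m` -/
structure Flow (T : Set Str) (γ : Str) (m : ℝ≥0) (ν : Str →₀ ℝ≥0) : Prop where
  supp : ∀ τ ∈ ν.support, τ ∈ T ∧ γ <+: τ
  anti : ∀ τ ∈ ν.support, ∀ τ' ∈ ν.support, τ <+: τ' → τ = τ'
  total : mass ν γ = m
  bound : ∀ β, γ <+: β → (mass ν β : ℝ≥0∞) ≤ w r β

theorem exists_flow_of_cut (T : Set Str) (k : ℕ) : ∀ (γ : Str) (m : ℝ≥0),
    (m : ℝ≥0∞) ≤ cut r T k γ → ∃ ν, Flow r T γ m ν := by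
  classical
  have hmem : ∀ (k : ℕ) (γ : Str) (m : ℝ≥0), γ ∈ T → (m : ℝ≥0∞) ≤ cut r T k γ →
      ∃ ν, Flow r T γ m ν := by
    intro k γ m hγ hm
    have hms : ∀ β, mass (Finsupp.single γ m) β = if β <+: γ then m else 0 := by
      intro β
      unfold mass
      rw [Finsupp.sum_single_index]
      split_ifs <;> rfl
    refine ⟨Finsupp.single γ m, ?_, ?_, ?_, ?_⟩
    · intro τ hτ
      have := Finsupp.support_single_subset hτ
      rw [Finset.mem_singleton] at this
      subst this
      exact ⟨hγ, List.prefix_refl _⟩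
    · intro τ hτ τ' hτ' _
      have h1 := Finsupp.support_single_subset hτ
      have h2 := Finsupp.support_single_subset hτ'
      rw [Finset.mem_singleton] at h1 h2
      rw [h1, h2]
    · rw [hms, if_pos (List.prefix_refl _)]
    · intro β hβ
      rw [hms]
      split_ifs with h
      · have : β = γ := List.IsPrefix.eq_of_length h (le_antisymm h.length_le hβ.length_le)
        rw [this]
        exact hm.trans (cut_le_w T k γ)
      · simp
  induction k with
  | zero =>
    intro γ m hm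
    by_cases hγ : γ ∈ T
    · exact hmem 0 γ m hγ hm
    · rw [cut, if_neg hγ] at hm
      have hm0 : m = 0 := by simpa using hm
      subst hm0
      refine ⟨0, ?_, ?_, ?_, ?_⟩
      · intro τ hτ; simp at hτ
      · intro τ hτ; simp at hτ
      · exact mass_eq_zero (by simp)
      · intro β _
        rw [mass_eq_zero (by simp)]
        simp
  | succ k ih =>
    intro γ m hm
    by_cases hγ : γ ∈ T
    · exact hmem (k + 1) γ m hγ hm
    · rw [cut, if_neg hγ] at hm
      have hmw : (m : ℝ≥0∞) ≤ w r γ := hm.trans (min_le_left _ _)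
      have hms : (m : ℝ≥0∞) ≤ cut r T k (γ ++ [false]) + cut r T k (γ ++ [true]) :=
        hm.trans (min_le_right _ _)
      have hfin : ∀ b, cut r T k (γ ++ [b]) ≠ ∞ := fun b =>
        ne_top_of_le_ne_top (w_ne_top _) (cut_le_w T k _)
      obtain ⟨c0, hc0⟩ := WithTop.ne_top_iff_exists.1 (hfin false)
      obtain ⟨c1, hc1⟩ := WithTop.ne_top_iff_exists.1 (hfin true)
      change ((c0 : ℝ≥0) : ℝ≥0∞) = _ at hc0
      change ((c1 : ℝ≥0) : ℝ≥0∞) = _ at hc1
      rw [← hc0, ← hc1] at hms
      have hms' : m ≤ c0 + c1 := by exact_mod_cast hms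
      obtain ⟨ν0, hν0⟩ := ih (γ ++ [false]) (min m c0) (by
        rw [← hc0]; exact_mod_cast min_le_right _ _)
      obtain ⟨ν1, hν1⟩ := ih (γ ++ [true]) (m - min m c0) (by
        rw [← hc1]
        have : m - min m c0 ≤ c1 := by
          rcases le_total m c0 with h | h
          · rw [min_eq_left h]; simp
          · rw [min_eq_right h]
            exact tsub_le_iff_left.2 hms'
        exact_mod_cast this)
      have hsum : min m c0 + (m - min m c0) = m := add_tsub_cancel_of_le (min_le_left _ _)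
      have hsub : ∀ τ ∈ (ν0 + ν1).support, τ ∈ ν0.support ∨ τ ∈ ν1.support := by
        intro τ hτ
        have := Finsupp.support_add hτ
        exact Finset.mem_union.1 this
      have htot : mass (ν0 + ν1) γ = m := by
        rw [mass_add, ← hsum]
        congr 1
        · rw [← hν0.total]
          refine mass_congr fun τ hτ => ?_
          have := (hν0.supp τ hτ).2
          exact ⟨fun _ => this, fun _ => (List.prefix_append _ _).trans this⟩
        · rw [← hν1.total]
          refine mass_congr fun τ hτ => ?_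
          have := (hν1.supp τ hτ).2
          exact ⟨fun _ => this, fun _ => (List.prefix_append _ _).trans this⟩
      refine ⟨ν0 + ν1, ?_, ?_, htot, ?_⟩
      · intro τ hτ
        rcases hsub τ hτ with h | h
        · exact ⟨(hν0.supp τ h).1, (List.prefix_append _ _).trans (hν0.supp τ h).2⟩
        · exact ⟨(hν1.supp τ h).1, (List.prefix_append _ _).trans (hν1.supp τ h).2⟩
      · intro τ hτ τ' hτ' hp
        rcases hsub τ hτ with h | h <;> rcases hsub τ' hτ' with h' | h'
        · exact hν0.anti τ h τ' h' hp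
        · exact absurd (not_both ((hν0.supp τ h).2.trans hp) (hν1.supp τ' h').2) id
        · exact absurd (not_both (hν0.supp τ' h').2 ((hν1.supp τ h).2.trans hp)) id
        · exact hν1.anti τ h τ' h' hp
      · intro β hβ
        rcases (prefix_cases γ β).1 hβ with rfl | h | h
        · rw [htot]
          exact hmw
        · rw [mass_add, mass_eq_zero (ν := ν1) (fun τ hτ hp =>
            not_both (h.trans hp) (hν1.supp τ hτ).2), add_zero]
          exact hν0.bound β h
        · rw [mass_add, mass_eq_zero (ν := ν0) (fun τ hτ hp =>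
            not_both (hν0.supp τ hτ).2 (h.trans hp)), zero_add]
          exact hν1.bound β h

/-- flows of half the maximal mass exist above every string -/
theorem exists_flow (hr : r ≠ 0) {T : Set Str} (hT : Hits r T) (ρ : Str) :
    ∃ ν, Flow r T ρ (r ^ ρ.length / 2) ν := by
  have h1 := cutS_full hT ρ
  have hlt : ((r ^ ρ.length / 2 : ℝ≥0) : ℝ≥0∞) < cutS r T ρ := by
    rw [h1]
    unfold w
    rw [← ENNReal.coe_pow, ENNReal.coe_lt_coe]
    exact half_lt_self (pow_pos (pos_iff_ne_zero.2 hr) _)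
  obtain ⟨k, hk⟩ := lt_iSup_iff.1 hlt
  exact exists_flow_of_cut T k ρ _ hk.le

end Pool.Agent.Helper747.BL
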