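import Mathlib
import Pool.Agent.Helper747.BLC

set_option autoImplicit false
open Set Topology
open scoped ENNReal NNReal

namespace Pool.Agent.Helper747.BL

variable {r : ℝ≥0}

variable (r) in
/-- `τ` is a stem forcing the value `y` of the initial segment of length `n` of `f` -/
def Stem (f : X → X) (n : ℕ) (y : Str) (τ : Str) : Prop :=
  ∃ C : Set Str, (∀ γ ∈ C, ¬ γ <+: τ) ∧ (4 : ℝ≥0∞) * Wt r τ C ≤ w r τ ∧
    Meag r (K τ C \ {x | pre (f x) n = y})

/-- conditions forcing a value are dense -/
theorem exists_value (hr : 1 / 2 < r) {f : X → X} (hf : Measurable f) (n : ℕ) {σ : Str}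
    {C : Set Str} (h : Cond r σ C) : ∃ y : Str, y.length = n ∧ ∃ τ D, Cond r τ D ∧
      K τ D ⊆ K σ C ∧ Meag r (K τ D \ {x | pre (f x) n = y}) := by
  induction n with
  | zero =>
    refine ⟨[], rfl, σ, C, h, le_rfl, ?_⟩
    refine (nd_empty (r := r)).meag.mono ?_
    rintro x ⟨_, hx⟩
    exact hx rfl
  | succ n ih =>
    obtain ⟨y, hy, τ, D, h1, h2, h3⟩ := ih
    have hB : MeasurableSet {x : X | f x n = true} := by
      have : Measurable fun x => f x n := (measurable_pi_apply n).comp hf
      exact this (measurableSet_singleton true)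
    obtain ⟨τ', D', h4, h5, h6⟩ := dec_of_measurable hr hB τ D h1
    rcases h6 with h6 | h6
    · refine ⟨y ++ [false], by simp [hy], τ', D', h4, h5.trans h2, ?_⟩
      refine (h3.union h6).mono ?_
      rintro x ⟨hx1, hx2⟩
      by_cases hx3 : pre (f x) n = y
      · right
        refine ⟨hx1, ?_⟩
        by_contra hx4
        apply hx2
        have hx5 : f x n = false := by simpa using hx4
        change pre (f x) (n + 1) = y ++ [false]
        rw [pre_succ, hx3, hx5]
      · left
        exact ⟨h5 hx1, hx3⟩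
    · refine ⟨y ++ [true], by simp [hy], τ', D', h4, h5.trans h2, ?_⟩
      refine (h3.union h6).mono ?_
      rintro x ⟨hx1, hx2⟩
      by_cases hx3 : pre (f x) n = y
      · right
        refine ⟨hx1, ?_⟩
        intro hx4
        apply hx2
        have hx5 : f x n = true := hx4
        change pre (f x) (n + 1) = y ++ [true]
        rw [pre_succ, hx3, hx5]
      · left
        exact ⟨h5 hx1, hx3⟩

theorem hits_stem (hr : 1 / 2 < r) {f : X → X} (hf : Measurable f) (n : ℕ) :
    Hits r {τ | ∃ y : Str, y.length = n ∧ Stem r f n y τ} := by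
  intro σ C h
  obtain ⟨y, hy, τ₀, D, h1, h2, h3⟩ := exists_value hr hf n h
  obtain ⟨τ, h4, h5, h6, h7⟩ := shrink hr h1 4 σ.length
  have hK : K τ D ⊆ K σ C := (K_mono h4 le_rfl).trans h2
  obtain ⟨x, hx⟩ := K_nonempty hr.le h6
  refine ⟨τ, ⟨y, hy, D, h6.2, by exact_mod_cast h7, h3.mono ?_⟩, ?_, ?_⟩
  · exact Set.sdiff_subset_sdiff_left (K_mono h4 le_rfl)
  · exact prefix_iff_of_mem (hK hx).1 hx.1 h5
  · intro γ hγ hp
    apply (hK hx).2
    simp only [Set.mem_iUnion]
    exact ⟨γ, hγ, cyl_mono hp hx.1⟩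

end Pool.Agent.Helper747.BL
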