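import Mathlib

set_option autoImplicit false
open Set Topology
open scoped ENNReal NNReal

namespace Pool.Agent.Helper747.BL

section Aff
variable {ι : Type*} [DecidableEq ι]

/-- affine in every coordinate separately -/
def Aff (F : (ι → ℝ) → ℝ) : Prop :=
  ∀ x i, ∃ A B : ℝ, ∀ s, F (Function.update x i s) = A + B * s

lemma Aff.const (c : ℝ) : Aff (fun _ : ι → ℝ => c) := fun _ _ => ⟨c, 0, fun s => by ring⟩

lemma Aff.add {F G : (ι → ℝ) → ℝ} (hF : Aff F) (hG : Aff G) : Aff (fun x => F x + G x) := by
  intro x i
  obtain ⟨A, B, h1⟩ := hF x i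
  obtain ⟨A', B', h2⟩ := hG x i
  exact ⟨A + A', B + B', fun s => by simp only [h1, h2]; ring⟩

lemma Aff.smul {F : (ι → ℝ) → ℝ} (hF : Aff F) (c : ℝ) : Aff (fun x => c * F x) := by
  intro x i
  obtain ⟨A, B, h1⟩ := hF x i
  exact ⟨c * A, c * B, fun s => by simp only [h1]; ring⟩

lemma Aff.sum {κ : Type*} (s : Finset κ) {F : κ → (ι → ℝ) → ℝ} (hF : ∀ k ∈ s, Aff (F k)) :
    Aff (fun x => ∑ k ∈ s, F k x) := by
  classical
  induction s using Finset.induction_on with
  | empty => simpa using Aff.const (ι := ι) 0
  | insert a s ha ih =>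
    have h1 := (hF a (Finset.mem_insert_self _ _)).add
      (ih fun k hk => hF k (Finset.mem_insert_of_mem hk))
    have h2 : (fun x => ∑ k ∈ insert a s, F k x) = fun x => F a x + ∑ k ∈ s, F k x := by
      funext x
      rw [Finset.sum_insert ha]
    rw [h2]
    exact h1

lemma Aff.coord (j : ι) : Aff (fun x : ι → ℝ => x j) := by
  intro x i
  by_cases h : j = i
  · subst h
    exact ⟨0, 1, fun s => by simp⟩
  · exact ⟨x j, 0, fun s => by simp [Function.update_of_ne h]⟩

lemma Aff.coord_mul (j k : ι) : Aff (fun x : ι → ℝ => if j = k then x j else x j * x k) := by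
  intro x i
  by_cases hjk : j = k
  · simp only [if_pos hjk]
    exact Aff.coord j x i
  · simp only [if_neg hjk]
    by_cases h : j = i
    · subst h
      exact ⟨0, x k, fun s => by simp [Function.update_of_ne (Ne.symm hjk)]; ring⟩
    · by_cases h' : k = i
      · subst h'
        exact ⟨0, x j, fun s => by simp [Function.update_of_ne h]⟩
      · exact ⟨x j * x k, 0, fun s => by simp [Function.update_of_ne h, Function.update_of_ne h']⟩

/-- a separately affine function on the cube is at most its value at some vertex -/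
theorem Aff.exists_vertex {F : (ι → ℝ) → ℝ} (hF : Aff F) (s : Finset ι) : ∀ p : ι → ℝ,
    (∀ i, 0 ≤ p i ∧ p i ≤ 1) → ∃ q : ι → ℝ, (∀ i, 0 ≤ q i ∧ q i ≤ 1) ∧
      (∀ i ∈ s, q i = 0 ∨ q i = 1) ∧ (∀ i ∉ s, q i = p i) ∧ F p ≤ F q := by
  induction s using Finset.induction_on with
  | empty => exact fun p hp => ⟨p, hp, by simp, by simp, le_rfl⟩
  | insert a s ha ih =>
    intro p hp
    obtain ⟨q, h1, h2, h3, h4⟩ := ih p hp
    obtain ⟨A, B, h5⟩ := hF q a
    have h6 : F q = A + B * q a := by
      rw [← h5, Function.update_eq_self]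
    have h7 : ∃ t : ℝ, (t = 0 ∨ t = 1) ∧ F q ≤ F (Function.update q a t) := by
      rcases le_total B 0 with hB | hB
      · refine ⟨0, Or.inl rfl, ?_⟩
        rw [h5, h6]
        have := (h1 a).1
        nlinarith
      · refine ⟨1, Or.inr rfl, ?_⟩
        rw [h5, h6]
        have := (h1 a).2
        nlinarith
    obtain ⟨t, ht, ht2⟩ := h7
    refine ⟨Function.update q a t, ?_, ?_, ?_, h4.trans ht2⟩
    · intro i
      by_cases h : i = a
      · subst h
        rw [Function.update_self]
        rcases ht with rfl | rfl <;> norm_num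
      · rw [Function.update_of_ne h]
        exact h1 i
    · intro i hi
      by_cases h : i = a
      · subst h
        rw [Function.update_self]
        exact ht
      · rw [Function.update_of_ne h]
        exact h2 i (Finset.mem_of_mem_insert_of_ne hi h)
    · intro i hi
      rw [Finset.mem_insert, not_or] at hi
      rw [Function.update_of_ne hi.1]
      exact h3 i hi.2

end Aff

/-- The list lemma.  `S` is a finite set with weight `v`, `val` the values, `B` a finite family
of cells with thresholds `t`. -/
theorem exists_list {S Y B : Type*} [DecidableEq Y] (s : Finset S) (v : S → ℝ)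
    (hv : ∀ a ∈ s, 0 ≤ v a) (htot : ∑ a ∈ s, v a = 1) (val : S → Y) (ys : Finset Y)
    (hval : ∀ a ∈ s, val a ∈ ys) (bs : Finset B) (mem : S → B → Prop)
    [∀ a b, Decidable (mem a b)] (t : B → ℝ) (ht : ∀ b ∈ bs, 0 < t b) (k : ℝ) (hk : 0 < k)
    (δ : ℝ) (hδ : 0 < δ) (hys : ys.card * δ ≤ 1)
    (hbad : ∑ b ∈ bs, ((∑ a ∈ s, if mem a b then v a else 0) / k +
      (∑ a ∈ s, if mem a b then v a else 0) ^ 2) / t b ≤ 1 / 4) :
    ∃ (L : Finset Y) (u : S → ℝ), L ⊆ ys ∧ (∀ a ∈ s, 0 ≤ u a) ∧
      (∀ a ∈ s, u a ≠ 0 → val a ∈ L) ∧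
      (∀ a ∈ s, u a ≤ max 1 (1 / (k * δ)) * v a) ∧
      1 / 4 + (L.card : ℝ) / (4 * k) ≤ ∑ a ∈ s, (if ∀ b ∈ bs, mem a b →
        (∑ a' ∈ s, if mem a' b then u a' else 0) ≤ t b then u a else 0) := by
  classical
  -- masses
  let z : Y → ℝ := fun y => ∑ a ∈ s, if val a = y then v a else 0
  let m : B → Y → ℝ := fun b y => ∑ a ∈ s, if mem a b ∧ val a = y then v a else 0
  let p : Y → ℝ := fun y => min 1 (k * (z y + δ))
  have hz : ∀ y, 0 ≤ z y := fun y => Finset.sum_nonneg fun a ha => by
    split_ifs
    · exact hv a ha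
    · exact le_rfl
  have hm : ∀ b y, 0 ≤ m b y := fun b y => Finset.sum_nonneg fun a ha => by
    split_ifs
    · exact hv a ha
    · exact le_rfl
  have hmz : ∀ b y, m b y ≤ z y := fun b y => Finset.sum_le_sum fun a ha => by
    by_cases h1 : val a = y
    · by_cases h2 : mem a b
      · simp [h1, h2]
      · simp [h1, h2, hv a ha]
    · simp [h1]
  have hp0 : ∀ y, 0 < p y := fun y => lt_min one_pos (mul_pos hk (by have := hz y; linarith))
  have hp1 : ∀ y, p y ≤ 1 := fun y => min_le_left _ _
  -- sums over values
  have hsum : ∀ (g : S → ℝ) (c : Y → ℝ), ∑ a ∈ s, g a * c (val a) =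
      ∑ y ∈ ys, (∑ a ∈ s, if val a = y then g a else 0) * c y := by
    intro g c
    simp_rw [Finset.sum_mul]
    rw [Finset.sum_comm]
    refine Finset.sum_congr rfl fun a ha => ?_
    rw [Finset.sum_eq_single (val a)]
    · simp
    · intro y _ hne
      rw [if_neg (Ne.symm hne), zero_mul]
    · intro h
      exact absurd (hval a ha) h
  have hztot : ∑ y ∈ ys, z y = 1 := by
    have := hsum v (fun _ => 1)
    simp only [mul_one] at this
    rw [← htot, this]
  have hmtot : ∀ b, ∑ y ∈ ys, m b y = ∑ a ∈ s, if mem a b then v a else 0 := by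
    intro b
    have := hsum (fun a => if mem a b then v a else 0) (fun _ => 1)
    simp only [mul_one] at this
    rw [this]
    refine Finset.sum_congr rfl fun y _ => Finset.sum_congr rfl fun a _ => ?_
    by_cases h1 : val a = y <;> by_cases h2 : mem a b <;> simp [h1, h2]
  -- the score
  let F : (Y → ℝ) → ℝ := fun x => (∑ y ∈ ys, (z y / p y) * x y) +
    ((∑ b ∈ bs, (-(1 / t b)) * ∑ y ∈ ys, ∑ y' ∈ ys, (m b y * m b y' / (p y * p y')) *
      (if y = y' then x y else x y * x y')) + ∑ y ∈ ys, (-(1 / (4 * k))) * x y)
  have hF : Aff F := by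
    refine Aff.add (Aff.sum _ fun y _ => (Aff.coord y).smul _) (Aff.add ?_
      (Aff.sum _ fun y _ => (Aff.coord y).smul _))
    refine Aff.sum _ fun b _ => Aff.smul ?_ _
    exact Aff.sum _ fun y _ => Aff.sum _ fun y' _ => (Aff.coord_mul y y').smul _
  -- value at p
  have hFp : 1 / 4 ≤ F p := by
    have h1 : ∑ y ∈ ys, (z y / p y) * p y = 1 := by
      rw [← hztot]
      refine Finset.sum_congr rfl fun y _ => ?_
      exact div_mul_cancel₀ _ (hp0 y).ne'
    have h2 : ∑ y ∈ ys, (-(1 / (4 * k))) * p y ≥ -(1 / 2) := by
      rw [← Finset.mul_sum]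
      have h3 : ∑ y ∈ ys, p y ≤ 2 * k := by
        calc ∑ y ∈ ys, p y ≤ ∑ y ∈ ys, k * (z y + δ) :=
              Finset.sum_le_sum fun y _ => min_le_right _ _
          _ = k * (∑ y ∈ ys, z y + ys.card * δ) := by
              rw [← Finset.mul_sum, Finset.sum_add_distrib, Finset.sum_const, nsmul_eq_mul]
          _ ≤ k * (1 + 1) := by rw [hztot]; gcongr
          _ = 2 * k := by ring
      have h4 : (1 / (4 * k)) * ∑ y ∈ ys, p y ≤ (1 / (4 * k)) * (2 * k) := by gcongr
      have h5 : (1 / (4 * k)) * (2 * k) = 1 / 2 := by field_simp; norm_num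
      rw [h5] at h4
      linarith
    have h3 : ∑ b ∈ bs, (-(1 / t b)) * ∑ y ∈ ys, ∑ y' ∈ ys, (m b y * m b y' / (p y * p y')) *
      (if y = y' then p y else p y * p y') ≥ -(1 / 4) := by
      have h4 : ∀ b ∈ bs, (1 / t b) * ∑ y ∈ ys, ∑ y' ∈ ys, (m b y * m b y' / (p y * p y')) *
          (if y = y' then p y else p y * p y') ≤
          ((∑ a ∈ s, if mem a b then v a else 0) / k +
            (∑ a ∈ s, if mem a b then v a else 0) ^ 2) / t b := by
        intro b hb
        rw [one_div, div_eq_inv_mul]
        refine mul_le_mul_of_nonneg_left ?_ (inv_nonneg.2 (ht b hb).le)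
        have h5 : ∀ y ∈ ys, ∑ y' ∈ ys, (m b y * m b y' / (p y * p y')) *
            (if y = y' then p y else p y * p y') ≤ m b y / k + ∑ y' ∈ ys, m b y * m b y' := by
          intro y hy
          have h6 : ∀ y' ∈ ys, (m b y * m b y' / (p y * p y')) *
            (if y = y' then p y else p y * p y') ≤ (if y' = y then m b y / k else 0) +
              m b y * m b y' := by
            intro y' _
            by_cases hyy : y = y'
            · subst hyy
              rw [if_pos rfl, if_pos rfl]
              have e1 : (m b y * m b y / (p y * p y)) * p y = m b y * (m b y / p y) := by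
                have := (hp0 y).ne'
                field_simp
              rw [e1]
              have e2 : m b y / p y ≤ 1 / k + m b y := by
                rw [div_le_iff₀ (hp0 y)]
                rcases min_choice 1 (k * (z y + δ)) with hc | hc
                · have : p y = 1 := hc
                  rw [this]
                  have : 0 < 1 / k := by positivity
                  linarith
                · have : p y = k * (z y + δ) := hc
                  rw [this]
                  have e3 : (1 / k + m b y) * (k * (z y + δ)) =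
                      (z y + δ) + m b y * (k * (z y + δ)) := by field_simp
                  rw [e3]
                  have e4 : 0 ≤ m b y * (k * (z y + δ)) :=
                    mul_nonneg (hm b y) (mul_nonneg hk.le (by have := hz y; linarith))
                  have := hmz b y
                  linarith
              calc m b y * (m b y / p y) ≤ m b y * (1 / k + m b y) :=
                    mul_le_mul_of_nonneg_left e2 (hm b y)
                _ = m b y / k + m b y * m b y := by ring
            · rw [if_neg hyy, if_neg (Ne.symm hyy), zero_add]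
              have := (hp0 y).ne'
              have := (hp0 y').ne'
              apply le_of_eq
              field_simp
          refine (Finset.sum_le_sum h6).trans ?_
          rw [Finset.sum_add_distrib, Finset.sum_ite_eq' ys y, if_pos hy]
        refine (Finset.sum_le_sum h5).trans ?_
        rw [Finset.sum_add_distrib, ← Finset.sum_div, hmtot]
        gcongr
        simp_rw [← Finset.mul_sum]
        rw [← Finset.sum_mul, hmtot, sq]
      have h5 := (Finset.sum_le_sum h4).trans hbad
      have h6 : ∑ b ∈ bs, (-(1 / t b)) * ∑ y ∈ ys, ∑ y' ∈ ys, (m b y * m b y' / (p y * p y')) *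
        (if y = y' then p y else p y * p y') = - ∑ b ∈ bs, (1 / t b) *
        ∑ y ∈ ys, ∑ y' ∈ ys, (m b y * m b y' / (p y * p y')) *
          (if y = y' then p y else p y * p y') := by
        rw [← Finset.sum_neg_distrib]
        exact Finset.sum_congr rfl fun b _ => by ring
      rw [h6]
      linarith
    change 1 / 4 ≤ (∑ y ∈ ys, (z y / p y) * p y) + _
    linarith
  obtain ⟨q, hq1, hq2, _, hq4⟩ := hF.exists_vertex ys p fun y => ⟨(hp0 y).le, hp1 y⟩
  let L : Finset Y := ys.filter fun y => q y = 1
  let u : S → ℝ := fun a => v a * (q (val a) / p (val a))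
  have hu0 : ∀ a ∈ s, 0 ≤ u a := fun a ha =>
    mul_nonneg (hv a ha) (div_nonneg (hq1 _).1 (hp0 _).le)
  refine ⟨L, u, Finset.filter_subset _ _, hu0, ?_, ?_, ?_⟩
  · intro a ha hne
    refine Finset.mem_filter.2 ⟨hval a ha, ?_⟩
    rcases hq2 (val a) (hval a ha) with h | h
    · exfalso
      apply hne
      change v a * (q (val a) / p (val a)) = 0
      rw [h]; simp
    · exact h
  · intro a ha
    change v a * (q (val a) / p (val a)) ≤ _
    rw [mul_comm]
    refine mul_le_mul_of_nonneg_right ?_ (hv a ha)
    rw [div_le_iff₀ (hp0 _)]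
    refine (hq1 _).2.trans ?_
    rcases min_choice 1 (k * (z (val a) + δ)) with hc | hc
    · have : p (val a) = 1 := hc
      rw [this, mul_one]
      exact le_max_left _ _
    · have : p (val a) = k * (z (val a) + δ) := hc
      rw [this]
      have h1 : 1 ≤ 1 / (k * δ) * (k * (z (val a) + δ)) := by
        have h2 : 1 / (k * δ) * (k * (z (val a) + δ)) = (z (val a) + δ) / δ := by field_simp
        rw [h2, le_div_iff₀ hδ]
        have := hz (val a)
        linarith
      refine h1.trans ?_
      refine mul_le_mul_of_nonneg_right (le_max_right _ _) ?_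
      exact mul_nonneg hk.le (by have := hz (val a); linarith)
  · -- the main estimate
    have hU : ∀ b, ∑ a ∈ s, (if mem a b then u a else 0) = ∑ y ∈ ys, m b y * (q y / p y) := by
      intro b
      have h1 := hsum (fun a => if mem a b then v a else 0) (fun y => q y / p y)
      have h2 : ∑ a ∈ s, (if mem a b then u a else 0) =
          ∑ a ∈ s, (if mem a b then v a else 0) * (q (val a) / p (val a)) := by
        refine Finset.sum_congr rfl fun a _ => ?_
        split_ifs
        · rfl
        · rw [zero_mul]
      rw [h2, h1]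
      refine Finset.sum_congr rfl fun y _ => ?_
      congr 1
      refine Finset.sum_congr rfl fun a _ => ?_
      by_cases h1 : val a = y <;> by_cases h2 : mem a b <;> simp [h1, h2]
    have hUtot : ∑ a ∈ s, u a = ∑ y ∈ ys, (z y / p y) * q y := by
      have h1 := hsum v (fun y => q y / p y)
      change ∑ a ∈ s, v a * (q (val a) / p (val a)) = _
      rw [h1]
      refine Finset.sum_congr rfl fun y _ => ?_
      change z y * (q y / p y) = _
      ring
    have hcard : ∑ y ∈ ys, q y = L.card := by
      rw [Finset.card_filter, Nat.cast_sum]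
      refine Finset.sum_congr rfl fun y hy => ?_
      rcases hq2 y hy with h | h
      · rw [h]; norm_num
      · rw [h]; norm_num
    have hFq : F q = ∑ a ∈ s, u a - ∑ b ∈ bs, (∑ a ∈ s, if mem a b then u a else 0) ^ 2 / t b -
        L.card / (4 * k) := by
      change (∑ y ∈ ys, (z y / p y) * q y) +
        ((∑ b ∈ bs, (-(1 / t b)) * ∑ y ∈ ys, ∑ y' ∈ ys, (m b y * m b y' / (p y * p y')) *
        (if y = y' then q y else q y * q y')) + ∑ y ∈ ys, (-(1 / (4 * k))) * q y) = _
      rw [hUtot, ← Finset.mul_sum, hcard]
      have h1 : ∑ b ∈ bs, (-(1 / t b)) * ∑ y ∈ ys, ∑ y' ∈ ys, (m b y * m b y' / (p y * p y')) *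
        (if y = y' then q y else q y * q y') =
          - ∑ b ∈ bs, (∑ a ∈ s, if mem a b then u a else 0) ^ 2 / t b := by
        rw [← Finset.sum_neg_distrib]
        refine Finset.sum_congr rfl fun b _ => ?_
        have h2 : ∑ y ∈ ys, ∑ y' ∈ ys, (m b y * m b y' / (p y * p y')) *
          (if y = y' then q y else q y * q y') = (∑ a ∈ s, if mem a b then u a else 0) ^ 2 := by
          rw [hU, sq, Finset.sum_mul_sum]
          refine Finset.sum_congr rfl fun y hy => Finset.sum_congr rfl fun y' hy' => ?_
          by_cases hyy : y = y'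
          · subst hyy
            rw [if_pos rfl]
            rcases hq2 y hy with h | h
            · rw [h]; simp
            · rw [h]; ring
          · rw [if_neg hyy]; ring
        rw [h2]
        ring
      rw [h1]
      ring
    have hge : 1 / 4 + (L.card : ℝ) / (4 * k) ≤ ∑ a ∈ s, u a -
        ∑ b ∈ bs, (∑ a ∈ s, if mem a b then u a else 0) ^ 2 / t b := by
      have := hFp.trans hq4
      rw [hFq] at this
      linarith
    refine hge.trans ?_
    rw [sub_le_iff_le_add]
    have hpt : ∀ a ∈ s, u a ≤ (if ∀ b ∈ bs, mem a b →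
        (∑ a' ∈ s, if mem a' b then u a' else 0) ≤ t b then u a else 0) +
        ∑ b ∈ bs, (if mem a b ∧ t b < (∑ a' ∈ s, if mem a' b then u a' else 0)
          then u a else 0) := by
      intro a ha
      by_cases hg : ∀ b ∈ bs, mem a b → (∑ a' ∈ s, if mem a' b then u a' else 0) ≤ t b
      · rw [if_pos hg]
        have : 0 ≤ ∑ b ∈ bs, (if mem a b ∧ t b < (∑ a' ∈ s, if mem a' b then u a' else 0)
          then u a else 0) := Finset.sum_nonneg fun b _ => by
            split_ifs
            · exact hu0 a ha
            · exact le_rfl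
        linarith
      · rw [if_neg hg, zero_add]
        push Not at hg
        obtain ⟨b, hb, h1, h2⟩ := hg
        refine le_trans (le_of_eq ?_) (Finset.single_le_sum (f := fun b =>
          (if mem a b ∧ t b < (∑ a' ∈ s, if mem a' b then u a' else 0) then u a else 0))
          (fun b _ => ?_) hb)
        · rw [if_pos ⟨h1, h2⟩]
        · split_ifs
          · exact hu0 a ha
          · exact le_rfl
    refine (Finset.sum_le_sum hpt).trans ?_
    rw [Finset.sum_add_distrib, Finset.sum_comm (s := s) (t := bs)]
    refine add_le_add le_rfl (Finset.sum_le_sum fun b hb => ?_)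
    have hUb : 0 ≤ ∑ a' ∈ s, (if mem a' b then u a' else 0) := Finset.sum_nonneg fun a ha => by
      split_ifs
      · exact hu0 a ha
      · exact le_rfl
    by_cases hlt : t b < ∑ a' ∈ s, (if mem a' b then u a' else 0)
    · have : ∑ a ∈ s, (if mem a b ∧ t b < (∑ a' ∈ s, if mem a' b then u a' else 0)
          then u a else 0) = ∑ a ∈ s, (if mem a b then u a else 0) := by
        refine Finset.sum_congr rfl fun a _ => ?_
        by_cases h : mem a b <;> simp [h, hlt]
      rw [this, le_div_iff₀ (ht b hb), sq]
      exact mul_le_mul_of_nonneg_left hlt.le hUb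
    · have : ∑ a ∈ s, (if mem a b ∧ t b < (∑ a' ∈ s, if mem a' b then u a' else 0)
          then u a else 0) = 0 := by
        refine Finset.sum_eq_zero fun a _ => ?_
        rw [if_neg]
        exact fun h => hlt h.2
      rw [this]
      exact div_nonneg (sq_nonneg _) (ht b hb).le

end Pool.Agent.Helper747.BL
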