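import Mathlib
import Pool.Agent.Helper747.BLD
import Pool.Agent.Helper747.BLE

set_option autoImplicit false
open Set Topology
open scoped ENNReal NNReal

namespace Pool.Agent.Helper747.BL

variable {r : ℝ≥0}

/-- all strings of length `n` -/
def strs (n : ℕ) : Finset Str := (Finset.univ : Finset (Fin n → Bool)).image List.ofFn

lemma mem_strs {n : ℕ} {u : Str} : u ∈ strs n ↔ u.length = n := by
  unfold strs
  simp only [Finset.mem_image, Finset.mem_univ, true_and]
  constructor
  · rintro ⟨a, rfl⟩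
    simp
  · rintro rfl
    exact ⟨fun i => u[i], List.ofFn_getElem⟩

lemma card_strs (n : ℕ) : (strs n).card = 2 ^ n := by
  unfold strs
  rw [Finset.card_image_of_injective _ List.ofFn_injective]
  simp

lemma mass_smul (c : ℝ≥0) (ν : Str →₀ ℝ≥0) (β : Str) : mass (c • ν) β = c * mass ν β := by
  unfold mass
  rw [Finsupp.sum_smul_index']
  · unfold Finsupp.sum
    rw [Finset.mul_sum]
    refine Finset.sum_congr rfl fun τ _ => ?_
    by_cases h : β <+: τ <;> simp [h]
  · intro i; split_ifs <;> rfl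

lemma mass_zero_of (ν : Str →₀ ℝ≥0) {σ β : Str} (h : ∀ τ ∈ ν.support, σ <+: τ)
    (hβ : ∀ τ, σ <+: τ → ¬ β <+: τ) : mass ν β = 0 :=
  mass_eq_zero fun τ hτ => hβ τ (h τ hτ)

/-- balanced flows -/
theorem exists_balanced (hr : r ≠ 0) {T : Set Str} (hT : Hits r T) (n : ℕ) : ∀ σ : Str,
    ∃ ν : Str →₀ ℝ≥0, (∀ τ ∈ ν.support, τ ∈ T ∧ σ <+: τ) ∧
      (∀ τ ∈ ν.support, ∀ τ' ∈ ν.support, τ <+: τ' → τ = τ') ∧
      (∀ v : Str, v.length ≤ n → mass ν (σ ++ v) = (1 / 2) ^ v.length) ∧
      (∀ v : Str, n ≤ v.length → mass ν (σ ++ v) * (2 * r) ^ n ≤ 2 * r ^ v.length) := by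
  induction n with
  | zero =>
    intro σ
    obtain ⟨ν, hν⟩ := exists_flow hr hT σ
    have hsub : ∀ τ ∈ ((2 / r ^ σ.length) • ν).support, τ ∈ ν.support := fun τ hτ =>
      Finsupp.support_smul hτ
    have hpow : r ^ σ.length ≠ 0 := pow_ne_zero _ hr
    have hone : mass ((2 / r ^ σ.length) • ν) σ = 1 := by
      rw [mass_smul, hν.total]
      field_simp
    refine ⟨(2 / r ^ σ.length) • ν, ?_, ?_, ?_, ?_⟩
    · exact fun τ hτ => hν.supp τ (hsub τ hτ)
    · exact fun τ hτ τ' hτ' hp => hν.anti τ (hsub τ hτ) τ' (hsub τ' hτ') hp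
    · intro v hv
      have : v = [] := List.length_eq_zero_iff.1 (by omega)
      subst this
      simpa using hone
    · intro v _
      rw [mass_smul, pow_zero, mul_one]
      have h1 := hν.bound (σ ++ v) (List.prefix_append _ _)
      unfold w at h1
      have h2 : mass ν (σ ++ v) ≤ r ^ (σ ++ v).length := by exact_mod_cast h1
      rw [List.length_append, pow_add] at h2
      calc 2 / r ^ σ.length * mass ν (σ ++ v)
          ≤ 2 / r ^ σ.length * (r ^ σ.length * r ^ v.length) := by gcongr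
        _ = 2 * r ^ v.length := by field_simp
  | succ n ih =>
    intro σ
    obtain ⟨ν0, h1, h2, h3, h4⟩ := ih (σ ++ [false])
    obtain ⟨ν1, k1, k2, k3, k4⟩ := ih (σ ++ [true])
    have hsub : ∀ τ ∈ ((1 / 2 : ℝ≥0) • ν0 + (1 / 2 : ℝ≥0) • ν1).support,
        τ ∈ ν0.support ∨ τ ∈ ν1.support := by
      intro τ hτ
      rcases Finset.mem_union.1 (Finsupp.support_add hτ) with h | h
      · exact Or.inl (Finsupp.support_smul h)
      · exact Or.inr (Finsupp.support_smul h)
    have hf : ∀ v : Str, mass ((1 / 2 : ℝ≥0) • ν0 + (1 / 2 : ℝ≥0) • ν1) (σ ++ false :: v) =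
        1 / 2 * mass ν0 (σ ++ [false] ++ v) := by
      intro v
      rw [mass_add, mass_smul, mass_smul]
      rw [mass_eq_zero (ν := ν1), mul_zero, add_zero]
      · simp
      · intro τ hτ hp
        refine not_both (σ := σ) (τ := τ) ?_ (k1 τ hτ).2
        exact List.IsPrefix.trans ⟨v, by simp⟩ hp
    have ht : ∀ v : Str, mass ((1 / 2 : ℝ≥0) • ν0 + (1 / 2 : ℝ≥0) • ν1) (σ ++ true :: v) =
        1 / 2 * mass ν1 (σ ++ [true] ++ v) := by
      intro v
      rw [mass_add, mass_smul, mass_smul]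
      rw [mass_eq_zero (ν := ν0), mul_zero, zero_add]
      · simp
      · intro τ hτ hp
        refine not_both (σ := σ) (τ := τ) (h1 τ hτ).2 ?_
        exact List.IsPrefix.trans ⟨v, by simp⟩ hp
    refine ⟨(1 / 2 : ℝ≥0) • ν0 + (1 / 2 : ℝ≥0) • ν1, ?_, ?_, ?_, ?_⟩
    · intro τ hτ
      rcases hsub τ hτ with h | h
      · exact ⟨(h1 τ h).1, (List.prefix_append _ _).trans (h1 τ h).2⟩
      · exact ⟨(k1 τ h).1, (List.prefix_append _ _).trans (k1 τ h).2⟩
    · intro τ hτ τ' hτ' hp
      rcases hsub τ hτ with h | h <;> rcases hsub τ' hτ' with h' | h'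
      · exact h2 τ h τ' h' hp
      · exact absurd (not_both ((h1 τ h).2.trans hp) (k1 τ' h').2) id
      · exact absurd (not_both (h1 τ' h').2 ((k1 τ h).2.trans hp)) id
      · exact k2 τ h τ' h' hp
    · intro v hv
      match v with
      | [] =>
        have e : mass ((1 / 2 : ℝ≥0) • ν0 + (1 / 2 : ℝ≥0) • ν1) (σ ++ []) =
            1 / 2 * mass ν0 (σ ++ [false] ++ []) + 1 / 2 * mass ν1 (σ ++ [true] ++ []) := by
          rw [mass_add, mass_smul, mass_smul]
          congr 2
          · refine mass_congr fun τ hτ => ?_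
            have := (h1 τ hτ).2
            simp only [List.append_nil]
            exact ⟨fun _ => this, fun _ => (List.prefix_append _ _).trans this⟩
          · refine mass_congr fun τ hτ => ?_
            have := (k1 τ hτ).2
            simp only [List.append_nil]
            exact ⟨fun _ => this, fun _ => (List.prefix_append _ _).trans this⟩
        rw [e, h3 [] (by simp), k3 [] (by simp)]
        simp only [List.length_nil, pow_zero, mul_one]
        exact add_halves 1
      | false :: v =>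
        rw [hf, h3 v (by simpa using hv), List.length_cons, pow_succ]
        ring
      | true :: v =>
        rw [ht, k3 v (by simpa using hv), List.length_cons, pow_succ]
        ring
    · intro v hv
      match v with
      | [] => simp at hv
      | false :: v =>
        rw [hf, List.length_cons, pow_succ, pow_succ]
        have := h4 v (by simpa using hv)
        calc 1 / 2 * mass ν0 (σ ++ [false] ++ v) * ((2 * r) ^ n * (2 * r))
            = (mass ν0 (σ ++ [false] ++ v) * (2 * r) ^ n) * (1 / 2 * (2 * r)) := by ring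
          _ ≤ (2 * r ^ v.length) * (1 / 2 * (2 * r)) := by gcongr
          _ = 2 * (r ^ v.length * r) := by field_simp
      | true :: v =>
        rw [ht, List.length_cons, pow_succ, pow_succ]
        have := k4 v (by simpa using hv)
        calc 1 / 2 * mass ν1 (σ ++ [true] ++ v) * ((2 * r) ^ n * (2 * r))
            = (mass ν1 (σ ++ [true] ++ v) * (2 * r) ^ n) * (1 / 2 * (2 * r)) := by ring
          _ ≤ (2 * r ^ v.length) * (1 / 2 * (2 * r)) := by gcongr
          _ = 2 * (r ^ v.length * r) := by field_simp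

lemma sum_mass (ν : Str →₀ ℝ≥0) (β : Str) :
    (∑ a ∈ ν.support, if β <+: a then (ν a : ℝ) else 0) = (mass ν β : ℝ) := by
  unfold mass Finsupp.sum
  rw [NNReal.coe_sum]
  refine Finset.sum_congr rfl fun a _ => ?_
  by_cases h : β <+: a <;> simp [h]

/-- weights on stems with values in a short list -/
theorem exists_weights (hr : 1 / 2 < r) (hr1 : r ≤ 1) {T : Set Str} (hT : Hits r T) (n : ℕ)
    (σ : Str) (val : Str → Str) (hval : ∀ τ ∈ T, (val τ).length = n) :
    ∃ (L : Finset Str) (s : Finset Str) (g : Str → ℝ), (∀ y ∈ L, y.length = n) ∧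
      (L.card : ℝ) * (r : ℝ) ^ n ≤ 32 * (n + 1) ∧ (∀ a ∈ s, a ∈ T ∧ σ <+: a) ∧
      (∀ a ∈ s, ∀ b ∈ s, a <+: b → a = b) ∧ (∀ a ∈ s, 0 ≤ g a) ∧
      (∀ a ∈ s, g a ≠ 0 → val a ∈ L) ∧ 1 / 4 ≤ ∑ a ∈ s, g a ∧
      (∀ v : Str, (∑ a ∈ s, if σ ++ v <+: a then g a else 0) ≤
        8 * (n + 1) * (r : ℝ) ^ v.length) := by
  classical
  have hr0 : r ≠ 0 := by rintro rfl; simp at hr
  obtain ⟨ν, h1, h2, h3, h4⟩ := exists_balanced hr0 hT n σ
  have hrpos : (0 : ℝ) < r := by
    have := pos_iff_ne_zero.2 hr0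
    exact_mod_cast this
  have hr1' : (r : ℝ) ≤ 1 := by exact_mod_cast hr1
  have hr2 : (1 / 2 : ℝ) < r := by exact_mod_cast hr
  have hk : (0 : ℝ) < 1 / (r : ℝ) ^ n := by positivity
  have hn : (0 : ℝ) ≤ n := Nat.cast_nonneg n
  have htot : ∑ a ∈ ν.support, (ν a : ℝ) = 1 := by
    have e1 := sum_mass ν σ
    have e2 := h3 [] (by simp)
    simp only [List.append_nil, List.length_nil, pow_zero] at e2
    rw [e2] at e1
    rw [← NNReal.coe_one, ← e1]
    refine Finset.sum_congr rfl fun a ha => ?_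
    rw [if_pos (h1 a ha).2]
  have hm1 : ∀ v : Str, v.length ≤ n →
      (∑ a ∈ ν.support, if σ ++ v <+: a then (ν a : ℝ) else 0) = (1 / 2) ^ v.length := by
    intro v hv
    rw [sum_mass, h3 v hv]
    push_cast
    rfl
  have hbad : ∑ b ∈ (Finset.range (n + 1)).biUnion strs,
      ((∑ a ∈ ν.support, if σ ++ b <+: a then (ν a : ℝ) else 0) / (1 / (r : ℝ) ^ n) +
      (∑ a ∈ ν.support, if σ ++ b <+: a then (ν a : ℝ) else 0) ^ 2) /
        (8 * (n + 1) * (r : ℝ) ^ b.length) ≤ 1 / 4 := by
    rw [Finset.sum_biUnion]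
    · have hlev : ∀ i ∈ Finset.range (n + 1), ∑ b ∈ strs i,
          ((∑ a ∈ ν.support, if σ ++ b <+: a then (ν a : ℝ) else 0) / (1 / (r : ℝ) ^ n) +
          (∑ a ∈ ν.support, if σ ++ b <+: a then (ν a : ℝ) else 0) ^ 2) /
            (8 * (n + 1) * (r : ℝ) ^ b.length) ≤ 2 / (8 * ((n : ℝ) + 1)) := by
        intro i hi
        have hi' : i ≤ n := by
          have := Finset.mem_range.1 hi
          omega
        have e1 : ∀ b ∈ strs i,
          ((∑ a ∈ ν.support, if σ ++ b <+: a then (ν a : ℝ) else 0) / (1 / (r : ℝ) ^ n) +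
          (∑ a ∈ ν.support, if σ ++ b <+: a then (ν a : ℝ) else 0) ^ 2) /
            (8 * (n + 1) * (r : ℝ) ^ b.length) =
          ((1 / 2 : ℝ) ^ i / (1 / (r : ℝ) ^ n) + ((1 / 2 : ℝ) ^ i) ^ 2) /
            (8 * (n + 1) * (r : ℝ) ^ i) := by
          intro b hb
          rw [mem_strs] at hb
          rw [hm1 b (by omega), hb]
        rw [Finset.sum_congr rfl e1, Finset.sum_const, card_strs, nsmul_eq_mul]
        push_cast
        have e2 : (2 : ℝ) ^ i * (1 / 2) ^ i = 1 := by
          rw [← mul_pow]; norm_num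
        have e3 : (2 : ℝ) ^ i * (((1 / 2 : ℝ) ^ i / (1 / (r : ℝ) ^ n) + ((1 / 2 : ℝ) ^ i) ^ 2) /
            (8 * (n + 1) * (r : ℝ) ^ i)) =
            ((2 : ℝ) ^ i * (1 / 2) ^ i) * ((r : ℝ) ^ n + (1 / 2 : ℝ) ^ i) /
              (8 * (n + 1) * (r : ℝ) ^ i) := by
          rw [div_div_eq_mul_div, div_one]
          ring
        rw [e3, e2, one_mul, div_le_div_iff₀ (by positivity) (by positivity)]
        have e4 : (r : ℝ) ^ n ≤ (r : ℝ) ^ i := pow_le_pow_of_le_one hrpos.le hr1' hi'
        have e5 : (1 / 2 : ℝ) ^ i ≤ (r : ℝ) ^ i := by gcongr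
        have e6 : (0 : ℝ) < 8 * (n + 1) := by positivity
        nlinarith
      refine (Finset.sum_le_sum hlev).trans ?_
      rw [Finset.sum_const, Finset.card_range, nsmul_eq_mul]
      push_cast
      apply le_of_eq
      field_simp
      norm_num
    · intro i _ j _ hij
      rw [Function.onFun, Finset.disjoint_left]
      intro u hu hu'
      rw [mem_strs] at hu hu'
      exact hij (hu.symm.trans hu')
  obtain ⟨L, u, hL1, hu0, hu1, hu2, hgood⟩ := exists_list ν.support (fun a => (ν a : ℝ))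
    (fun a _ => (ν a).2) htot val (strs n) (fun a ha => mem_strs.2 (hval a (h1 a ha).1))
    ((Finset.range (n + 1)).biUnion strs) (fun a b => σ ++ b <+: a)
    (fun b => 8 * (n + 1) * (r : ℝ) ^ b.length) (fun b _ => by positivity)
    (1 / (r : ℝ) ^ n) hk ((1 / 2) ^ n) (by positivity)
    (by rw [card_strs]; push_cast; rw [← mul_pow]; norm_num) hbad
  let g : Str → ℝ := fun a => if ∀ b ∈ (Finset.range (n + 1)).biUnion strs, σ ++ b <+: a →
    (∑ a' ∈ ν.support, if σ ++ b <+: a' then u a' else 0) ≤ 8 * (n + 1) * (r : ℝ) ^ b.length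
    then u a else 0
  have hgood' : 1 / 4 + (L.card : ℝ) / (4 * (1 / (r : ℝ) ^ n)) ≤ ∑ a ∈ ν.support, g a := hgood
  have hg0 : ∀ a ∈ ν.support, 0 ≤ g a := by
    intro a ha
    simp only [g]
    split_ifs
    · exact hu0 a ha
    · exact le_rfl
  have hgu : ∀ a ∈ ν.support, g a ≤ u a := by
    intro a ha
    simp only [g]
    split_ifs
    · exact le_rfl
    · exact hu0 a ha
  have hcell : ∀ v : Str, (∑ a ∈ ν.support, if σ ++ v <+: a then g a else 0) ≤
        8 * (n + 1) * (r : ℝ) ^ v.length := by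
    intro v
    have hGU : (∑ a ∈ ν.support, if σ ++ v <+: a then g a else 0) ≤
        ∑ a ∈ ν.support, if σ ++ v <+: a then u a else 0 := by
      refine Finset.sum_le_sum fun a ha => ?_
      split_ifs
      · exact hgu a ha
      · exact le_rfl
    rcases le_total v.length n with hv | hv
    · have hvb : v ∈ (Finset.range (n + 1)).biUnion strs := by
        rw [Finset.mem_biUnion]
        exact ⟨v.length, Finset.mem_range.2 (by omega), mem_strs.2 rfl⟩
      by_cases hU : (∑ a' ∈ ν.support, if σ ++ v <+: a' then u a' else 0) ≤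
          8 * (n + 1) * (r : ℝ) ^ v.length
      · exact hGU.trans hU
      · have : (∑ a ∈ ν.support, if σ ++ v <+: a then g a else 0) = 0 := by
          refine Finset.sum_eq_zero fun a ha => ?_
          split_ifs with hp
          · exact if_neg fun h => hU (h v hvb hp)
          · rfl
        rw [this]
        positivity
    · refine hGU.trans ?_
      have e1 : (∑ a ∈ ν.support, if σ ++ v <+: a then u a else 0) ≤
          (2 * (r : ℝ)) ^ n * ∑ a ∈ ν.support, if σ ++ v <+: a then (ν a : ℝ) else 0 := by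
        rw [Finset.mul_sum]
        refine Finset.sum_le_sum fun a ha => ?_
        split_ifs
        · refine (hu2 a ha).trans ?_
          have e2 : (1 : ℝ) ≤ (2 * (r : ℝ)) ^ n := one_le_pow₀ (by linarith)
          have e3 : (1 : ℝ) / (1 / (r : ℝ) ^ n * (1 / 2) ^ n) = (2 * (r : ℝ)) ^ n := by
            rw [mul_pow]
            field_simp
            simp
          rw [e3, max_eq_right e2]
        · simp
      refine e1.trans ?_
      rw [sum_mass]
      have e4 := h4 v hv
      have e5 : (mass ν (σ ++ v) : ℝ) * (2 * (r : ℝ)) ^ n ≤ 2 * (r : ℝ) ^ v.length := by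
        exact_mod_cast e4
      rw [mul_comm]
      refine e5.trans ?_
      have e6 : (2 : ℝ) ≤ 8 * (n + 1) := by linarith
      gcongr
  have htot2 : ∑ a ∈ ν.support, g a ≤ 8 * (n + 1) := by
    have := hcell []
    simp only [List.append_nil, List.length_nil, pow_zero, mul_one] at this
    refine le_trans (le_of_eq ?_) this
    refine Finset.sum_congr rfl fun a ha => ?_
    rw [if_pos (h1 a ha).2]
  refine ⟨L, ν.support, g, fun y hy => mem_strs.1 (hL1 hy), ?_, h1, h2, hg0, ?_, ?_, hcell⟩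
  · have e1 : (L.card : ℝ) / (4 * (1 / (r : ℝ) ^ n)) ≤ 8 * (n + 1) := by linarith
    rw [div_le_iff₀ (by positivity)] at e1
    have e2 : (8 : ℝ) * (n + 1) * (4 * (1 / (r : ℝ) ^ n)) * (r : ℝ) ^ n = 32 * (n + 1) := by
      field_simp
      norm_num
    rw [← e2]
    gcongr
  · intro a ha hne
    refine hu1 a ha fun h0 => hne ?_
    simp only [g]
    rw [h0]
    simp
  · have : 0 ≤ (L.card : ℝ) / (4 * (1 / (r : ℝ) ^ n)) := by positivity
    linarith

end Pool.Agent.Helper747.BL
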