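import Mathlib
import Pool.Agent.Helper747.BLF

set_option autoImplicit false
open Set Topology
open scoped ENNReal NNReal

namespace Pool.Agent.Helper747.BL

variable {r : ℝ≥0}

/-- short list of values which cannot be avoided by small conditions with stem `σ` -/
theorem exists_short_list (hr : 1 / 2 < r) (hr1 : r ≤ 1) {f : X → X} (hf : Measurable f) (n : ℕ)
    (σ : Str) : ∃ L : Finset Str, (∀ y ∈ L, y.length = n) ∧
      (L.card : ℝ) * (r : ℝ) ^ n ≤ 32 * (n + 1) ∧
      ∀ C, Cond r σ C → ((80 * (n + 1) : ℕ) : ℝ≥0∞) * Wt r σ C ≤ w r σ →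
        ∃ τ D, Cond r τ D ∧ K τ D ⊆ K σ C ∧ Meag r (K τ D \ {x | pre (f x) n ∈ L}) := by
  classical
  have hr0 : r ≠ 0 := by rintro rfl; simp at hr
  let T : Set Str := {τ | ∃ y : Str, y.length = n ∧ Stem r f n y τ}
  have hT : Hits r T := hits_stem hr hf n
  have hex : ∀ τ : Str, ∃ y : Str, τ ∈ T → (y.length = n ∧ Stem r f n y τ) := by
    intro τ
    by_cases h : τ ∈ T
    · obtain ⟨y, hy⟩ := h
      exact ⟨y, fun _ => hy⟩
    · exact ⟨[], fun h' => absurd h' h⟩
  choose val hval using hex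
  obtain ⟨L, s, g, hL, hcard, hsT, hanti, hg0, hgL, htot, hcell⟩ :=
    exists_weights hr hr1 hT n σ val (fun τ h => (hval τ h).1)
  refine ⟨L, hL, hcard, fun C hC hsmall => ?_⟩
  -- weights in the extended reals
  let G : Str → ℝ≥0∞ := fun a => ENNReal.ofReal (g a)
  have hcell' : ∀ β, σ <+: β → w r σ * (∑ a ∈ s, if β <+: a then G a else 0) ≤
      ((8 * (n + 1) : ℕ) : ℝ≥0∞) * w r β := by
    rintro β ⟨v, rfl⟩
    have h1 : (∑ a ∈ s, if σ ++ v <+: a then G a else 0) =
        ENNReal.ofReal (∑ a ∈ s, if σ ++ v <+: a then g a else 0) := by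
      rw [ENNReal.ofReal_sum_of_nonneg]
      · refine Finset.sum_congr rfl fun a _ => ?_
        split_ifs
        · rfl
        · simp
      · intro a ha
        split_ifs
        · exact hg0 a ha
        · exact le_rfl
    have h2 : ENNReal.ofReal (8 * (n + 1) * (r : ℝ) ^ v.length) =
        ((8 * (n + 1) : ℕ) : ℝ≥0∞) * (r : ℝ≥0∞) ^ v.length := by
      rw [ENNReal.ofReal_mul (by positivity), ENNReal.ofReal_pow (NNReal.coe_nonneg r), ENNReal.ofReal_coe_nnreal]
      congr 1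
      have : (8 * ((n : ℝ) + 1)) = ((8 * (n + 1) : ℕ) : ℝ) := by push_cast; ring
      rw [this, ENNReal.ofReal_natCast]
    have h3 := ENNReal.ofReal_le_ofReal (hcell v)
    rw [← h1, h2] at h3
    calc w r σ * (∑ a ∈ s, if σ ++ v <+: a then G a else 0)
        ≤ w r σ * (((8 * (n + 1) : ℕ) : ℝ≥0∞) * (r : ℝ≥0∞) ^ v.length) := by gcongr
      _ = ((8 * (n + 1) : ℕ) : ℝ≥0∞) * w r (σ ++ v) := by
        unfold w
        rw [List.length_append, pow_add]
        ring
  by_contra hcon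
  -- every stem of positive weight is covered or heavy
  have hall : ∀ a ∈ s, G a ≠ 0 → (∃ γ ∈ C, γ <+: a) ∨ 3 * w r a ≤ 4 * Wt r a C := by
    intro a ha hGa
    by_contra hnot
    push Not at hnot
    obtain ⟨h1, h2⟩ := hnot
    apply hcon
    obtain ⟨h3, D, h4, h5, h6⟩ := hval a (hsT a ha).1
    refine ⟨a, C ∪ D, ⟨?_, ?_⟩, K_mono (hsT a ha).2 Set.subset_union_left, ?_⟩
    · have h7 : (4 : ℝ≥0∞) * Wt r a (C ∪ D) < 4 * w r a := by
        calc (4 : ℝ≥0∞) * Wt r a (C ∪ D) ≤ 4 * (Wt r a C + Wt r a D) := by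
              gcongr; exact Wt_union _ _ _
          _ = 4 * Wt r a C + 4 * Wt r a D := by ring
          _ ≤ 4 * Wt r a C + w r a := by gcongr
          _ < 3 * w r a + w r a := ENNReal.add_lt_add_right (w_ne_top a) h2
          _ = 4 * w r a := by ring
      exact (ENNReal.mul_lt_mul_iff_right (by norm_num) (by norm_num)).1 h7
    · rintro γ (hγ | hγ)
      · exact h1 γ hγ
      · exact h4 γ hγ
    · refine h6.mono ?_
      rintro x ⟨hx1, hx2⟩
      refine ⟨K_mono (List.prefix_refl _) Set.subset_union_right hx1, fun hx3 => hx2 ?_⟩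
      have hx4 : pre (f x) n = val a := hx3
      change pre (f x) n ∈ L
      rw [hx4]
      refine hgL a ha fun h0 => hGa ?_
      simp only [G]
      rw [h0]
      simp
  -- covered mass
  have hcov : w r σ * (∑ a ∈ s, if (∃ γ ∈ C, γ <+: a) then G a else 0) ≤
      ((8 * (n + 1) : ℕ) : ℝ≥0∞) * Wt r σ C := by
    have h1 : ∀ a ∈ s, (if (∃ γ ∈ C, γ <+: a) then G a else 0) ≤
        ∑' γ, (if γ ∈ C ∧ σ <+: γ then (if γ <+: a then G a else 0) else 0) := by
      intro a ha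
      split_ifs with h
      · obtain ⟨γ, hγ, hp⟩ := h
        have hσγ : σ <+: γ := by
          rcases le_total σ.length γ.length with hl | hl
          · exact List.prefix_of_prefix_length_le (hsT a ha).2 hp hl
          · exact absurd (List.prefix_of_prefix_length_le hp (hsT a ha).2 hl) (hC.2 γ hγ)
        refine le_trans (le_of_eq ?_) (ENNReal.le_tsum γ)
        rw [if_pos ⟨hγ, hσγ⟩, if_pos hp]
      · exact zero_le
    calc w r σ * (∑ a ∈ s, if (∃ γ ∈ C, γ <+: a) then G a else 0)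
        ≤ w r σ * ∑ a ∈ s, ∑' γ, (if γ ∈ C ∧ σ <+: γ then (if γ <+: a then G a else 0) else 0) := by
          gcongr with a ha
          exact h1 a ha
      _ = w r σ * ∑' γ, ∑ a ∈ s, (if γ ∈ C ∧ σ <+: γ then (if γ <+: a then G a else 0) else 0) := by
          congr 1
          exact (Summable.tsum_finsetSum fun _ _ => ENNReal.summable).symm
      _ = ∑' γ, w r σ * ∑ a ∈ s, (if γ ∈ C ∧ σ <+: γ then (if γ <+: a then G a else 0) else 0) :=
          ENNReal.tsum_mul_left.symm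
      _ ≤ ∑' γ, ((8 * (n + 1) : ℕ) : ℝ≥0∞) *
            ({γ | γ ∈ C ∧ σ <+: γ} : Set Str).indicator (w r) γ := by
          refine ENNReal.tsum_le_tsum fun γ => ?_
          by_cases h : γ ∈ C ∧ σ <+: γ
          · rw [Set.indicator_of_mem (show γ ∈ ({γ | γ ∈ C ∧ σ <+: γ} : Set Str) from h)]
            simp only [if_pos h]
            exact hcell' γ h.2
          · simp only [if_neg h]
            simp
      _ = ((8 * (n + 1) : ℕ) : ℝ≥0∞) * Wt r σ C := ENNReal.tsum_mul_left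
  -- heavy mass
  have hheavy : 3 * (w r σ * (∑ a ∈ s, if 3 * w r a ≤ 4 * Wt r a C then G a else 0)) ≤
      ((8 * (n + 1) : ℕ) : ℝ≥0∞) * (4 * Wt r σ C) := by
    have h1 : ∀ a ∈ s, 3 * (w r σ * (if 3 * w r a ≤ 4 * Wt r a C then G a else 0)) ≤
        ((8 * (n + 1) : ℕ) : ℝ≥0∞) * (4 * Wt r a C) := by
      intro a ha
      split_ifs with h
      · have h2 : w r σ * G a ≤ ((8 * (n + 1) : ℕ) : ℝ≥0∞) * w r a := by
          refine le_trans ?_ (hcell' a (hsT a ha).2)
          gcongr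
          refine le_trans (le_of_eq ?_) (Finset.single_le_sum (f := fun b =>
            if a <+: b then G b else 0) (fun _ _ => zero_le) ha)
          simp
        calc 3 * (w r σ * G a) ≤ 3 * (((8 * (n + 1) : ℕ) : ℝ≥0∞) * w r a) := by gcongr
          _ = ((8 * (n + 1) : ℕ) : ℝ≥0∞) * (3 * w r a) := by ring
          _ ≤ _ := by gcongr
      · simp
    calc 3 * (w r σ * (∑ a ∈ s, if 3 * w r a ≤ 4 * Wt r a C then G a else 0))
        = ∑ a ∈ s, 3 * (w r σ * (if 3 * w r a ≤ 4 * Wt r a C then G a else 0)) := by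
          rw [Finset.mul_sum, Finset.mul_sum]
      _ ≤ ∑ a ∈ s, ((8 * (n + 1) : ℕ) : ℝ≥0∞) * (4 * Wt r a C) := Finset.sum_le_sum h1
      _ = ((8 * (n + 1) : ℕ) : ℝ≥0∞) * (4 * ∑ a ∈ s, Wt r a C) := by
          rw [Finset.mul_sum, Finset.mul_sum]
      _ ≤ _ := by
          gcongr
          have h2 := antichain_sum (r := r) (τ := σ) (M := (s : Set Str)) C
            (fun γ hγ => (hsT γ hγ).2) (fun γ hγ δ hδ => hanti γ hγ δ hδ)
          refine le_trans ?_ h2
          refine le_trans (le_of_eq ?_) (ENNReal.sum_le_tsum s)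
          refine Finset.sum_congr rfl fun a ha => ?_
          rw [Set.indicator_of_mem (Finset.mem_coe.2 ha)]
  -- total mass
  have htot' : (1 : ℝ≥0∞) ≤ 4 * ∑ a ∈ s, G a := by
    have h1 : ∑ a ∈ s, G a = ENNReal.ofReal (∑ a ∈ s, g a) :=
      (ENNReal.ofReal_sum_of_nonneg hg0).symm
    have h2 : (1 : ℝ≥0∞) = 4 * ENNReal.ofReal (1 / 4) := by
      have : (4 : ℝ≥0∞) = ENNReal.ofReal 4 := by simp
      rw [this, ← ENNReal.ofReal_mul (by norm_num)]
      norm_num
    rw [h2, h1]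
    gcongr
  have hsplit : ∑ a ∈ s, G a ≤ (∑ a ∈ s, if (∃ γ ∈ C, γ <+: a) then G a else 0) +
      ∑ a ∈ s, if 3 * w r a ≤ 4 * Wt r a C then G a else 0 := by
    rw [← Finset.sum_add_distrib]
    refine Finset.sum_le_sum fun a ha => ?_
    by_cases h0 : G a = 0
    · rw [h0]; exact zero_le
    · rcases hall a ha h0 with h | h
      · rw [if_pos h]; exact le_self_add
      · rw [if_pos h]; exact le_add_self
  have hfin : 3 * w r σ ≤ 4 * (((8 * (n + 1) : ℕ) : ℝ≥0∞) * (7 * Wt r σ C)) := by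
    calc 3 * w r σ = 3 * (w r σ * 1) := by rw [mul_one]
      _ ≤ 3 * (w r σ * (4 * ∑ a ∈ s, G a)) := by gcongr
      _ ≤ 3 * (w r σ * (4 * ((∑ a ∈ s, if (∃ γ ∈ C, γ <+: a) then G a else 0) +
            ∑ a ∈ s, if 3 * w r a ≤ 4 * Wt r a C then G a else 0))) := by gcongr
      _ = 4 * (3 * (w r σ * (∑ a ∈ s, if (∃ γ ∈ C, γ <+: a) then G a else 0)) +
            3 * (w r σ * (∑ a ∈ s, if 3 * w r a ≤ 4 * Wt r a C then G a else 0))) := by ring
      _ ≤ 4 * (3 * (((8 * (n + 1) : ℕ) : ℝ≥0∞) * Wt r σ C) +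
            ((8 * (n + 1) : ℕ) : ℝ≥0∞) * (4 * Wt r σ C)) := by gcongr
      _ = _ := by ring
  have hfin2 : 10 * (3 * w r σ) ≤ 28 * w r σ := by
    calc 10 * (3 * w r σ) ≤ 10 * (4 * (((8 * (n + 1) : ℕ) : ℝ≥0∞) * (7 * Wt r σ C))) := by gcongr
      _ = 28 * (((80 * (n + 1) : ℕ) : ℝ≥0∞) * Wt r σ C) := by push_cast; ring
      _ ≤ 28 * w r σ := by gcongr
  have hw0 := w_ne_zero hr0 σ
  have hwt : w r σ ≠ ∞ := w_ne_top σ
  have h30 : (10 : ℝ≥0∞) * (3 * w r σ) = 30 * w r σ := by ring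
  rw [h30] at hfin2
  have := (ENNReal.mul_le_mul_iff_left hw0 hwt).1 hfin2
  norm_num at this

end Pool.Agent.Helper747.BL
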