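import Mathlib
import Pool.Agent.Helper747.BLG

set_option autoImplicit false
open Set Topology Filter
open scoped ENNReal NNReal

namespace Pool.Agent.Helper747.BL

variable {r : ℝ≥0}

lemma cond_univ : Cond r [] ∅ := by
  refine ⟨?_, by simp⟩
  unfold Wt w
  simp

lemma K_univ : K ([] : Str) ∅ = Set.univ := by
  ext x
  simp [K, cyl, pre]

/-- extension with small relative weight compared with the length -/
theorem shrink_lin (hr : 1 / 2 < r) {σ : Str} {C : Set Str} (h : Cond r σ C) (J N : ℕ) :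
    ∃ τ, σ <+: τ ∧ N ≤ τ.length ∧ Cond r τ C ∧
      ((80 * (J * τ.length + 1) : ℕ) : ℝ≥0∞) * Wt r τ C ≤ w r τ := by
  have h2r : 1 < 2 * r := by
    have := mul_lt_mul_of_pos_left hr (show (0 : ℝ≥0) < 2 by norm_num)
    simpa using this
  have hev : ∀ᶠ k : ℕ in atTop, ((80 * (J * (σ.length + k) + 1) : ℕ) : ℝ) ≤ (2 * (r : ℝ)) ^ k := by
    have h2r' : (1 : ℝ) < 2 * (r : ℝ) := by exact_mod_cast h2r
    have ht := tendsto_pow_const_div_const_pow_of_one_lt 1 h2r'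
    let M : ℝ := 80 * (J * (σ.length + 1) + 1)
    have hM : 0 < M := by positivity
    have h1 := (ht.eventually (gt_mem_nhds (show (0 : ℝ) < 1 / M by positivity)))
    filter_upwards [h1, eventually_ge_atTop 1] with k hk hk1
    have hpos : 0 < (2 * (r : ℝ)) ^ k := by positivity
    rw [pow_one, div_lt_iff₀ hpos] at hk
    have h3 : (k : ℝ) * M ≤ (2 * (r : ℝ)) ^ k := by
      have := mul_le_mul_of_nonneg_right hk.le hM.le
      have e : 1 / M * (2 * (r : ℝ)) ^ k * M = (2 * (r : ℝ)) ^ k := by field_simp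
      rwa [e] at this
    refine le_trans ?_ h3
    have hk1' : (1 : ℝ) ≤ k := by exact_mod_cast hk1
    have hJ : (0 : ℝ) ≤ J := Nat.cast_nonneg J
    have hl : (0 : ℝ) ≤ σ.length := Nat.cast_nonneg _
    push_cast
    simp only [M]
    nlinarith [mul_nonneg hJ hl, mul_nonneg (mul_nonneg hJ hl) (sub_nonneg.2 hk1')]
  obtain ⟨k, hk1, hk2⟩ := (hev.and (eventually_ge_atTop N)).exists
  obtain ⟨τ, h1, h2, h3, h4⟩ := cond_ext hr.le h k
  refine ⟨τ, h1, by omega, h3, ?_⟩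
  have h5 : w r τ = (r : ℝ≥0∞) ^ k * w r σ := by
    unfold w
    rw [h2, pow_add, mul_comm]
  have h6 : ((80 * (J * τ.length + 1) : ℕ) : ℝ≥0∞) ≤ (r : ℝ≥0∞) ^ k * 2 ^ k := by
    rw [← mul_pow, mul_comm (r : ℝ≥0∞) 2, h2]
    have : ((80 * (J * (σ.length + k) + 1) : ℕ) : ℝ≥0) ≤ (2 * r) ^ k := by exact_mod_cast hk1
    exact_mod_cast this
  calc ((80 * (J * τ.length + 1) : ℕ) : ℝ≥0∞) * Wt r τ C
      ≤ ((r : ℝ≥0∞) ^ k * 2 ^ k) * Wt r τ C := by gcongr
    _ = (r : ℝ≥0∞) ^ k * (2 ^ k * Wt r τ C) := by ring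
    _ ≤ (r : ℝ≥0∞) ^ k * Wt r σ C := by gcongr
    _ ≤ (r : ℝ≥0∞) ^ k * w r σ := by gcongr; exact h.1.le
    _ = w r τ := h5.symm

/-- For every Borel map there are short lists capturing its generic values. -/
theorem exists_lists (hr : 1 / 2 < r) (hr1 : r ≤ 1) {f : X → X} (hf : Measurable f) :
    ∃ Λ : ℕ → ℕ → Finset Str, (∀ J l, ∀ y ∈ Λ J l, y.length = J * l) ∧
      (∀ J l, ((Λ J l).card : ℝ) * (r : ℝ) ^ (J * l) ≤ 2 ^ l * (32 * (J * l + 1))) ∧
      Meag r {x | ¬ ∀ J, ∃ᶠ l in atTop, pre (f x) (J * l) ∈ Λ J l} := by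
  classical
  choose L hL1 hL2 hL3 using fun n σ => exists_short_list hr hr1 hf n σ
  refine ⟨fun J l => (strs l).biUnion fun σ => L (J * l) σ, ?_, ?_, ?_⟩
  · intro J l y hy
    obtain ⟨σ, _, hσ⟩ := Finset.mem_biUnion.1 hy
    exact hL1 _ _ y hσ
  · intro J l
    have h1 : (((strs l).biUnion fun σ => L (J * l) σ).card : ℝ) ≤
        ∑ σ ∈ strs l, ((L (J * l) σ).card : ℝ) := by
      exact_mod_cast Finset.card_biUnion_le
    calc (((strs l).biUnion fun σ => L (J * l) σ).card : ℝ) * (r : ℝ) ^ (J * l)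
        ≤ (∑ σ ∈ strs l, ((L (J * l) σ).card : ℝ)) * (r : ℝ) ^ (J * l) := by gcongr
      _ = ∑ σ ∈ strs l, ((L (J * l) σ).card : ℝ) * (r : ℝ) ^ (J * l) := Finset.sum_mul _ _ _
      _ ≤ ∑ σ ∈ strs l, (32 * (((J * l : ℕ) : ℝ) + 1)) :=
          Finset.sum_le_sum fun σ _ => hL2 _ _
      _ = 2 ^ l * (32 * (J * l + 1)) := by
          rw [Finset.sum_const, card_strs, nsmul_eq_mul]
          push_cast
          ring
  · have hset : {x | ¬ ∀ J, ∃ᶠ l in atTop, pre (f x) (J * l) ∈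
        (strs l).biUnion fun σ => L (J * l) σ} ⊆
        ⋃ J : ℕ, ⋃ N : ℕ, {x | ∀ l, N ≤ l → pre (f x) (J * l) ∉
          (strs l).biUnion fun σ => L (J * l) σ} := by
      intro x hx
      simp only [Set.mem_ofPred_eq, not_forall, not_frequently] at hx
      obtain ⟨J, hJ⟩ := hx
      obtain ⟨N, hN⟩ := eventually_atTop.1 hJ
      exact Set.mem_iUnion.2 ⟨J, Set.mem_iUnion.2 ⟨N, hN⟩⟩
    refine Meag.mono ?_ hset
    refine Meag.iUnion fun J => Meag.iUnion fun N => ?_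
    have key := meag_of_local hr (cond_univ (r := r)) {x | ∀ l, N ≤ l → pre (f x) (J * l) ∉
          (strs l).biUnion fun σ => L (J * l) σ} ?_
    · rwa [K_univ, Set.univ_inter] at key
    intro ρ D hρ _
    obtain ⟨τ, h1, h2, h3, h4⟩ := shrink_lin hr hρ J N
    obtain ⟨τ', D', h5, h6, h7⟩ := hL3 (J * τ.length) τ D h3 h4
    refine ⟨τ', D', h5, h6.trans (K_mono h1 le_rfl), h7.mono ?_⟩
    rintro x ⟨hx1, hx2⟩
    refine ⟨hx1, fun hx3 => ?_⟩
    refine hx2 τ.length h2 (Finset.mem_biUnion.2 ⟨τ, mem_strs.2 rfl, hx3⟩)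

/-- null sets are nowhere dense -/
theorem nd_of_null (hr1 : r ≤ 1) {A : Set X} (h : ∀ k : ℕ, ∃ C : Set Str, A ⊆ ⋃ γ ∈ C, cyl γ ∧
    ∑' γ, C.indicator (w r) γ ≤ 2⁻¹ ^ k) : ND r A := by
  intro σ C hC
  have hpos : w r σ - Wt r σ C ≠ 0 := (tsub_pos_of_lt hC.1).ne'
  obtain ⟨k, hk⟩ := ENNReal.exists_inv_two_pow_lt hpos
  have hk' : Wt r σ C + 2⁻¹ ^ k < w r σ := lt_tsub_iff_left.1 hk
  obtain ⟨D, hD1, hD2⟩ := h k
  have hWD : ∀ τ, Wt r τ D ≤ 2⁻¹ ^ k := by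
    intro τ
    refine le_trans ?_ hD2
    unfold Wt
    refine ENNReal.tsum_le_tsum fun γ => ?_
    exact Set.indicator_le_indicator_of_subset (fun γ hγ => hγ.1) (fun _ => zero_le) γ
  refine ⟨σ, C ∪ D, ⟨?_, ?_⟩, K_mono (List.prefix_refl _) Set.subset_union_left, ?_⟩
  · refine lt_of_le_of_lt (Wt_union _ _ _) (lt_of_le_of_lt ?_ hk')
    gcongr
    exact hWD σ
  · rintro γ (hγ | hγ) hp
    · exact hC.2 γ hγ hp
    · have h1 : w r γ ≤ 2⁻¹ ^ k := (w_le_Wt hγ (List.prefix_refl _)).trans (hWD γ)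
      have h2 : w r σ ≤ w r γ := by
        unfold w
        exact pow_le_pow_right_of_le_one' (by exact_mod_cast hr1) hp.length_le
      exact absurd (h2.trans h1) (not_le.2 (lt_of_le_of_lt le_add_self hk'))
  · rw [Set.disjoint_left]
    rintro x ⟨_, hx2⟩ hxA
    apply hx2
    have := hD1 hxA
    simp only [Set.mem_iUnion] at this ⊢
    obtain ⟨γ, hγ, hx⟩ := this
    exact ⟨γ, Or.inr hγ, hx⟩

end Pool.Agent.Helper747.BL
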