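import Mathlib
import Pool.Agent.Helper747.BLH

set_option autoImplicit false
open Set Topology Filter MeasureTheory
open scoped ENNReal NNReal

namespace Pool.Agent.Helper747.BL

/-- the metric `2^-n` on the Cantor space, `n` the first difference -/
@[reducible] noncomputable def cantorMetric : MetricSpace X :=
  PiNat.metricSpaceOfDiscreteUniformity fun _ => rfl

attribute [local instance] cantorMetric

example : BorelSpace X := inferInstance

lemma mem_cyl_pre_iff (x y : X) (n : ℕ) : x ∈ cyl (pre y n) ↔ ∀ i < n, x i = y i := by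
  change pre x (pre y n).length = pre y n ↔ _
  rw [pre_length]
  unfold pre
  rw [List.map_inj_left]
  simp

lemma dist_le_iff (x y : X) (n : ℕ) : dist x y ≤ (1 / 2 : ℝ) ^ n ↔ x ∈ cyl (pre y n) := by
  rw [mem_cyl_pre_iff]
  exact (PiNat.mem_cylinder_iff_dist_le (E := fun _ => Bool) (x := y) (y := x) (n := n)).symm

lemma ediam_cyl_le (γ : Str) : Metric.ediam (cyl γ) ≤ 2⁻¹ ^ γ.length := by
  refine Metric.ediam_le fun x hx y hy => ?_
  have hy' : pre y γ.length = γ := hy
  have h : dist x y ≤ (1 / 2 : ℝ) ^ γ.length := by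
    rw [dist_le_iff, hy']
    exact hx
  rw [edist_dist]
  calc ENNReal.ofReal (dist x y) ≤ ENNReal.ofReal ((1 / 2 : ℝ) ^ γ.length) :=
        ENNReal.ofReal_le_ofReal h
    _ = 2⁻¹ ^ γ.length := by
        rw [ENNReal.ofReal_pow (by norm_num), one_div, ENNReal.ofReal_inv_of_pos (by norm_num)]
        simp

lemma subset_cyl {A : Set X} {x : X} (hx : x ∈ A) {n : ℕ}
    (h : Metric.ediam A ≤ 2⁻¹ ^ n) : A ⊆ cyl (pre x n) := by
  intro y hy
  rw [← dist_le_iff]
  have h1 := (Metric.edist_le_ediam_of_mem hy hx).trans h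
  rw [edist_dist] at h1
  have h2 : (2⁻¹ : ℝ≥0∞) ^ n = ENNReal.ofReal ((1 / 2 : ℝ) ^ n) := by
    rw [ENNReal.ofReal_pow (by norm_num), one_div, ENNReal.ofReal_inv_of_pos (by norm_num)]
    simp
  rw [h2] at h1
  exact (ENNReal.ofReal_le_ofReal_iff (by positivity)).1 h1

lemma ediam_le_one (A : Set X) : Metric.ediam A ≤ 1 := by
  have h1 : A ⊆ cyl [] := fun x _ => by simp [cyl, pre]
  refine (Metric.ediam_mono h1).trans ?_
  simpa using ediam_cyl_le []

end Pool.Agent.Helper747.BL
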