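import Mathlib
import Pool.Agent.Helper747.BLI

set_option autoImplicit false
open Set Topology Filter MeasureTheory
open scoped ENNReal NNReal

namespace Pool.Agent.Helper747.BL

attribute [local instance] cantorMetric

/-- sets given by short lists have small dimension -/
theorem dimH_lists_le {r s : ℝ≥0} (hrs : (r : ℝ) = (1 / 2 : ℝ) ^ (s : ℝ)) (Λ : ℕ → ℕ → Finset Str)
    (h1 : ∀ J l, ∀ y ∈ Λ J l, y.length = J * l)
    (h2 : ∀ J l, ((Λ J l).card : ℝ) * (r : ℝ) ^ (J * l) ≤ 2 ^ l * (32 * (J * l + 1))) :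
    dimH {y : X | ∀ J, ∃ᶠ l in atTop, pre y (J * l) ∈ Λ J l} ≤ s := by
  by_contra hcon
  push Not at hcon
  obtain ⟨t, ht1, ht2⟩ := ENNReal.lt_iff_exists_nnreal_btwn.1 hcon
  have hst : (s : ℝ) < t := by exact_mod_cast ht1
  have htop := hausdorffMeasure_of_lt_dimH ht2
  have hr0 : (0 : ℝ) < r := by rw [hrs]; positivity
  obtain ⟨J, hJ⟩ := exists_nat_ge (2 / ((t : ℝ) - s))
  have hts : (0 : ℝ) < (t : ℝ) - s := by linarith
  have hJ' : 2 ≤ (J : ℝ) * ((t : ℝ) - s) := by
    rw [div_le_iff₀ hts] at hJ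
    exact hJ
  have hJ1 : 1 ≤ J := by
    by_contra h
    have : J = 0 := by omega
    rw [this] at hJ'
    norm_num at hJ'
  let q : ℝ := (1 / 2 : ℝ) ^ (t : ℝ)
  have hq0 : 0 < q := by positivity
  have hqr : q ^ J ≤ (r : ℝ) ^ J * (1 / 4) := by
    have e1 : q ^ J = (r : ℝ) ^ J * (1 / 2 : ℝ) ^ ((J : ℝ) * ((t : ℝ) - s)) := by
      simp only [q]
      rw [hrs, ← Real.rpow_natCast, ← Real.rpow_natCast, ← Real.rpow_mul (by norm_num),
        ← Real.rpow_mul (by norm_num), ← Real.rpow_add (by norm_num)]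
      congr 1
      ring
    rw [e1]
    have e2 : (1 / 2 : ℝ) ^ ((J : ℝ) * ((t : ℝ) - s)) ≤ (1 / 2 : ℝ) ^ (2 : ℝ) :=
      Real.rpow_le_rpow_of_exponent_ge (by norm_num) (by norm_num) hJ'
    have e3 : (1 / 2 : ℝ) ^ (2 : ℝ) = 1 / 4 := by
      rw [Real.rpow_two]; norm_num
    rw [e3] at e2
    gcongr
  have hterm : ∀ l : ℕ, ((Λ J l).card : ℝ) * q ^ (J * l) ≤ 32 * (J * l + 1) * (1 / 2) ^ l := by
    intro l
    have e1 : q ^ (J * l) ≤ (r : ℝ) ^ (J * l) * (1 / 4) ^ l := by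
      rw [pow_mul, pow_mul, ← mul_pow]
      gcongr
    calc ((Λ J l).card : ℝ) * q ^ (J * l)
        ≤ ((Λ J l).card : ℝ) * ((r : ℝ) ^ (J * l) * (1 / 4) ^ l) := by gcongr
      _ = (((Λ J l).card : ℝ) * (r : ℝ) ^ (J * l)) * (1 / 4) ^ l := by ring
      _ ≤ (2 ^ l * (32 * (J * l + 1))) * (1 / 4) ^ l :=
          mul_le_mul_of_nonneg_right (h2 J l) (by positivity)
      _ = 32 * (J * l + 1) * (2 * (1 / 4)) ^ l := by rw [mul_pow]; ring
      _ = _ := by norm_num
  let a : ℕ → ℝ≥0∞ := fun l => ENNReal.ofReal (32 * (J * l + 1) * (1 / 2) ^ l)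
  have ha : ∑' l, a l ≠ ∞ := by
    have hs : Summable fun l : ℕ => (32 * (J * l + 1) * (1 / 2) ^ l : ℝ) := by
      have e1 := summable_pow_mul_geometric_of_norm_lt_one 1
        (show ‖(1 / 2 : ℝ)‖ < 1 by norm_num)
      have e2 := summable_geometric_of_lt_one (show (0 : ℝ) ≤ 1 / 2 by norm_num) (by norm_num)
      refine ((e1.mul_left (32 * (J : ℝ))).add (e2.mul_left 32)).congr fun l => ?_
      ring
    exact hs.tsum_ofReal_ne_top
  have hlim := ENNReal.tendsto_sum_nat_add a ha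
  have hmeas : μH[(t : ℝ)] {y : X | ∀ J, ∃ᶠ l in atTop, pre y (J * l) ∈ Λ J l} ≤ 0 := by
    have key := Measure.hausdorffMeasure_le_liminf_tsum (X := X) (β := ℕ)
      (ι := fun N => Σ l : ℕ, {y // y ∈ Λ J (N + l)}) (t : ℝ)
      {y : X | ∀ J, ∃ᶠ l in atTop, pre y (J * l) ∈ Λ J l} (l := atTop)
      (fun N => (2⁻¹ : ℝ≥0∞) ^ N) (ENNReal.tendsto_pow_atTop_nhds_zero_of_lt_one (by norm_num))
      (fun N i => cyl i.2.1) ?_ ?_
    · refine key.trans ?_
      have hle : ∀ N : ℕ, ∑' i : (Σ l : ℕ, {y // y ∈ Λ J (N + l)}),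
          Metric.ediam (cyl i.2.1) ^ (t : ℝ) ≤ ∑' l, a (l + N) := by
        intro N
        rw [ENNReal.tsum_sigma (fun (l : ℕ) (y : {y // y ∈ Λ J (N + l)}) =>
          Metric.ediam (cyl y.1) ^ (t : ℝ))]
        refine ENNReal.tsum_le_tsum fun l => ?_
        have e1 : ∀ y : {y // y ∈ Λ J (N + l)}, Metric.ediam (cyl y.1) ^ (t : ℝ) ≤
            ENNReal.ofReal (q ^ (J * (N + l))) := by
          intro y
          have e2 := ediam_cyl_le y.1
          rw [h1 _ _ _ y.2] at e2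
          have e3 : (2⁻¹ : ℝ≥0∞) ^ (J * (N + l)) = ENNReal.ofReal ((1 / 2 : ℝ) ^ (J * (N + l))) := by
            rw [ENNReal.ofReal_pow (by norm_num), one_div, ENNReal.ofReal_inv_of_pos (by norm_num)]
            simp
          rw [e3] at e2
          calc Metric.ediam (cyl y.1) ^ (t : ℝ)
              ≤ (ENNReal.ofReal ((1 / 2 : ℝ) ^ (J * (N + l)))) ^ (t : ℝ) := by gcongr
            _ = ENNReal.ofReal (((1 / 2 : ℝ) ^ (J * (N + l))) ^ (t : ℝ)) :=
                ENNReal.ofReal_rpow_of_pos (by positivity)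
            _ = ENNReal.ofReal (q ^ (J * (N + l))) := by
                congr 1
                simp only [q]
                rw [← Real.rpow_natCast, ← Real.rpow_natCast, ← Real.rpow_mul (by norm_num),
                  ← Real.rpow_mul (by norm_num), mul_comm]
        calc ∑' y : {y // y ∈ Λ J (N + l)}, Metric.ediam (cyl y.1) ^ (t : ℝ)
            ≤ ∑' y : {y // y ∈ Λ J (N + l)}, ENNReal.ofReal (q ^ (J * (N + l))) :=
              ENNReal.tsum_le_tsum e1
          _ = ((Λ J (N + l)).card : ℝ≥0∞) * ENNReal.ofReal (q ^ (J * (N + l))) := by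
              rw [tsum_fintype, Finset.sum_const, Finset.card_univ, Fintype.card_coe,
                nsmul_eq_mul]
          _ = ENNReal.ofReal (((Λ J (N + l)).card : ℝ) * q ^ (J * (N + l))) := by
              rw [ENNReal.ofReal_mul (by positivity), ENNReal.ofReal_natCast]
          _ ≤ a (l + N) := by
              rw [add_comm l N]
              exact ENNReal.ofReal_le_ofReal (by exact_mod_cast hterm (N + l))
      exact (liminf_le_liminf (Eventually.of_forall hle)).trans hlim.liminf_eq.le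
    · refine Eventually.of_forall fun N i => ?_
      refine (ediam_cyl_le _).trans ?_
      rw [h1 _ _ _ i.2.2]
      refine pow_le_pow_right_of_le_one' (by norm_num) ?_
      calc N ≤ N + i.1 := Nat.le_add_right _ _
        _ = 1 * (N + i.1) := (one_mul _).symm
        _ ≤ J * (N + i.1) := Nat.mul_le_mul_right _ hJ1
    · refine Eventually.of_forall fun N => ?_
      intro y hy
      have hy' := hy J
      rw [frequently_atTop] at hy'
      obtain ⟨l, hl, hyl⟩ := hy' N
      obtain ⟨k, rfl⟩ := Nat.exists_eq_add_of_le hl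
      exact Set.mem_iUnion.2 ⟨⟨k, ⟨_, hyl⟩⟩, mem_cyl_pre _ _⟩
  rw [htop] at hmeas
  simp at hmeas

end Pool.Agent.Helper747.BL
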