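import Mathlib
import Pool.Agent.Helper747.BLJ

set_option autoImplicit false
open Set Topology Filter MeasureTheory
open scoped ENNReal NNReal

namespace Pool.Agent.Helper747.BL

attribute [local instance] cantorMetric

lemma exists_string {r s : ℝ≥0} (hrs : (r : ℝ) = (1 / 2 : ℝ) ^ (s : ℝ)) (hr : 1 / 2 ≤ r)
    (hr1 : r < 1) {A : Set X} (hA : A.Nonempty) {δ : ℝ≥0∞} (hδ : δ ≠ 0) :
    ∃ γ : Str, A ⊆ cyl γ ∧ w r γ ≤ 2 * Metric.ediam A ^ (s : ℝ) + δ := by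
  obtain ⟨x, hx⟩ := hA
  by_cases h0 : Metric.ediam A = 0
  · have h1 := ENNReal.tendsto_pow_atTop_nhds_zero_of_lt_one
      (show (r : ℝ≥0∞) < 1 by exact_mod_cast hr1)
    obtain ⟨m, hm⟩ := (h1.eventually (gt_mem_nhds (pos_iff_ne_zero.2 hδ))).exists
    refine ⟨pre x m, subset_cyl hx (by rw [h0]; exact zero_le), ?_⟩
    unfold w
    rw [pre_length]
    exact hm.le.trans le_add_self
  · have hle := ediam_le_one A
    have hne : Metric.ediam A ≠ ∞ := ne_top_of_le_ne_top ENNReal.one_ne_top hle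
    let d : ℝ := (Metric.ediam A).toReal
    have hd : Metric.ediam A = ENNReal.ofReal d := (ENNReal.ofReal_toReal hne).symm
    have hd0 : 0 < d := ENNReal.toReal_pos h0 hne
    have hd1 : d ≤ 1 := by
      have := ENNReal.toReal_mono ENNReal.one_ne_top hle
      simpa using this
    obtain ⟨n, hn1, hn2⟩ := exists_nat_pow_near_of_lt_one hd0 hd1
      (show (0 : ℝ) < 1 / 2 by norm_num) (by norm_num)
    refine ⟨pre x n, subset_cyl hx ?_, ?_⟩
    · rw [hd]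
      have e3 : (2⁻¹ : ℝ≥0∞) ^ n = ENNReal.ofReal ((1 / 2 : ℝ) ^ n) := by
        rw [ENNReal.ofReal_pow (by norm_num), one_div, ENNReal.ofReal_inv_of_pos (by norm_num)]
        simp
      rw [e3]
      exact ENNReal.ofReal_le_ofReal hn2
    · refine le_trans ?_ le_self_add
      have hr0 : (0 : ℝ) < r := by rw [hrs]; positivity
      have e1 : (r : ℝ) ^ (n + 1) ≤ d ^ (s : ℝ) := by
        have : (r : ℝ) ^ (n + 1) = ((1 / 2 : ℝ) ^ (n + 1)) ^ (s : ℝ) := by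
          rw [hrs, ← Real.rpow_natCast, ← Real.rpow_natCast, ← Real.rpow_mul (by norm_num),
            ← Real.rpow_mul (by norm_num), mul_comm]
        rw [this]
        exact Real.rpow_le_rpow (by positivity) hn1.le (NNReal.coe_nonneg s)
      have e2 : (r : ℝ) ^ n ≤ 2 * d ^ (s : ℝ) := by
        have hr' : (1 / 2 : ℝ) ≤ r := by exact_mod_cast hr
        have e4 : (0 : ℝ) ≤ (r : ℝ) ^ n := by positivity
        have e5 : (r : ℝ) ^ (n + 1) = (r : ℝ) ^ n * r := pow_succ _ _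
        nlinarith
      unfold w
      rw [pre_length, hd, ENNReal.ofReal_rpow_of_pos hd0]
      have e6 : (r : ℝ≥0∞) ^ n = ENNReal.ofReal ((r : ℝ) ^ n) := by
        rw [ENNReal.ofReal_pow hr0.le, ENNReal.ofReal_coe_nnreal]
      have e7 : (2 : ℝ≥0∞) * ENNReal.ofReal (d ^ (s : ℝ)) = ENNReal.ofReal (2 * d ^ (s : ℝ)) := by
        rw [ENNReal.ofReal_mul (by norm_num)]
        simp
      rw [e6, e7]
      exact ENNReal.ofReal_le_ofReal e2

/-- null sets have covers by cylinders of small weight -/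
theorem null_cover {r s : ℝ≥0} (hrs : (r : ℝ) = (1 / 2 : ℝ) ^ (s : ℝ)) (hr : 1 / 2 ≤ r)
    (hr1 : r < 1) {A : Set X} (hA : μH[(s : ℝ)] A = 0) {ε : ℝ≥0∞} (hε : ε ≠ 0) :
    ∃ C : Set Str, A ⊆ ⋃ γ ∈ C, cyl γ ∧ ∑' γ, C.indicator (w r) γ ≤ ε := by
  classical
  rw [Measure.hausdorffMeasure_apply] at hA
  have h1 : ⨅ (t : ℕ → Set X) (_ : A ⊆ ⋃ n, t n) (_ : ∀ n, Metric.ediam (t n) ≤ 1),
          ∑' n, ⨆ _ : (t n).Nonempty, Metric.ediam (t n) ^ (s : ℝ) = 0 := by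
    refine le_antisymm ?_ zero_le
    rw [← hA]
    exact le_iSup₂ (f := fun (r : ℝ≥0∞) (_ : 0 < r) =>
      ⨅ (t : ℕ → Set X) (_ : A ⊆ ⋃ n, t n) (_ : ∀ n, Metric.ediam (t n) ≤ r),
          ∑' n, ⨆ _ : (t n).Nonempty, Metric.ediam (t n) ^ (s : ℝ)) 1 one_pos
  have hε4 : 0 < ε / 4 := ENNReal.div_pos hε (by norm_num)
  rw [← h1] at hε4
  obtain ⟨t, ht⟩ := iInf_lt_iff.1 hε4
  obtain ⟨ht1, ht⟩ := iInf_lt_iff.1 ht
  obtain ⟨ht2, ht⟩ := iInf_lt_iff.1 ht
  obtain ⟨δ, hδ1, hδ2⟩ := ENNReal.exists_pos_sum_of_countable'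
    (ENNReal.div_pos hε (by norm_num : (2 : ℝ≥0∞) ≠ ∞)).ne' ℕ
  have hex : ∀ n, ∃ γ : Str, (t n).Nonempty →
      (t n ⊆ cyl γ ∧ w r γ ≤ 2 * Metric.ediam (t n) ^ (s : ℝ) + δ n) := by
    intro n
    by_cases h : (t n).Nonempty
    · obtain ⟨γ, h⟩ := exists_string hrs hr hr1 h (hδ1 n).ne'
      exact ⟨γ, fun _ => h⟩
    · exact ⟨[], fun h' => absurd h' h⟩
  choose γ hγ using hex
  refine ⟨{σ | ∃ n, (t n).Nonempty ∧ γ n = σ}, ?_, ?_⟩
  · intro x hx
    obtain ⟨n, hn⟩ := Set.mem_iUnion.1 (ht1 hx)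
    simp only [Set.mem_iUnion]
    exact ⟨γ n, ⟨n, ⟨x, hn⟩, rfl⟩, (hγ n ⟨x, hn⟩).1 hn⟩
  · have h2 : ∀ σ, ({σ | ∃ n, (t n).Nonempty ∧ γ n = σ} : Set Str).indicator (w r) σ ≤
        ∑' n, (if (t n).Nonempty ∧ γ n = σ then w r σ else 0) := by
      intro σ
      by_cases h : σ ∈ ({σ | ∃ n, (t n).Nonempty ∧ γ n = σ} : Set Str)
      · rw [Set.indicator_of_mem h]
        obtain ⟨n, hn⟩ := h
        refine le_trans (le_of_eq ?_) (ENNReal.le_tsum n)
        rw [if_pos hn]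
      · rw [Set.indicator_of_notMem h]
        exact zero_le
    calc ∑' σ, ({σ | ∃ n, (t n).Nonempty ∧ γ n = σ} : Set Str).indicator (w r) σ
        ≤ ∑' σ, ∑' n, (if (t n).Nonempty ∧ γ n = σ then w r σ else 0) :=
          ENNReal.tsum_le_tsum h2
      _ = ∑' n, ∑' σ, (if (t n).Nonempty ∧ γ n = σ then w r σ else 0) := ENNReal.tsum_comm
      _ ≤ ∑' n, (2 * (⨆ _ : (t n).Nonempty, Metric.ediam (t n) ^ (s : ℝ)) + δ n) := by
          refine ENNReal.tsum_le_tsum fun n => ?_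
          rw [tsum_eq_single (γ n)]
          · by_cases h : (t n).Nonempty
            · rw [if_pos ⟨h, rfl⟩]
              refine (hγ n h).2.trans ?_
              gcongr
              exact le_iSup (fun _ : (t n).Nonempty => Metric.ediam (t n) ^ (s : ℝ)) h
            · rw [if_neg fun h' => h h'.1]
              exact zero_le
          · intro σ hσ
            rw [if_neg]
            exact fun h => hσ h.2.symm
      _ = 2 * ∑' n, (⨆ _ : (t n).Nonempty, Metric.ediam (t n) ^ (s : ℝ)) + ∑' n, δ n := by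
          rw [ENNReal.tsum_add, ENNReal.tsum_mul_left]
      _ ≤ 2 * (ε / 4) + ε / 2 := by
          gcongr
      _ = ε := by
          have h3 : 2 * (ε / 4) = ε / 2 := by
            rw [← mul_div_assoc, ENNReal.div_eq_div_iff (by norm_num) (by norm_num) (by norm_num)
              (by norm_num)]
            ring
          rw [h3, ENNReal.add_halves]

/-- the null set with code `c` -/
def NullSet (r : ℝ≥0) (c : ℕ → Set Str) : Set X :=
  {x | (∀ k, ∑' γ, (c k).indicator (w r) γ ≤ 2⁻¹ ^ k) ∧ ∀ k, ∃ γ ∈ c k, x ∈ cyl γ}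

lemma nd_nullSet {r : ℝ≥0} (hr1 : r ≤ 1) (c : ℕ → Set Str) : ND r (NullSet r c) := by
  by_cases h : ∀ k, ∑' γ, (c k).indicator (w r) γ ≤ 2⁻¹ ^ k
  · refine nd_of_null hr1 fun k => ⟨c k, ?_, h k⟩
    intro x hx
    simp only [Set.mem_iUnion]
    obtain ⟨γ, h1, h2⟩ := hx.2 k
    exact ⟨γ, h1, h2⟩
  · have : NullSet r c = ∅ := by
      ext x
      simp only [NullSet, Set.mem_ofPred_eq, Set.mem_empty_iff_false, iff_false]
      exact fun hx => h hx.1
    rw [this]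
    exact nd_empty

lemma exists_code {r s : ℝ≥0} (hrs : (r : ℝ) = (1 / 2 : ℝ) ^ (s : ℝ)) (hr : 1 / 2 ≤ r)
    (hr1 : r < 1) {A : Set X} (hA : μH[(s : ℝ)] A = 0) :
    ∃ c : ℕ → Set Str, A ⊆ NullSet r c := by
  have h : ∀ k : ℕ, ∃ C : Set Str, A ⊆ ⋃ γ ∈ C, cyl γ ∧
      ∑' γ, C.indicator (w r) γ ≤ 2⁻¹ ^ k := fun k =>
    null_cover hrs hr hr1 hA (pow_ne_zero _ (by norm_num))
  choose c h1 h2 using h
  refine ⟨c, fun x hx => ⟨h2, fun k => ?_⟩⟩
  have := h1 k hx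
  simp only [Set.mem_iUnion] at this
  obtain ⟨γ, h3, h4⟩ := this
  exact ⟨γ, h3, h4⟩

end Pool.Agent.Helper747.BL
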