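import Mathlib
import Pool.Agent.Helper747.BLK

set_option autoImplicit false
open Set Topology Filter MeasureTheory
open scoped ENNReal NNReal Cardinal

namespace Pool.Agent.Helper747.BL

attribute [local instance] cantorMetric

lemma exists_enum {P : Type} [Nonempty P] (h : #P ≤ Cardinal.aleph 1) :
    ∃ g : (Cardinal.aleph 1 : Cardinal.{0}).ord.ToType → P, Function.Surjective g := by
  have h1 : #P ≤ #(Cardinal.aleph 1 : Cardinal.{0}).ord.ToType := by
    rw [Cardinal.mk_ord_toType]
    exact h
  obtain ⟨e⟩ := Cardinal.le_def _ _ |>.1 h1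
  exact ⟨Function.invFun e, Function.invFun_surjective e.injective⟩

lemma countable_Iic (i : (Cardinal.aleph 1 : Cardinal.{0}).ord.ToType) : (Set.Iic i).Countable := by
  have h1 : (Set.Iio i).Countable := by
    rw [Cardinal.countable_iff_lt_aleph_one]
    have := Cardinal.mk_Iio_lt i (by simp)
    simpa using this
  rw [← Set.Iio_insert]
  exact h1.insert i

lemma card_measurable : #{f : X → X // Measurable f} ≤ Cardinal.continuum := by
  let Φ : {f : X → X // Measurable f} → (ℕ → {s : Set X // MeasurableSet s}) := fun f i =>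
    ⟨{x | f.1 x i = true}, by
      have : Measurable fun x => f.1 x i := (measurable_pi_apply i).comp f.2
      exact this (measurableSet_singleton true)⟩
  have hΦ : Function.Injective Φ := by
    intro f g h
    apply Subtype.ext
    funext x i
    have h1 : {x | f.1 x i = true} = {x | g.1 x i = true} := congrArg Subtype.val (congrFun h i)
    have h2 : f.1 x i = true ↔ g.1 x i = true := by
      have := Set.ext_iff.1 h1 x
      simpa using this
    cases h3 : f.1 x i <;> cases h4 : g.1 x i <;> simp_all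
  refine (Cardinal.mk_le_of_injective hΦ).trans ?_
  have h1 : #{s : Set X // MeasurableSet s} ≤ Cardinal.continuum := by
    have h2 := MeasurableSpace.cardinal_measurableSet_le_continuum (α := X)
      (s := MeasurableSpace.countableGeneratingSet X)
      (((MeasurableSpace.countable_countableGeneratingSet (α := X)).le_aleph0).trans
        Cardinal.aleph0_le_continuum)
    rw [MeasurableSpace.generateFrom_countableGeneratingSet] at h2
    exact h2
  rw [Cardinal.mk_arrow]
  simp only [Cardinal.lift_id, Cardinal.mk_nat]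
  calc #{s : Set X // MeasurableSet s} ^ Cardinal.aleph0 ≤ Cardinal.continuum ^ Cardinal.aleph0 :=
        Cardinal.power_le_power_right h1
    _ = Cardinal.continuum := Cardinal.continuum_power_aleph0

lemma card_codes : #(ℕ → Set Str) ≤ Cardinal.continuum := by
  rw [Cardinal.mk_arrow]
  simp only [Cardinal.lift_id, Cardinal.mk_nat]
  have h1 : #(Set Str) ≤ Cardinal.continuum := by
    rw [Cardinal.mk_set]
    have : #Str ≤ Cardinal.aleph0 := Cardinal.mk_le_aleph0
    calc (2 : Cardinal) ^ #Str ≤ 2 ^ Cardinal.aleph0 :=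
          Cardinal.power_le_power_left two_ne_zero this
      _ = Cardinal.continuum := Cardinal.two_power_aleph0
  calc #(Set Str) ^ Cardinal.aleph0 ≤ Cardinal.continuum ^ Cardinal.aleph0 :=
        Cardinal.power_le_power_right h1
    _ = Cardinal.continuum := Cardinal.continuum_power_aleph0

/-- the Hausdorff measure is not zero on comeager sets -/
lemma measure_ne_zero {r s : ℝ≥0} (hrs : (r : ℝ) = (1 / 2 : ℝ) ^ (s : ℝ)) (hr : 1 / 2 ≤ r)
    (hr1 : r < 1) {A : Set X} (hA : ∀ c, ¬ A ⊆ NullSet r c) : (s : ℝ≥0∞) ≤ dimH A := by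
  refine le_dimH_of_hausdorffMeasure_ne_zero fun h => ?_
  obtain ⟨c, hc⟩ := exists_code hrs hr hr1 h
  exact hA c hc

theorem main_open {s : ℝ≥0} (hs0 : 0 < s) (hs1 : s < 1)
    (CH : (Cardinal.continuum : Cardinal.{0}) = Cardinal.aleph 1) :
    ∃ E : Set X, dimH E = s ∧ ∀ f : X → X, Measurable f → dimH (f '' E) ≤ s := by
  classical
  let r : ℝ≥0 := (1 / 2 : ℝ≥0) ^ (s : ℝ)
  have hrs : (r : ℝ) = (1 / 2 : ℝ) ^ (s : ℝ) := by
    simp only [r]
    push_cast
    rfl
  have hs0' : (0 : ℝ) < s := by exact_mod_cast hs0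
  have hs1' : (s : ℝ) < 1 := by exact_mod_cast hs1
  have hr' : (1 / 2 : ℝ) < r := by
    rw [hrs]
    have := Real.rpow_lt_rpow_of_exponent_gt (show (0 : ℝ) < 1 / 2 by norm_num)
      (by norm_num) hs1'
    rwa [Real.rpow_one] at this
  have hr1' : (r : ℝ) < 1 := by
    rw [hrs]
    exact Real.rpow_lt_one (by norm_num) (by norm_num) hs0'
  have hr : 1 / 2 < r := by exact_mod_cast hr'
  have hr1 : r < 1 := by exact_mod_cast hr1'
  -- lists
  have hlists : ∀ f : {f : X → X // Measurable f}, ∃ G : Set X, dimH G ≤ s ∧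
      Meag r {x | f.1 x ∉ G} := by
    intro f
    obtain ⟨Λ, h1, h2, h3⟩ := exists_lists hr hr1.le f.2
    exact ⟨{y : X | ∀ J, ∃ᶠ l in atTop, pre y (J * l) ∈ Λ J l}, dimH_lists_le hrs Λ h1 h2, h3⟩
  choose G hG1 hG2 using hlists
  let P : Type := {f : X → X // Measurable f} × (ℕ → Set Str)
  have hP : #P ≤ Cardinal.aleph 1 := by
    rw [← CH]
    have : #P = #{f : X → X // Measurable f} * #(ℕ → Set Str) := Cardinal.mul_def _ _ |>.symm
    rw [this]
    calc #{f : X → X // Measurable f} * #(ℕ → Set Str)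
        ≤ Cardinal.continuum * Cardinal.continuum := mul_le_mul' card_measurable card_codes
      _ = Cardinal.continuum := Cardinal.continuum_mul_self
  haveI : Nonempty P := ⟨(⟨id, measurable_id⟩, fun _ => ∅)⟩
  obtain ⟨g, hg⟩ := exists_enum hP
  let Bad : P → Set X := fun p => {x | p.1.1 x ∉ G p.1} ∪ NullSet r p.2
  have hBad : ∀ p, Meag r (Bad p) := fun p => (hG2 p.1).union (nd_nullSet hr1.le p.2).meag
  have hx : ∀ i : (Cardinal.aleph 1 : Cardinal.{0}).ord.ToType, ∃ x : X, ∀ j ≤ i, x ∉ Bad (g j) := by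
    intro i
    haveI : Countable (Set.Iic i) := countable_Iic i
    have hm : Meag r (⋃ j : Set.Iic i, Bad (g j)) := Meag.iUnion fun j => hBad _
    obtain ⟨x, _, hx⟩ := baire hr.le (cond_univ (r := r)) hm
    refine ⟨x, fun j hj hxj => hx ?_⟩
    exact Set.mem_iUnion.2 ⟨⟨j, hj⟩, hxj⟩
  choose x hx using hx
  have himg : ∀ f : X → X, Measurable f → dimH (f '' Set.range x) ≤ s := by
    intro f hf
    obtain ⟨i, hi⟩ := hg (⟨f, hf⟩, fun _ => ∅)
    have hsub : f '' Set.range x ⊆ G ⟨f, hf⟩ ∪ (fun j => f (x j)) '' Set.Iic i := by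
      rintro _ ⟨_, ⟨j, rfl⟩, rfl⟩
      rcases le_total j i with hj | hj
      · exact Or.inr ⟨j, hj, rfl⟩
      · left
        have h1 := hx j i hj
        rw [hi] at h1
        by_contra h2
        exact h1 (Or.inl h2)
    refine (dimH_mono hsub).trans ?_
    rw [dimH_union, dimH_countable ((countable_Iic i).image _)]
    exact max_le (hG1 _) zero_le
  refine ⟨Set.range x, le_antisymm ?_ ?_, himg⟩
  · have := himg id measurable_id
    simpa using this
  · refine measure_ne_zero hrs hr.le hr1 fun c hc => ?_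
    obtain ⟨i, hi⟩ := hg (⟨id, measurable_id⟩, c)
    have h1 := hx i i le_rfl
    rw [hi] at h1
    exact h1 (Or.inr (hc ⟨i, rfl⟩))

/-- the Cantor space has dimension at least `t` for `t < 1` -/
lemma le_dimH_univ {t : ℝ≥0} (ht0 : 0 < t) (ht1 : t < 1) : (t : ℝ≥0∞) ≤ dimH (Set.univ : Set X) := by
  let r : ℝ≥0 := (1 / 2 : ℝ≥0) ^ (t : ℝ)
  have hrs : (r : ℝ) = (1 / 2 : ℝ) ^ (t : ℝ) := by
    simp only [r]
    push_cast
    rfl
  have hs0' : (0 : ℝ) < t := by exact_mod_cast ht0
  have hs1' : (t : ℝ) < 1 := by exact_mod_cast ht1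
  have hr' : (1 / 2 : ℝ) < r := by
    rw [hrs]
    have := Real.rpow_lt_rpow_of_exponent_gt (show (0 : ℝ) < 1 / 2 by norm_num)
      (by norm_num) hs1'
    rwa [Real.rpow_one] at this
  have hr1' : (r : ℝ) < 1 := by
    rw [hrs]
    exact Real.rpow_lt_one (by norm_num) (by norm_num) hs0'
  have hr : 1 / 2 < r := by exact_mod_cast hr'
  have hr1 : r < 1 := by exact_mod_cast hr1'
  refine measure_ne_zero hrs hr.le hr1 fun c hc => ?_
  obtain ⟨x, _, hx⟩ := baire hr.le (cond_univ (r := r)) (nd_nullSet hr1.le c).meag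
  exact hx (hc (Set.mem_univ x))

lemma dimH_univ_le : dimH (Set.univ : Set X) ≤ 1 := by
  have h : μH[((1 : ℝ≥0) : ℝ)] (Set.univ : Set X) ≤ 1 := by
    have key := Measure.hausdorffMeasure_le_liminf_sum (X := X) (β := ℕ)
      (ι := fun N => {y // y ∈ strs N}) ((1 : ℝ≥0) : ℝ)
      (Set.univ : Set X) (l := atTop)
      (fun N => (2⁻¹ : ℝ≥0∞) ^ N) (ENNReal.tendsto_pow_atTop_nhds_zero_of_lt_one (by norm_num))
      (fun N i => cyl i.1) ?_ ?_
    · refine key.trans ?_
      have hle : ∀ N : ℕ, ∑ i : {y // y ∈ strs N}, Metric.ediam (cyl i.1) ^ (((1 : ℝ≥0) : ℝ)) ≤ 1 := by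
        intro N
        calc ∑ i : {y // y ∈ strs N}, Metric.ediam (cyl i.1) ^ (((1 : ℝ≥0) : ℝ))
            ≤ ∑ i : {y // y ∈ strs N}, (2⁻¹ : ℝ≥0∞) ^ N := by
              refine Finset.sum_le_sum fun i _ => ?_
              have := ediam_cyl_le i.1
              rw [mem_strs.1 i.2] at this
              simpa using this
          _ = 2 ^ N * 2⁻¹ ^ N := by
              rw [Finset.sum_const, Finset.card_univ, Fintype.card_coe, card_strs, nsmul_eq_mul]
              push_cast
              rfl
          _ = 1 := by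
              rw [← mul_pow, ENNReal.mul_inv_cancel (by norm_num) (by norm_num), one_pow]
      calc liminf (fun N => ∑ i : {y // y ∈ strs N},
            Metric.ediam (cyl i.1) ^ (((1 : ℝ≥0) : ℝ))) atTop
          ≤ liminf (fun _ : ℕ => (1 : ℝ≥0∞)) atTop := liminf_le_liminf (Eventually.of_forall hle)
        _ = 1 := liminf_const _
    · refine Eventually.of_forall fun N i => ?_
      have := ediam_cyl_le i.1
      rwa [mem_strs.1 i.2] at this
    · refine Eventually.of_forall fun N => ?_
      intro y _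
      exact Set.mem_iUnion.2 ⟨⟨pre y N, mem_strs.2 (pre_length _ _)⟩, mem_cyl_pre _ _⟩
  have := dimH_le_of_hausdorffMeasure_ne_top (d := 1) (s := (Set.univ : Set X))
    (ne_top_of_le_ne_top ENNReal.one_ne_top h)
  simpa using this

theorem main (CH : (Cardinal.continuum : Cardinal.{0}) = Cardinal.aleph 1) {s : ℝ≥0}
    (hs1 : s ≤ 1) :
    ∃ E : Set X, dimH E = s ∧ ∀ f : X → X, Measurable f → dimH (f '' E) ≤ s := by
  rcases eq_or_lt_of_le hs1 with rfl | hs1
  · refine ⟨Set.univ, le_antisymm (by simpa using dimH_univ_le) ?_, ?_⟩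
    · refine ENNReal.le_of_forall_nnreal_lt fun t ht => ?_
      have ht' : t < 1 := by exact_mod_cast ht
      rcases eq_or_lt_of_le (zero_le (a := t)) with h | h
      · rw [← h]; simp
      · exact le_dimH_univ h ht'
    · intro f _
      refine (dimH_mono (Set.subset_univ _)).trans ?_
      simpa using dimH_univ_le
  · rcases eq_or_lt_of_le (zero_le (a := s)) with h | h
    · refine ⟨{fun _ => false}, ?_, ?_⟩
      · rw [dimH_singleton, ← h]; simp
      · intro f _
        rw [Set.image_singleton, dimH_singleton]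
        exact zero_le
    · exact main_open h hs1 CH

end Pool.Agent.Helper747.BL
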