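import Mathlib

set_option autoImplicit false

open Set

namespace Pool.Agent.Helper747.CC

universe u v

/-- `C` is a cross-cut of the partially ordered set `P`: it is a maximal antichain, and whenever
`x < x' ∈ C`, `y > y' ∈ C` and `x ≤ y`, some `z ∈ C` satisfies `x ≤ z ≤ y`. -/
def IsCrossCut {P : Type u} [PartialOrder P] (C : Set P) : Prop :=
  IsMaxAntichain (fun a b : P => a ≤ b) C ∧
    ∀ x y : P, (∃ x' ∈ C, x < x') → (∃ y' ∈ C, y' < y) → x ≤ y → ∃ z ∈ C, x ≤ z ∧ z ≤ y

/-- The dual of a family of subsets of `X`: the family of the complements of its members. -/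
def dual {X : Type u} (C : Set (Set X)) : Set (Set X) := {A | ∃ B ∈ C, A = Bᶜ}

/-- A family `C` of subsets of `X` is trivial if, for some finite `k`, the family `C` or its dual
is the family of all `k`-element subsets of `X`. -/
def IsTrivial {X : Type u} (C : Set (Set X)) : Prop :=
  ∃ k : ℕ, C = {A : Set X | A.encard = k} ∨ dual C = {A : Set X | A.encard = k}

/-- The power set of `X` has a nontrivial cross-cut. -/
def HasNontrivialCrossCut (X : Type u) : Prop :=
  ∃ C : Set (Set X), IsCrossCut C ∧ ¬ IsTrivial C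

open Classical in
/-- `|A ∩ {0, ..., n-1}|`. -/
noncomputable def cnt (A : Set ℕ) : ℕ → ℕ
  | 0 => 0
  | n + 1 => if n ∈ A then cnt A n + 1 else cnt A n

theorem cnt_mem {A : Set ℕ} {n : ℕ} (h : n ∈ A) : cnt A (n + 1) = cnt A n + 1 := by
  simp only [cnt, if_pos h]

theorem cnt_not_mem {A : Set ℕ} {n : ℕ} (h : n ∉ A) : cnt A (n + 1) = cnt A n := by
  simp only [cnt, if_neg h]

theorem cnt_mono {A B : Set ℕ} (h : A ⊆ B) (n : ℕ) : cnt A n ≤ cnt B n := by
  induction n with
  | zero => simp [cnt]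
  | succ n ih =>
    by_cases hA : n ∈ A
    · rw [cnt_mem hA, cnt_mem (h hA)]
      omega
    · rw [cnt_not_mem hA]
      by_cases hB : n ∈ B
      · rw [cnt_mem hB]; omega
      · rw [cnt_not_mem hB]; exact ih

/-- `|A ∩ {0, ..., n-1}| - ⌊n/2⌋`. -/
noncomputable def s (A : Set ℕ) (n : ℕ) : ℤ := (cnt A n : ℤ) - ((n / 2 : ℕ) : ℤ)

/-- eventually `s A ≤ 0`. -/
def Up (A : Set ℕ) : Prop := ∃ N, ∀ n, N ≤ n → s A n ≤ 0

/-- infinitely often `0 ≤ s A`. -/
def Lo (A : Set ℕ) : Prop := ∀ N, ∃ n, N ≤ n ∧ 0 ≤ s A n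

/-- the cross-cut. -/
def CN : Set (Set ℕ) := {A | Up A ∧ Lo A}

theorem s_mono {A B : Set ℕ} (h : A ⊆ B) (n : ℕ) : s A n ≤ s B n := by
  unfold s
  have h2 : (cnt A n : ℤ) ≤ (cnt B n : ℤ) := by
    exact_mod_cast cnt_mono h n
  linarith

theorem Up.mono {A B : Set ℕ} (h : A ⊆ B) (hB : Up B) : Up A := by
  obtain ⟨N, hN⟩ := hB
  exact ⟨N, fun n hn => (s_mono h n).trans (hN n hn)⟩

theorem Lo.mono {A B : Set ℕ} (h : A ⊆ B) (hA : Lo A) : Lo B := by
  intro N
  obtain ⟨n, hn, h0⟩ := hA N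
  exact ⟨n, hn, h0.trans (s_mono h n)⟩

/-- adding one element raises `s` by one from some point on. -/
theorem s_insert {A : Set ℕ} {f : ℕ} (hf : f ∉ A) (n : ℕ) :
    s (insert f A) n = s A n + (if f < n then 1 else 0) := by
  unfold s
  have key : cnt (insert f A) n = cnt A n + (if f < n then 1 else 0) := by
    induction n with
    | zero => simp [cnt]
    | succ n ih =>
      by_cases h2 : f = n
      · subst h2
        rw [cnt_mem (mem_insert f A), cnt_not_mem hf, ih]
        simp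
      · have h3 : (if f < n + 1 then (1 : ℕ) else 0) = (if f < n then 1 else 0) := by
          split_ifs <;> omega
        rw [h3]
        by_cases hn : n ∈ A
        · rw [cnt_mem (mem_insert_of_mem f hn), cnt_mem hn, ih]
          omega
        · have hn' : n ∉ insert f A := by
            rintro (h | h)
            · exact h2 h.symm
            · exact hn h
          rw [cnt_not_mem hn', cnt_not_mem hn, ih]
  rw [key]
  push_cast
  split_ifs <;> ring

/-- strictly larger sets have `s` larger by at least one from some point on. -/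
theorem s_ssubset {A B : Set ℕ} (h : A ⊂ B) : ∃ N, ∀ n, N ≤ n → s A n + 1 ≤ s B n := by
  obtain ⟨f, hfB, hfA⟩ := exists_of_ssubset h
  refine ⟨f + 1, fun n hn => ?_⟩
  have h1 : insert f A ⊆ B := insert_subset hfB h.subset
  have h2 := s_mono h1 n
  rw [s_insert hfA n, if_pos (by omega)] at h2
  exact h2

open Classical in
/-- the greedy counter. -/
noncomputable def g (X Y : Set ℕ) : ℕ → ℕ
  | 0 => 0
  | m + 1 => if (m ∈ Y ∧ m ∉ X ∧ ∀ k, m < k → s X k + (g X Y m : ℤ) + 1 ≤ 0) then g X Y m + 1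
      else g X Y m

/-- the greedily chosen set. -/
def B (X Y : Set ℕ) : Set ℕ :=
  {m | m ∈ Y ∧ m ∉ X ∧ ∀ k, m < k → s X k + (g X Y m : ℤ) + 1 ≤ 0}

theorem g_mem {X Y : Set ℕ} {n : ℕ} (h : n ∈ B X Y) : g X Y (n + 1) = g X Y n + 1 := by
  have h2 : (n ∈ Y ∧ n ∉ X ∧ ∀ k, n < k → s X k + (g X Y n : ℤ) + 1 ≤ 0) := h
  rw [g, if_pos h2]

theorem g_not_mem {X Y : Set ℕ} {n : ℕ} (h : n ∉ B X Y) : g X Y (n + 1) = g X Y n := by
  have h2 : ¬ (n ∈ Y ∧ n ∉ X ∧ ∀ k, n < k → s X k + (g X Y n : ℤ) + 1 ≤ 0) := h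
  rw [g, if_neg h2]

theorem count_union (X Y : Set ℕ) (n : ℕ) :
    cnt (X ∪ B X Y) n = cnt X n + g X Y n := by
  induction n with
  | zero => simp [g, cnt]
  | succ n ih =>
    by_cases hB : n ∈ B X Y
    · have hX : n ∉ X := hB.2.1
      have h1 : n ∈ X ∪ B X Y := Or.inr hB
      rw [cnt_mem h1, cnt_not_mem hX, g_mem hB, ih]
      omega
    · rw [g_not_mem hB]
      by_cases hX : n ∈ X
      · have h1 : n ∈ X ∪ B X Y := Or.inl hX
        rw [cnt_mem h1, cnt_mem hX, ih]
        omega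
      · have h1 : n ∉ X ∪ B X Y := by
          rintro (h | h)
          · exact hX h
          · exact hB h
        rw [cnt_not_mem h1, cnt_not_mem hX, ih]

theorem s_union (X Y : Set ℕ) (n : ℕ) : s (X ∪ B X Y) n = s X n + (g X Y n : ℤ) := by
  unfold s
  rw [count_union X Y n]
  push_cast
  ring

theorem g_mono (X Y : Set ℕ) : Monotone (g X Y) := by
  refine monotone_nat_of_le_succ fun n => ?_
  by_cases h : n ∈ B X Y
  · rw [g_mem h]; omega
  · rw [g_not_mem h]

/-- once something has been chosen, all later values are `≤ 0`. -/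
theorem s_union_le (X Y : Set ℕ) (n : ℕ) (hn : g X Y n ≠ 0) (k : ℕ) (hk : n ≤ k) :
    s X k + (g X Y n : ℤ) ≤ 0 := by
  induction n with
  | zero => exact absurd rfl hn
  | succ n ih =>
    by_cases h : n ∈ B X Y
    · rw [g_mem h]
      have := h.2.2 k (by omega)
      push_cast
      linarith
    · rw [g_not_mem h] at hn ⊢
      exact ih hn (by omega)

theorem up_union {X : Set ℕ} (Y : Set ℕ) (hX : Up X) : Up (X ∪ B X Y) := by
  obtain ⟨N, hN⟩ := hX
  refine ⟨N, fun n hn => ?_⟩
  rw [s_union]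
  by_cases h : g X Y n = 0
  · rw [h]
    have := hN n hn
    simpa using this
  · exact s_union_le X Y n h n le_rfl

/-- adding finitely many elements. -/
theorem finite_step (Y : Set ℕ) (hY : Lo Y) :
    ∀ (k : ℕ) (W : Set ℕ), W ⊆ Y → Up W → (Y \ W).Finite → (Y \ W).ncard ≤ k →
      ∃ Z, W ⊆ Z ∧ Z ⊆ Y ∧ Up Z ∧ Lo Z := by
  intro k
  induction k with
  | zero =>
    intro W hWY hW hfin hk
    have h0 : (Y \ W) = ∅ := by
      have : (Y \ W).ncard = 0 := by omega
      exact (ncard_eq_zero hfin).1 this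
    have h1 : Y ⊆ W := by
      intro a ha
      by_contra h
      have : a ∈ Y \ W := ⟨ha, h⟩
      rw [h0] at this
      exact this
    have h2 : W = Y := Subset.antisymm hWY h1
    subst h2
    exact ⟨W, Subset.rfl, Subset.rfl, hW, hY⟩
  | succ k ih =>
    intro W hWY hW hfin hk
    by_cases hL : Lo W
    · exact ⟨W, Subset.rfl, hWY, hW, hL⟩
    · have hne : (Y \ W).Nonempty := by
        by_contra h
        rw [not_nonempty_iff_eq_empty] at h
        have h1 : Y ⊆ W := by
          intro a ha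
          by_contra h'
          have : a ∈ Y \ W := ⟨ha, h'⟩
          rw [h] at this
          exact this
        exact hL (hY.mono h1)
      obtain ⟨f, hfY, hfW⟩ := hne
      have hup : Up (insert f W) := by
        unfold Lo at hL
        push Not at hL
        obtain ⟨N, hN⟩ := hL
        refine ⟨N, fun n hn => ?_⟩
        rw [s_insert hfW]
        have := hN n hn
        split_ifs <;> omega
      have hsub : Y \ insert f W ⊆ Y \ W := by
        intro a ha
        exact ⟨ha.1, fun h => ha.2 (mem_insert_of_mem f h)⟩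
      have hlt : (Y \ insert f W).ncard < (Y \ W).ncard := by
        apply ncard_lt_ncard _ hfin
        refine ⟨hsub, fun h => ?_⟩
        have : f ∈ Y \ insert f W := h ⟨hfY, hfW⟩
        exact this.2 (mem_insert f W)
      obtain ⟨Z, hZ1, hZ2, hZ3, hZ4⟩ := ih (insert f W) (insert_subset hfY hWY) hup
        (hfin.subset hsub) (by omega)
      exact ⟨Z, (subset_insert f W).trans hZ1, hZ2, hZ3, hZ4⟩

/-- interpolation. -/
theorem interpolate {X Y : Set ℕ} (hXY : X ⊆ Y) (hX : Up X) (hY : Lo Y) :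
    ∃ Z ∈ CN, X ⊆ Z ∧ Z ⊆ Y := by
  have hW : X ∪ B X Y ⊆ Y := by
    rintro a (ha | ha)
    · exact hXY ha
    · exact ha.1
  have hUp : Up (X ∪ B X Y) := up_union Y hX
  by_cases hL : Lo (X ∪ B X Y)
  · exact ⟨X ∪ B X Y, ⟨hUp, hL⟩, subset_union_left, hW⟩
  · have hL' := hL
    unfold Lo at hL'
    push Not at hL'
    obtain ⟨N, hN⟩ := hL'
    have hfin : (Y \ (X ∪ B X Y)).Finite := by
      apply (finite_lt_nat N).subset
      intro m hm
      by_contra hge
      have hge' : N ≤ m := by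
        simpa using hge
      apply hm.2
      right
      refine ⟨hm.1, fun h => hm.2 (Or.inl h), fun k hk => ?_⟩
      have h1 := hN k (by omega)
      rw [s_union] at h1
      have h2 : (g X Y m : ℤ) ≤ (g X Y k : ℤ) := by
        exact_mod_cast g_mono X Y hk.le
      linarith
    obtain ⟨Z, h1, h2, h3, h4⟩ := finite_step Y hY _ (X ∪ B X Y) hW hUp hfin le_rfl
    exact ⟨Z, ⟨h3, h4⟩, subset_union_left.trans h1, h2⟩

theorem up_empty : Up ∅ := by
  refine ⟨0, fun n _ => ?_⟩
  unfold s
  have : cnt (∅ : Set ℕ) n = 0 := by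
    induction n with
    | zero => rfl
    | succ n ih => rw [cnt_not_mem (notMem_empty n)]; exact ih (Nat.zero_le _)
  rw [this]
  have := Int.natCast_nonneg (n / 2)
  push_cast at this ⊢
  linarith

theorem lo_univ : Lo univ := by
  intro N
  refine ⟨N, le_rfl, ?_⟩
  unfold s
  have : cnt (univ : Set ℕ) N = N := by
    induction N with
    | zero => rfl
    | succ n ih => rw [cnt_mem (mem_univ n), ih]
  rw [this]
  have : ((N / 2 : ℕ) : ℤ) ≤ (N : ℤ) := by
    exact_mod_cast Nat.div_le_self N 2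
  linarith

theorem anti : IsAntichain (fun a b : Set ℕ => a ≤ b) CN := by
  intro A hA A' hA' hne hle
  have hss : A ⊂ A' := lt_of_le_of_ne hle hne
  obtain ⟨N, hN⟩ := s_ssubset hss
  obtain ⟨M, hM⟩ := hA'.1
  obtain ⟨n, hn, h0⟩ := hA.2 (max N M)
  have h1 := hN n (le_trans (le_max_left _ _) hn)
  have h2 := hM n (le_trans (le_max_right _ _) hn)
  linarith

theorem comparable (A : Set ℕ) : ∃ Z ∈ CN, A ⊆ Z ∨ Z ⊆ A := by
  by_cases h : Up A
  · obtain ⟨Z, hZ, h1, _⟩ := interpolate (subset_univ A) h lo_univ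
    exact ⟨Z, hZ, Or.inl h1⟩
  · have hL : Lo A := by
      unfold Up at h
      push Not at h
      intro N
      obtain ⟨n, hn, h0⟩ := h N
      exact ⟨n, hn, h0.le⟩
    obtain ⟨Z, hZ, _, h2⟩ := interpolate (empty_subset A) up_empty hL
    exact ⟨Z, hZ, Or.inr h2⟩

/-- A maximality criterion for antichains of sets. -/
theorem isMaxAntichain_of {X : Type u} {C : Set (Set X)}
    (h1 : IsAntichain (fun a b : Set X => a ≤ b) C) (h2 : ∀ A : Set X, ∃ Z ∈ C, A ⊆ Z ∨ Z ⊆ A) :
    IsMaxAntichain (fun a b : Set X => a ≤ b) C := by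
  refine ⟨h1, fun D hD hCD => ?_⟩
  apply Subset.antisymm hCD
  intro A hA
  obtain ⟨Z, hZ, h | h⟩ := h2 A
  · by_cases hne : A = Z
    · rw [hne]; exact hZ
    · exact absurd h (hD hA (hCD hZ) hne)
  · by_cases hne : Z = A
    · rw [← hne]; exact hZ
    · exact absurd h (hD (hCD hZ) hA hne)

theorem crossCut_CN : IsCrossCut CN := by
  refine ⟨isMaxAntichain_of anti comparable, ?_⟩
  rintro x y ⟨x', hx', hxx'⟩ ⟨y', hy', hyy'⟩ hxy
  obtain ⟨Z, hZ, h1, h2⟩ := interpolate hxy (hx'.1.mono hxx'.le) (hy'.2.mono hyy'.le)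
  exact ⟨Z, hZ, h1, h2⟩

/-- The odd numbers are in the cross-cut. -/
theorem odds_mem : {n : ℕ | n % 2 = 1} ∈ CN := by
  have key : ∀ n, cnt {n : ℕ | n % 2 = 1} n = n / 2 := by
    intro n
    induction n with
    | zero => simp [cnt]
    | succ n ih =>
      by_cases h : n % 2 = 1
      · have h' : n ∈ {n : ℕ | n % 2 = 1} := h
        rw [cnt_mem h', ih]
        omega
      · have h' : n ∉ {n : ℕ | n % 2 = 1} := h
        rw [cnt_not_mem h', ih]
        omega
  have hs : ∀ n, s {n : ℕ | n % 2 = 1} n = 0 := by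
    intro n
    unfold s
    rw [key n]
    ring
  exact ⟨⟨0, fun n _ => (hs n).le⟩, fun N => ⟨N, le_rfl, (hs N).ge⟩⟩

/-- If a family has an infinite member with infinite complement, it is not trivial. -/
theorem not_trivial_of {X : Type u} {C : Set (Set X)} {A : Set X} (hA : A ∈ C)
    (h1 : A.Infinite) (h2 : Aᶜ.Infinite) : ¬ IsTrivial C := by
  rintro ⟨k, h | h⟩
  · rw [h] at hA
    have h3 : A.encard = k := hA
    exact h1 (finite_of_encard_eq_coe h3)
  · have hA' : Aᶜ ∈ dual C := ⟨A, hA, rfl⟩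
    rw [h] at hA'
    have h3 : Aᶜ.encard = k := hA'
    exact h2 (finite_of_encard_eq_coe h3)

theorem odds_infinite : {n : ℕ | n % 2 = 1}.Infinite := by
  apply infinite_of_injective_forall_mem (f := fun n : ℕ => 2 * n + 1)
  · intro a b h
    simp only at h
    omega
  · intro n
    show (2 * n + 1) % 2 = 1
    omega

theorem evens_infinite : ({n : ℕ | n % 2 = 1}ᶜ).Infinite := by
  apply infinite_of_injective_forall_mem (f := fun n : ℕ => 2 * n)
  · intro a b h
    simp only at h
    omega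
  · intro n
    show ¬ ((2 * n) % 2 = 1)
    omega

theorem nontrivial_CN : ¬ IsTrivial CN :=
  not_trivial_of odds_mem odds_infinite evens_infinite

/-- **The countable case.** -/
theorem main_nat : HasNontrivialCrossCut ℕ := ⟨CN, crossCut_CN, nontrivial_CN⟩

end Pool.Agent.Helper747.CC
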