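import Mathlib
import Pool.Agent.Helper747.CrossCut

set_option autoImplicit false

open Set

namespace Pool.Agent.Helper747.CC

universe u v

/-- Minors: from a cross-cut of `P(X)` and a member `B`, a cross-cut of `P(Y)` for `Y ⊆ X`. -/
theorem minor {X : Type u} {Y : Type v} {C : Set (Set X)} (hC : IsCrossCut C) {B : Set X}
    (hB : B ∈ C) (f : Y → X) (hf : Function.Injective f)
    (h1 : (f ⁻¹' B).Infinite) (h2 : ((f ⁻¹' B)ᶜ).Infinite) :
    HasNontrivialCrossCut Y := by
  have himg : ∀ A A' : Set Y, f '' A ∪ (B \ range f) ⊆ f '' A' ∪ (B \ range f) ↔ A ⊆ A' := by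
    intro A A'
    constructor
    · intro h a ha
      rcases h (Or.inl (mem_image_of_mem f ha)) with ⟨b, hb, hab⟩ | h3
      · rw [← hf hab]; exact hb
      · exact absurd (mem_range_self a) h3.2
    · intro h
      exact union_subset_union_left _ (image_mono h)
  have hlow : (B \ range f) < B := by
    refine ⟨diff_subset, fun h => ?_⟩
    obtain ⟨y, hy⟩ := h1.nonempty
    exact (h hy).2 (mem_range_self y)
  have hhigh : B < (B ∪ range f) := by
    refine ⟨subset_union_left, fun h => ?_⟩
    obtain ⟨y, hy⟩ := h2.nonempty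
    exact hy (h (Or.inr (mem_range_self y)))
  have hdec : ∀ Z : Set X, B \ range f ⊆ Z → Z ⊆ B ∪ range f →
      f '' (f ⁻¹' Z) ∪ (B \ range f) = Z := by
    intro Z h3 h4
    apply Subset.antisymm
    · rintro x (⟨y, hy, rfl⟩ | hx)
      · exact hy
      · exact h3 hx
    · intro x hx
      by_cases hr : x ∈ range f
      · obtain ⟨y, rfl⟩ := hr
        exact Or.inl ⟨y, hx, rfl⟩
      · rcases h4 hx with h5 | h5
        · exact Or.inr ⟨h5, hr⟩
        · exact absurd h5 hr
  have hup : ∀ A : Set Y, f '' A ∪ (B \ range f) ⊆ B ∪ range f := by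
    rintro A x (⟨y, _, rfl⟩ | hx)
    · exact Or.inr (mem_range_self y)
    · exact Or.inl hx.1
  refine ⟨{A : Set Y | f '' A ∪ (B \ range f) ∈ C}, ⟨isMaxAntichain_of ?_ ?_, ?_⟩, ?_⟩
  · intro A hA A' hA' hne hle
    have h3 : f '' A ∪ (B \ range f) ⊆ f '' A' ∪ (B \ range f) := (himg A A').2 hle
    apply hC.1.1 hA hA' _ h3
    intro h4
    apply hne
    apply Subset.antisymm hle
    exact (himg A' A).1 h4.ge
  · intro A
    -- the lifted set is comparable with a member of `C`
    have hcomp : ∃ Z ∈ C, f '' A ∪ (B \ range f) ⊆ Z ∨ Z ⊆ f '' A ∪ (B \ range f) := by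
      by_contra hcon
      push Not at hcon
      have hanti : IsAntichain (fun a b : Set X => a ≤ b)
          (insert (f '' A ∪ (B \ range f)) C) := by
        intro P hP Q hQ hne hle
        rcases hP with hP | hP
        · rcases hQ with hQ | hQ
          · exact hne (hP.trans hQ.symm)
          · rw [hP] at hle
            exact (hcon Q hQ).1 hle
        · rcases hQ with hQ | hQ
          · rw [hQ] at hle
            exact (hcon P hP).2 hle
          · exact hC.1.1 hP hQ hne hle
      have heq := hC.1.2 hanti (subset_insert _ _)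
      have hmem : f '' A ∪ (B \ range f) ∈ C := by
        rw [heq]; exact mem_insert _ _
      exact (hcon _ hmem).1 Subset.rfl
    by_cases hmem : f '' A ∪ (B \ range f) ∈ C
    · exact ⟨A, hmem, Or.inl Subset.rfl⟩
    obtain ⟨Z, hZ, h3 | h3⟩ := hcomp
    · have hlt : f '' A ∪ (B \ range f) < Z := by
        apply lt_of_le_of_ne h3
        intro h4
        rw [h4] at hmem
        exact hmem hZ
      obtain ⟨W, hW, hW1, hW2⟩ := hC.2 _ (B ∪ range f) ⟨Z, hZ, hlt⟩ ⟨B, hB, hhigh⟩ (hup A)
      have hW3 := hdec W (subset_union_right.trans hW1) hW2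
      refine ⟨f ⁻¹' W, ?_, Or.inl ?_⟩
      · show f '' (f ⁻¹' W) ∪ (B \ range f) ∈ C
        rw [hW3]; exact hW
      · intro a ha
        exact hW1 (Or.inl (mem_image_of_mem f ha))
    · have hlt : Z < f '' A ∪ (B \ range f) := by
        apply lt_of_le_of_ne h3
        intro h4
        rw [← h4] at hmem
        exact hmem hZ
      obtain ⟨W, hW, hW1, hW2⟩ := hC.2 (B \ range f) _ ⟨B, hB, hlow⟩ ⟨Z, hZ, hlt⟩
        subset_union_right
      have hW3 := hdec W hW1 (hW2.trans (hup A))
      refine ⟨f ⁻¹' W, ?_, Or.inr ?_⟩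
      · show f '' (f ⁻¹' W) ∪ (B \ range f) ∈ C
        rw [hW3]; exact hW
      · intro a ha
        rcases hW2 ha with ⟨b, hb, hab⟩ | h4
        · rw [← hf hab]; exact hb
        · exact absurd (mem_range_self a) h4.2
  · rintro x y ⟨x', hx', hxx'⟩ ⟨y', hy', hyy'⟩ hxy
    have hlt1 : f '' x ∪ (B \ range f) < f '' x' ∪ (B \ range f) :=
      ⟨(himg x x').2 hxx'.1, fun h => hxx'.2 ((himg x' x).1 h)⟩
    have hlt2 : f '' y' ∪ (B \ range f) < f '' y ∪ (B \ range f) :=
      ⟨(himg y' y).2 hyy'.1, fun h => hyy'.2 ((himg y y').1 h)⟩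
    obtain ⟨W, hW, hW1, hW2⟩ := hC.2 _ _ ⟨_, hx', hlt1⟩ ⟨_, hy', hlt2⟩ ((himg x y).2 hxy)
    have hW3 := hdec W (subset_union_right.trans hW1) (hW2.trans (hup y))
    refine ⟨f ⁻¹' W, ?_, ?_, ?_⟩
    · show f '' (f ⁻¹' W) ∪ (B \ range f) ∈ C
      rw [hW3]; exact hW
    · intro a ha
      exact hW1 (Or.inl (mem_image_of_mem f ha))
    · intro a ha
      rcases hW2 ha with ⟨b, hb, hab⟩ | h4
      · rw [← hf hab]; exact hb
      · exact absurd (mem_range_self a) h4.2
  · apply not_trivial_of (A := f ⁻¹' B) _ h1 h2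
    show f '' (f ⁻¹' B) ∪ (B \ range f) ∈ C
    rw [hdec B diff_subset subset_union_left]
    exact hB

/-- **The countable case**: every countably infinite set has a nontrivial cross-cut. -/
theorem main_countable (X : Type u) [Countable X] [Infinite X] : HasNontrivialCrossCut X := by
  obtain ⟨e⟩ : Nonempty (X ≃ ℕ) := by
    haveI : Encodable X := Encodable.ofCountable X
    haveI : Denumerable X := Denumerable.ofEncodableOfInfinite X
    exact ⟨Denumerable.eqv X⟩
  apply minor crossCut_CN odds_mem e e.injective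
  · exact odds_infinite.preimage (by rw [e.range_eq_univ]; exact subset_univ _)
  · rw [← preimage_compl]
    exact evens_infinite.preimage (by rw [e.range_eq_univ]; exact subset_univ _)

end Pool.Agent.Helper747.CC
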