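import Mathlib
import Pool.Agent.Helper747.BLA

set_option autoImplicit false
open Set Topology Filter

namespace Pool.Agent.Helper747.PL

open Pool.Agent.Helper747.BL (Str X pre cyl pre_length pre_prefix mem_cyl_pre prefix_iff_of_mem
  mem_cyl_iff cyl_mono cyl_disjoint isClopen_cyl)

/-- boxes -/
def box {n : ℕ} (u : Fin n → Str) : Set (Fin n → X) := {x | ∀ i, x i ∈ cyl (u i)}

lemma box_eq {n : ℕ} (u : Fin n → Str) : box u = ⋂ i, (fun x : Fin n → X => x i) ⁻¹' cyl (u i) := by
  ext x
  simp [box]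

lemma isClopen_box {n : ℕ} (u : Fin n → Str) : IsClopen (box u) := by
  rw [box_eq]
  exact isClopen_iInter_of_finite fun i => (isClopen_cyl (u i)).preimage (continuous_apply i)

lemma exists_cyl_subset {O : Set X} (hO : IsOpen O) {x : X} (hx : x ∈ O) :
    ∃ m, cyl (pre x m) ⊆ O := by
  obtain ⟨I, u, h1, h2⟩ := isOpen_pi_iff.1 hO x hx
  refine ⟨I.sup id + 1, fun y hy => h2 fun i hi => ?_⟩
  have hyx : pre y (I.sup id + 1) = pre x (I.sup id + 1) := by
    have : pre y (pre x (I.sup id + 1)).length = pre x (I.sup id + 1) := hy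
    rwa [pre_length] at this
  have hi' : i < I.sup id + 1 := Nat.lt_succ_of_le (Finset.le_sup (f := id) hi)
  have : y i = x i := by
    unfold pre at hyx
    rw [List.map_inj_left] at hyx
    exact hyx i (List.mem_range.2 hi')
  rw [this]
  exact (h1 i hi).2

lemma exists_box_subset {n : ℕ} {O : Set (Fin n → X)} (hO : IsOpen O) {x : Fin n → X}
    (hx : x ∈ O) : ∃ m, box (fun i => pre (x i) m) ⊆ O := by
  obtain ⟨u, h1, h2⟩ := isOpen_pi_iff'.1 hO x hx
  have h3 : ∀ i, ∃ m, cyl (pre (x i) m) ⊆ u i := fun i => exists_cyl_subset (h1 i).1 (h1 i).2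
  choose m hm using h3
  refine ⟨Finset.univ.sup m, fun y hy => h2 fun i _ => hm i ?_⟩
  exact cyl_mono (pre_prefix (x i) (Finset.le_sup (Finset.mem_univ i))) (hy i)

lemma mem_box_pre {n : ℕ} (x : Fin n → X) (m : ℕ) : x ∈ box (fun i => pre (x i) m) :=
  fun i => mem_cyl_pre (x i) m

lemma eventually_pre_ne {a b : X} (h : a ≠ b) : ∀ᶠ m in atTop, pre a m ≠ pre b m := by
  obtain ⟨i, hi⟩ := Function.ne_iff.1 h
  filter_upwards [eventually_gt_atTop i] with m hm heq
  unfold pre at heq
  rw [List.map_inj_left] at heq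
  exact hi (heq i (List.mem_range.2 hm))

lemma disjoint_of_pre_ne {a b : X} {m : ℕ} (h : pre a m ≠ pre b m) :
    Disjoint (cyl (pre a m)) (cyl (pre b m)) := by
  refine cyl_disjoint (fun hp => h ?_) (by simp [pre_length])
  exact List.IsPrefix.eq_of_length hp (by simp [pre_length])

/-- small sets: countably many hyperplanes and the diagonals -/
def Small {n : ℕ} (C : Set (Fin n → X)) : Prop :=
  ∃ S : Set X, S.Countable ∧ ∀ x ∈ C, Function.Injective x → ∃ i, x i ∈ S

lemma Small.mono {n : ℕ} {C D : Set (Fin n → X)} (h : Small D) (hCD : C ⊆ D) : Small C := by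
  obtain ⟨S, h1, h2⟩ := h
  exact ⟨S, h1, fun x hx => h2 x (hCD hx)⟩

lemma Small.iUnion {n : ℕ} {ι : Type*} [Countable ι] {C : ι → Set (Fin n → X)}
    (h : ∀ i, Small (C i)) : Small (⋃ i, C i) := by
  choose S h1 h2 using h
  refine ⟨⋃ i, S i, Set.countable_iUnion h1, fun x hx hinj => ?_⟩
  obtain ⟨i, hi⟩ := Set.mem_iUnion.1 hx
  obtain ⟨j, hj⟩ := h2 i x hi hinj
  exact ⟨j, Set.mem_iUnion.2 ⟨i, hj⟩⟩

lemma Small.union {n : ℕ} {C D : Set (Fin n → X)} (h1 : Small C) (h2 : Small D) :
    Small (C ∪ D) := by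
  obtain ⟨S, a1, a2⟩ := h1
  obtain ⟨T, b1, b2⟩ := h2
  refine ⟨S ∪ T, a1.union b1, fun x hx hinj => ?_⟩
  rcases hx with hx | hx
  · obtain ⟨i, hi⟩ := a2 x hx hinj
    exact ⟨i, Or.inl hi⟩
  · obtain ⟨i, hi⟩ := b2 x hx hinj
    exact ⟨i, Or.inr hi⟩

/-- the kernel of a set -/
def ker {n : ℕ} (C : Set (Fin n → X)) : Set (Fin n → X) :=
  {x | x ∈ C ∧ ∀ m, ¬ Small (C ∩ box (fun i => pre (x i) m))}

lemma small_sdiff_ker {n : ℕ} (C : Set (Fin n → X)) : Small (C \ ker C) := by
  have h : Small (⋃ u : {u : Fin n → Str // Small (C ∩ box u)}, C ∩ box u.1) :=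
    Small.iUnion fun u => u.2
  refine h.mono ?_
  rintro x ⟨hx1, hx2⟩
  have : ∃ m, Small (C ∩ box (fun i => pre (x i) m)) := by
    by_contra hcon
    push Not at hcon
    exact hx2 ⟨hx1, hcon⟩
  obtain ⟨m, hm⟩ := this
  exact Set.mem_iUnion.2 ⟨⟨_, hm⟩, hx1, mem_box_pre x m⟩

lemma not_small_ker {n : ℕ} {C : Set (Fin n → X)} {u : Fin n → Str}
    (h : (ker C ∩ box u).Nonempty) : ¬ Small (ker C ∩ box u) := by
  intro hs
  obtain ⟨x, hx1, hx2⟩ := h
  refine hx1.2 (Finset.univ.sup fun i => (u i).length) ?_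
  refine (hs.union (small_sdiff_ker C)).mono ?_
  rintro y ⟨hy1, hy2⟩
  by_cases hy : y ∈ ker C
  · left
    refine ⟨hy, fun i => ?_⟩
    have h1 := hy2 i
    refine cyl_mono ?_ h1
    rw [← mem_cyl_iff (x i) (u i) (Finset.le_sup (f := fun i => (u i).length)
      (Finset.mem_univ i))]
    exact hx2 i
  · right
    exact ⟨hy1, hy⟩

section Scheme
variable {n : ℕ} (C : Set (Fin n → X))

/-- nodes of the scheme -/
structure Node where
  u : Fin n → Str
  inc : ∀ i j, i ≠ j → Disjoint (cyl (u i)) (cyl (u j))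
  ne : (ker C ∩ box u).Nonempty

variable {C}

lemma Node.exists_inj (N : Node C) (S : Set X) (hS : S.Countable) :
    ∃ x ∈ ker C ∩ box N.u, Function.Injective x ∧ ∀ i, x i ∉ S := by
  by_contra hcon
  push Not at hcon
  exact not_small_ker N.ne ⟨S, hS, fun x hx hinj => hcon x hx hinj⟩

lemma Node.step (N : Node C) : ∃ V W : Node C, (box V.u ⊆ box N.u) ∧ (box W.u ⊆ box N.u) ∧
    ∀ i j, Disjoint (cyl (V.u i)) (cyl (W.u j)) := by
  obtain ⟨x, hx1, hx2, _⟩ := N.exists_inj ∅ Set.countable_empty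
  obtain ⟨y, hy1, hy2, hy3⟩ := N.exists_inj (Set.range x) (Set.countable_range x)
  have e1 : ∀ᶠ m in atTop, ∀ i j, i ≠ j → pre (x i) m ≠ pre (x j) m :=
    eventually_all.2 fun i => eventually_all.2 fun j => by
      by_cases hij : i = j
      · exact Eventually.of_forall fun m h => absurd hij h
      · filter_upwards [eventually_pre_ne (hx2.ne hij)] with m hm _ using hm
  have e2 : ∀ᶠ m in atTop, ∀ i j, i ≠ j → pre (y i) m ≠ pre (y j) m :=
    eventually_all.2 fun i => eventually_all.2 fun j => by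
      by_cases hij : i = j
      · exact Eventually.of_forall fun m h => absurd hij h
      · filter_upwards [eventually_pre_ne (hy2.ne hij)] with m hm _ using hm
  have e3 : ∀ᶠ m in atTop, ∀ i j, pre (x i) m ≠ pre (y j) m :=
    eventually_all.2 fun i => eventually_all.2 fun j =>
      eventually_pre_ne fun h => hy3 j ⟨i, h⟩
  have e4 : ∀ᶠ m in atTop, ∀ i, (N.u i).length ≤ m :=
    eventually_all.2 fun i => eventually_ge_atTop _
  obtain ⟨m, m1, m2, m3, m4⟩ := (e1.and (e2.and (e3.and e4))).exists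
  refine ⟨⟨fun i => pre (x i) m, fun i j hij => disjoint_of_pre_ne (m1 i j hij),
    ⟨x, hx1.1, mem_box_pre x m⟩⟩, ⟨fun i => pre (y i) m, fun i j hij =>
    disjoint_of_pre_ne (m2 i j hij), ⟨y, hy1.1, mem_box_pre y m⟩⟩, ?_, ?_, ?_⟩
  · intro z hz i
    exact cyl_mono ((mem_cyl_iff (x i) (N.u i) (m4 i)).1 (hx1.2 i)) (hz i)
  · intro z hz i
    exact cyl_mono ((mem_cyl_iff (y i) (N.u i) (m4 i)).1 (hy1.2 i)) (hz i)
  · exact fun i j => disjoint_of_pre_ne (m3 i j)

lemma exists_root (h : ¬ Small C) : Nonempty (Node C) := by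
  have h1 : ¬ Small (ker C) := by
    intro hs
    refine h ((hs.union (small_sdiff_ker C)).mono ?_)
    intro x hx
    by_cases hk : x ∈ ker C
    · exact Or.inl hk
    · exact Or.inr ⟨hx, hk⟩
  have h2 : ∃ x ∈ ker C, Function.Injective x := by
    by_contra hcon
    push Not at hcon
    exact h1 ⟨∅, Set.countable_empty, fun x hx hinj => absurd hinj (hcon x hx)⟩
  obtain ⟨x, hx1, hx2⟩ := h2
  have e1 : ∀ᶠ m in atTop, ∀ i j, i ≠ j → pre (x i) m ≠ pre (x j) m :=
    eventually_all.2 fun i => eventually_all.2 fun j => by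
      by_cases hij : i = j
      · exact Eventually.of_forall fun m h => absurd hij h
      · filter_upwards [eventually_pre_ne (hx2.ne hij)] with m hm _ using hm
  obtain ⟨m, m1⟩ := e1.exists
  exact ⟨⟨fun i => pre (x i) m, fun i j hij => disjoint_of_pre_ne (m1 i j hij),
    ⟨x, hx1, mem_box_pre x m⟩⟩⟩

/-- A closed set which is not small contains a Cantor family of points all of whose coordinates
are different. -/
theorem exists_family (hC : IsClosed C) (h : ¬ Small C) : ∃ c : X → Fin n → X,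
    (∀ t, c t ∈ C) ∧ ∀ t i t' j, c t i = c t' j → t = t' ∧ i = j := by
  obtain ⟨root⟩ := exists_root h
  choose V W h1 h2 h3 using fun N : Node C => N.step
  let seq : X → ℕ → Node C := fun t k => Nat.rec root (fun k N => if t k then W N else V N) k
  have hseq : ∀ t k, seq t (k + 1) = if t k then W (seq t k) else V (seq t k) := fun _ _ => rfl
  have hsub : ∀ t k, box (seq t (k + 1)).u ⊆ box (seq t k).u := by
    intro t k
    rw [hseq]
    split_ifs
    · exact h2 _
    · exact h1 _
  have hne : ∀ t, (⋂ k, (C ∩ box (seq t k).u)).Nonempty := by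
    intro t
    refine IsCompact.nonempty_iInter_of_sequence_nonempty_isCompact_isClosed _ ?_ ?_ ?_ ?_
    · intro k
      exact Set.inter_subset_inter_right _ (hsub t k)
    · intro k
      obtain ⟨x, hx1, hx2⟩ := (seq t k).ne
      exact ⟨x, hx1.1, hx2⟩
    · exact (hC.inter (isClopen_box _).isClosed).isCompact
    · intro k
      exact hC.inter (isClopen_box _).isClosed
  choose c hc using hne
  have hc1 : ∀ t, c t ∈ C := fun t => (Set.mem_iInter.1 (hc t) 0).1
  have hc2 : ∀ t k i, c t i ∈ cyl ((seq t k).u i) := fun t k i => (Set.mem_iInter.1 (hc t) k).2 i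
  refine ⟨c, hc1, fun t i t' j heq => ?_⟩
  have htt : t = t' := by
    by_contra hne
    obtain ⟨k0, hk0⟩ := Function.ne_iff.1 hne
    classical
    have hex : ∃ k, t k ≠ t' k := ⟨k0, hk0⟩
    let k := Nat.find hex
    have hk : t k ≠ t' k := Nat.find_spec hex
    have hlt : ∀ l < k, t l = t' l := fun l hl => by
      have := Nat.find_min hex hl
      simpa using this
    have hsame : ∀ l ≤ k, seq t l = seq t' l := by
      intro l
      induction l with
      | zero => intro _; rfl
      | succ l ih =>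
        intro hl
        rw [hseq, hseq, ih (by omega), hlt l (by omega)]
    have a1 := hc2 t (k + 1) i
    have a2 := hc2 t' (k + 1) j
    rw [hseq, hsame k le_rfl] at a1
    rw [hseq] at a2
    rw [← heq] at a2
    cases hb : t k with
    | false =>
      have hb' : t' k = true := by
        cases h' : t' k
        · rw [hb, h'] at hk; exact absurd rfl hk
        · rfl
      rw [hb] at a1
      rw [hb'] at a2
      simp only [Bool.false_eq_true, if_false, if_true] at a1 a2
      exact Set.disjoint_left.1 (h3 (seq t' k) i j) a1 a2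
    | true =>
      have hb' : t' k = false := by
        cases h' : t' k
        · rfl
        · rw [hb, h'] at hk; exact absurd rfl hk
      rw [hb] at a1
      rw [hb'] at a2
      simp only [Bool.false_eq_true, if_false, if_true] at a1 a2
      exact Set.disjoint_left.1 (h3 (seq t' k) j i) a2 a1
  refine ⟨htt, ?_⟩
  subst htt
  by_contra hij
  have a1 := hc2 t 0 i
  have a2 := hc2 t 0 j
  rw [← heq] at a2
  exact Set.disjoint_left.1 ((seq t 0).inc i j hij) a1 a2

end Scheme

end Pool.Agent.Helper747.PL
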