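import Mathlib
import Pool.Agent.Helper747.PLA

set_option autoImplicit false
open Set Topology Filter
open scoped Cardinal

namespace Pool.Agent.Helper747.PL

open Pool.Agent.Helper747.BL (Str X pre cyl pre_length pre_prefix mem_cyl_pre prefix_iff_of_mem
  mem_cyl_iff cyl_mono cyl_disjoint isClopen_cyl)

lemma mk_X : #X = 𝔠 := by
  have : #X = 2 ^ (ℵ₀ : Cardinal) := by simp [X]
  rw [this, Cardinal.two_power_aleph0]

/-- selection along a well order of type continuum -/
theorem exists_selection_wo (n : (𝔠 : Cardinal.{0}).ord.ToType → ℕ)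
    (c : ∀ a, X → Fin (n a) → X)
    (hc : ∀ a t i t' j, c a t i = c a t' j → t = t' ∧ i = j) :
    ∃ t : (𝔠 : Cardinal.{0}).ord.ToType → X, ∀ a b, b < a → ∀ i j, c a (t a) i ≠ c b (t b) j := by
  classical
  let A := (𝔠 : Cardinal.{0}).ord.ToType
  let F : ∀ a : A, (∀ b : A, b < a → X) → X := fun a prev =>
    if h : ∃ t : X, ∀ b (hb : b < a) i j, c a t i ≠ c b (prev b hb) j then h.choose
    else fun _ => false
  let t : A → X := (wellFounded_lt (α := A)).fix F
  have ht : ∀ a, t a = F a (fun b _ => t b) := fun a => (wellFounded_lt (α := A)).fix_eq F a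
  refine ⟨t, fun a => ?_⟩
  have hex : ∃ s : X, ∀ b (_ : b < a) i j, c a s i ≠ c b (t b) j := by
    by_contra hcon
    push Not at hcon
    choose b hb i j hij using hcon
    let Φ : X → (Set.Iio a) × ℕ × ℕ := fun s => (⟨b s, hb s⟩, (i s : ℕ), (j s : ℕ))
    have hΦ : Function.Injective Φ := by
      intro s s' hss
      have h1 : b s = b s' := congrArg (fun p => p.1.1) hss
      have h2 : (i s : ℕ) = (i s' : ℕ) := congrArg (fun p => p.2.1) hss
      have h3 : (j s : ℕ) = (j s' : ℕ) := congrArg (fun p => p.2.2) hss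
      have h5 : c a s (i s) = c a s' (i s') := by
        rw [hij s, hij s']
        have : ∀ (b₁ b₂ : A) (j₁ : Fin (n b₁)) (j₂ : Fin (n b₂)), b₁ = b₂ → (j₁ : ℕ) = (j₂ : ℕ) →
            c b₁ (t b₁) j₁ = c b₂ (t b₂) j₂ := by
          intro b₁ b₂ j₁ j₂ hb hj
          subst hb
          have : j₁ = j₂ := Fin.ext hj
          rw [this]
        exact this _ _ _ _ h1 h3
      exact (hc a s (i s) s' (i s') h5).1
    have h1 : #X ≤ #((Set.Iio a) × ℕ × ℕ) := Cardinal.mk_le_of_injective hΦ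
    have h2 : #((Set.Iio a) × ℕ × ℕ) < 𝔠 := by
      have h3 : #(Set.Iio a) < 𝔠 := by
        have := Cardinal.mk_Iio_lt a (by simp)
        simpa using this
      have h4 : #((Set.Iio a) × ℕ × ℕ) = #(Set.Iio a) * #(ℕ × ℕ) := Cardinal.mul_def _ _ |>.symm
      rw [h4]
      refine Cardinal.mul_lt_of_lt Cardinal.aleph0_le_continuum h3 ?_
      exact lt_of_le_of_lt Cardinal.mk_le_aleph0 Cardinal.aleph0_lt_continuum
    rw [mk_X] at h1
    exact absurd (lt_of_le_of_lt h1 h2) (lt_irrefl _)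
  intro b hb i j
  have h1 : t a = hex.choose := by
    rw [ht]
    simp only [F]
    rw [dif_pos hex]
  rw [h1]
  exact hex.choose_spec b hb i j

theorem exists_selection {I : Type} [Nonempty I] (hI : #I ≤ 𝔠) (n : I → ℕ)
    (c : ∀ a, X → Fin (n a) → X)
    (hc : ∀ a t i t' j, c a t i = c a t' j → t = t' ∧ i = j) :
    ∃ t : I → X, ∀ a b, a ≠ b → ∀ i j, c a (t a) i ≠ c b (t b) j := by
  have h1 : #I ≤ #(𝔠 : Cardinal.{0}).ord.ToType := by
    rw [Cardinal.mk_ord_toType]
    exact hI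
  obtain ⟨e⟩ := Cardinal.le_def _ _ |>.1 h1
  obtain ⟨t, ht⟩ := exists_selection_wo (fun a => n (Function.invFun e a))
    (fun a => c (Function.invFun e a)) (fun a => hc _)
  refine ⟨fun a => t (e a), fun a b hab i j => ?_⟩
  have hinv : ∀ a, Function.invFun e (e a) = a := fun a =>
    Function.leftInverse_invFun e.injective a
  have key : ∀ a b, e b < e a → ∀ i j, c a (t (e a)) i ≠ c b (t (e b)) j := by
    intro a b hlt i j
    have h2 := ht (e a) (e b) hlt
    rw [hinv a, hinv b] at h2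
    exact h2 i j
  rcases lt_trichotomy (e a) (e b) with h | h | h
  · exact fun heq => key b a h j i heq.symm
  · exact absurd (e.injective h) hab
  · exact key a b h i j

/-- the closed set with code `A` -/
def cl {n : ℕ} (A : Set (Fin n → Str)) : Set (Fin n → X) := (⋃ u ∈ A, box u)ᶜ

lemma isClosed_cl {n : ℕ} (A : Set (Fin n → Str)) : IsClosed (cl A) :=
  (isOpen_biUnion fun u _ => (isClopen_box u).isOpen).isClosed_compl

lemma exists_code {n : ℕ} {C : Set (Fin n → X)} (hC : IsClosed C) : ∃ A, C = cl A := by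
  refine ⟨{u | Disjoint (box u) C}, ?_⟩
  apply Set.Subset.antisymm
  · intro x hx hx2
    simp only [Set.mem_iUnion] at hx2
    obtain ⟨u, hu, hxu⟩ := hx2
    exact Set.disjoint_left.1 hu hxu hx
  · intro x hx
    by_contra hxC
    obtain ⟨m, hm⟩ := exists_box_subset hC.isOpen_compl hxC
    apply hx
    simp only [Set.mem_iUnion]
    exact ⟨fun i => pre (x i) m, Set.disjoint_left.2 fun y hy hyC => hm hy hyC, mem_box_pre x m⟩

/-- A generic sequence of disjoint sets. -/
theorem exists_generic : ∃ T : ℕ → Set X, (∀ i j, i ≠ j → Disjoint (T i) (T j)) ∧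
    (∀ i, ¬ (T i).Countable) ∧
    ∀ (n : ℕ) (C : Set (Fin n → X)), IsClosed C → ∀ e : Fin n → ℕ,
      (∀ x ∈ C, ¬ ∀ i, x i ∈ T (e i)) → Small C := by
  classical
  let B : Type := {p : Σ n : ℕ, Set (Fin n → Str) × (Fin n → ℕ) // ¬ Small (cl p.2.1)}
  choose c hc1 hc2 using fun p : B => exists_family (isClosed_cl p.1.2.1) p.2
  have hone : ∀ j : ℕ, ∃ p : B, ∃ h : p.1.1 = 1, ∀ i, p.1.2.2 i = j := by
    intro j
    refine ⟨⟨⟨1, ∅, fun _ => j⟩, ?_⟩, rfl, fun _ => rfl⟩
    rintro ⟨S, hS, hS2⟩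
    have h1 : (Set.univ : Set X) ⊆ S := by
      intro y _
      obtain ⟨i, hi⟩ := hS2 (fun _ => y) (by simp [cl]) (fun i j _ => Subsingleton.elim i j)
      exact hi
    have h2 : (Set.univ : Set X).Countable := hS.mono h1
    have h3 : #X ≤ ℵ₀ := by
      rw [← Cardinal.mk_univ]
      exact h2.le_aleph0
    rw [mk_X] at h3
    exact absurd h3 (not_le.2 Cardinal.aleph0_lt_continuum)
  haveI : Nonempty B := ⟨(hone 0).choose⟩
  have hcard : #(B × X) ≤ 𝔠 := by
    have h1 : #B ≤ 𝔠 := by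
      refine (Cardinal.mk_subtype_le _).trans ?_
      rw [Cardinal.mk_sigma]
      have h2 : ∀ n : ℕ, #(Set (Fin n → Str) × (Fin n → ℕ)) ≤ 𝔠 := by
        intro n
        have h3 : #(Set (Fin n → Str)) ≤ 𝔠 := by
          rw [Cardinal.mk_set]
          calc (2 : Cardinal) ^ #(Fin n → Str) ≤ 2 ^ (ℵ₀ : Cardinal) :=
                Cardinal.power_le_power_left two_ne_zero Cardinal.mk_le_aleph0
            _ = 𝔠 := Cardinal.two_power_aleph0
        have h4 : #(Fin n → ℕ) ≤ 𝔠 :=
          Cardinal.mk_le_aleph0.trans Cardinal.aleph0_le_continuum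
        have h5 : #(Set (Fin n → Str) × (Fin n → ℕ)) = #(Set (Fin n → Str)) * #(Fin n → ℕ) :=
          Cardinal.mul_def _ _ |>.symm
        rw [h5]
        calc #(Set (Fin n → Str)) * #(Fin n → ℕ) ≤ 𝔠 * 𝔠 := mul_le_mul' h3 h4
          _ = 𝔠 := Cardinal.continuum_mul_self
      calc Cardinal.sum (fun n : ℕ => #(Set (Fin n → Str) × (Fin n → ℕ)))
          ≤ Cardinal.sum (fun _ : ℕ => 𝔠) := Cardinal.sum_le_sum _ _ h2
        _ = ℵ₀ * 𝔠 := by rw [Cardinal.sum_const]; simp
        _ = 𝔠 := Cardinal.aleph0_mul_continuum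
    have h2 : #(B × X) = #B * #X := Cardinal.mul_def _ _ |>.symm
    rw [h2, mk_X]
    calc #B * 𝔠 ≤ 𝔠 * 𝔠 := mul_le_mul' h1 le_rfl
      _ = 𝔠 := Cardinal.continuum_mul_self
  obtain ⟨t, ht⟩ := exists_selection (I := B × X) hcard (fun p => p.1.1.1) (fun p => c p.1)
    (fun p => hc2 p.1)
  let T : ℕ → Set X := fun j => {y | ∃ (p : B × X) (i : Fin p.1.1.1), p.1.1.2.2 i = j ∧
    y = c p.1 (t p) i}
  refine ⟨T, ?_, ?_, ?_⟩
  · intro j j' hjj
    rw [Set.disjoint_left]
    rintro y ⟨p, i, h1, h2⟩ ⟨p', i', h3, h4⟩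
    by_cases hpp : p = p'
    · subst hpp
      have := (hc2 p.1 _ _ _ _ (h2.symm.trans h4)).2
      rw [this] at h1
      exact hjj (h1.symm.trans h3)
    · exact ht p p' hpp i i' (h2.symm.trans h4)
  · intro j hj
    obtain ⟨p, hp, hpj⟩ := hone j
    have i0 : Fin p.1.1 := ⟨0, by rw [hp]; exact one_pos⟩
    let Φ : X → T j := fun s => ⟨c p (t (p, s)) i0, (p, s), i0, hpj i0, rfl⟩
    have hΦ : Function.Injective Φ := by
      intro s s' hss
      by_contra hne
      have h1 : c p (t (p, s)) i0 = c p (t (p, s')) i0 := congrArg Subtype.val hss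
      exact ht (p, s) (p, s') (fun h => hne (congrArg Prod.snd h)) i0 i0 h1
    have h1 : #X ≤ #(T j) := Cardinal.mk_le_of_injective hΦ
    rw [mk_X] at h1
    exact absurd (h1.trans hj.le_aleph0) (not_le.2 Cardinal.aleph0_lt_continuum)
  · intro n C hC e hCe
    by_contra hs
    obtain ⟨A, rfl⟩ := exists_code hC
    let p : B := ⟨⟨n, A, e⟩, hs⟩
    refine hCe (c p (t (p, fun _ => false))) (hc1 p _) fun i => ?_
    exact ⟨(p, fun _ => false), i, rfl, rfl⟩

end Pool.Agent.Helper747.PL
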