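import Mathlib
import Pool.Agent.Helper747.PLB

set_option autoImplicit false
open Set Topology Filter

namespace Pool.Agent.Helper747.PL

open Pool.Agent.Helper747.BL (Str X pre cyl pre_length pre_prefix mem_cyl_pre prefix_iff_of_mem
  mem_cyl_iff cyl_mono cyl_disjoint isClopen_cyl)

/-- `S j` is the set of points with label `j`, `N j` the set of those with Euclidean
neighbourhoods. -/
structure Data (J : Type) where
  S : J → Set X
  N : J → Set X
  sub : ∀ j, N j ⊆ S j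

/-- the space of the data -/
def Sp {J : Type} (D : Data J) : Type := {q : J × X // q.2 ∈ D.S q.1}

variable {J : Type} {D : Data J}

/-- label -/
def lab (x : Sp D) : J := x.1.1

/-- point -/
def pt (x : Sp D) : X := x.1.2

lemma pt_mem (x : Sp D) : pt x ∈ D.S (lab x) := x.2

lemma sp_ext {x y : Sp D} (h1 : lab x = lab y) (h2 : pt x = pt y) : x = y :=
  Subtype.ext (Prod.ext h1 h2)

/-- basic neighbourhoods -/
def Near (m : ℕ) (x y : Sp D) : Prop :=
  y = x ∨ (pt x ∈ D.N (lab x) ∧ lab y = lab x ∧ pt y ∈ cyl (pre (pt x) m))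

lemma Near.mono {m m' : ℕ} (h : m ≤ m') {x y : Sp D} (hn : Near m' x y) : Near m x y := by
  rcases hn with h1 | ⟨h1, h2, h3⟩
  · exact Or.inl h1
  · exact Or.inr ⟨h1, h2, cyl_mono (pre_prefix _ h) h3⟩

lemma Near.refl (m : ℕ) (x : Sp D) : Near m x x := Or.inl rfl

instance : TopologicalSpace (Sp D) where
  IsOpen U := ∀ x ∈ U, ∃ m, ∀ y, Near m x y → y ∈ U
  isOpen_univ := fun _ _ => ⟨0, fun _ _ => Set.mem_univ _⟩
  isOpen_inter := by
    intro U V hU hV x hx
    obtain ⟨m, hm⟩ := hU x hx.1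
    obtain ⟨m', hm'⟩ := hV x hx.2
    exact ⟨max m m', fun y hy => ⟨hm y (hy.mono (le_max_left _ _)),
      hm' y (hy.mono (le_max_right _ _))⟩⟩
  isOpen_sUnion := by
    intro s hs x hx
    obtain ⟨U, hU, hxU⟩ := hx
    obtain ⟨m, hm⟩ := hs U hU x hxU
    exact ⟨m, fun y hy => ⟨U, hU, hm y hy⟩⟩

lemma isOpen_def {U : Set (Sp D)} : IsOpen U ↔ ∀ x ∈ U, ∃ m, ∀ y, Near m x y → y ∈ U := Iff.rfl

lemma mem_cyl_pre_eq {x y : X} {m : ℕ} (h : y ∈ cyl (pre x m)) : pre y m = pre x m := by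
  have : pre y (pre x m).length = pre x m := h
  rwa [pre_length] at this

/-- sets given by a label and a cylinder -/
def piece (j : J) (σ : Str) : Set (Sp D) := {y | lab y = j ∧ pt y ∈ cyl σ}

lemma isClopen_piece (j : J) (σ : Str) : IsClopen (piece (D := D) j σ) := by
  constructor
  · rw [← isOpen_compl_iff]
    intro x hx
    refine ⟨σ.length, fun y hy hy2 => hx ?_⟩
    rcases hy with rfl | ⟨_, h2, h3⟩
    · exact hy2
    · refine ⟨h2.symm.trans hy2.1, ?_⟩
      have h4 := mem_cyl_pre_eq h3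
      have h5 : pre (pt y) σ.length = σ := hy2.2
      change pre (pt x) σ.length = σ
      rw [← h4, h5]
  · intro x hx
    refine ⟨σ.length, fun y hy => ?_⟩
    rcases hy with rfl | ⟨_, h2, h3⟩
    · exact hx
    · refine ⟨h2.trans hx.1, ?_⟩
      have h4 := mem_cyl_pre_eq h3
      have h5 : pre (pt x) σ.length = σ := hx.2
      change pre (pt y) σ.length = σ
      rw [h4, h5]

lemma isOpen_singleton_of {x : Sp D} (h : pt x ∉ D.N (lab x)) : IsOpen ({x} : Set (Sp D)) := by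
  rintro y hy
  rw [Set.mem_singleton_iff] at hy
  subst hy
  refine ⟨0, fun z hz => ?_⟩
  rcases hz with rfl | ⟨h1, _⟩
  · rfl
  · exact absurd h1 h

lemma isOpen_near (m : ℕ) (x : Sp D) : IsOpen {y | Near m x y} := by
  rintro y hy
  rcases hy with rfl | ⟨h1, h2, h3⟩
  · exact ⟨m, fun z hz => hz⟩
  · refine ⟨m, fun z hz => ?_⟩
    rcases hz with rfl | ⟨_, h5, h6⟩
    · exact Or.inr ⟨h1, h2, h3⟩
    · refine Or.inr ⟨h1, h5.trans h2, ?_⟩
      rwa [mem_cyl_pre_eq h3] at h6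

lemma isOpen_lab (A : Set J) : IsOpen {y : Sp D | lab y ∈ A} := by
  intro x hx
  refine ⟨0, fun y hy => ?_⟩
  rcases hy with rfl | ⟨_, h2, _⟩
  · exact hx
  · change lab y ∈ A
    rw [h2]
    exact hx

lemma exists_clopen {x y : Sp D} (h : x ≠ y) : ∃ U : Set (Sp D), IsClopen U ∧ x ∈ U ∧ y ∉ U := by
  by_cases h1 : lab x = lab y
  · have h2 : pt x ≠ pt y := fun h2 => h (sp_ext h1 h2)
    obtain ⟨m, hm⟩ := (eventually_pre_ne h2).exists
    refine ⟨piece (lab x) (pre (pt x) m), isClopen_piece _ _, ⟨rfl, mem_cyl_pre _ _⟩, ?_⟩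
    rintro ⟨_, h3⟩
    exact hm (mem_cyl_pre_eq h3).symm
  · refine ⟨piece (lab x) [], isClopen_piece _ _, ⟨rfl, by simp [cyl, pre]⟩, ?_⟩
    rintro ⟨h3, _⟩
    exact h1 h3.symm

instance : T2Space (Sp D) := by
  refine ⟨fun x y h => ?_⟩
  obtain ⟨U, h1, h2, h3⟩ := exists_clopen h
  exact ⟨U, Uᶜ, h1.isOpen, h1.compl.isOpen, h2, h3, disjoint_compl_right⟩

section Power
variable {n : ℕ}

lemma exists_near_subset {U : Set (Fin n → Sp D)} (hU : IsOpen U) {p : Fin n → Sp D}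
    (hp : p ∈ U) : ∃ m, ∀ q, (∀ l, Near m (p l) (q l)) → q ∈ U := by
  obtain ⟨u, h1, h2⟩ := isOpen_pi_iff'.1 hU p hp
  have h3 : ∀ l, ∃ m, ∀ y, Near m (p l) y → y ∈ u l := fun l => (h1 l).1 (p l) (h1 l).2
  choose m hm using h3
  refine ⟨Finset.univ.sup m, fun q hq => h2 fun l _ => hm l _ ?_⟩
  exact (hq l).mono (Finset.le_sup (Finset.mem_univ l))

/-- rectangles -/
def rect (e : Fin n → J) (u : Fin n → Str) : Set (Fin n → Sp D) :=
  {q | ∀ l, q l ∈ piece (D := D) (e l) (u l)}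

lemma isClopen_rect (e : Fin n → J) (u : Fin n → Str) : IsClopen (rect (D := D) e u) := by
  have : rect (D := D) e u = ⋂ l, (fun q : Fin n → Sp D => q l) ⁻¹' piece (e l) (u l) := by
    ext q
    simp [rect]
  rw [this]
  exact isClopen_iInter_of_finite fun l => (isClopen_piece _ _).preimage (continuous_apply l)

/-- points outside the good rectangles have a coordinate in a countable set -/
theorem cover_lemma [Countable J] {T : ℕ → Set X}
    (hT : ∀ (n : ℕ) (C : Set (Fin n → X)), IsClosed C → ∀ e : Fin n → ℕ,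
      (∀ x ∈ C, ¬ ∀ i, x i ∈ T (e i)) → Small C)
    {ι : Type} {U : ι → Set (Fin n → Sp D)} (hU : ∀ i, IsOpen (U i)) (hcov : ⋃ i, U i = univ) :
    ∃ S : Set X, S.Countable ∧ ∀ p : Fin n → Sp D,
      (∀ e u, (∃ i, rect (D := D) e u ⊆ U i) → p ∉ rect (D := D) e u) →
      (∀ l₀, ∃ k, ∀ l, pt (p l) = pt (p l₀) → T k ⊆ D.N (lab (p l))) → ∃ l, pt (p l) ∈ S := by
  classical
  -- the closed sets
  let C : (Fin n → J) → Set (Fin n → X) := fun e =>
    {x | ∀ u : Fin n → Str, (∃ i, rect (D := D) e u ⊆ U i) → x ∉ box u}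
  have hC : ∀ e, IsClosed (C e) := by
    intro e
    have : C e = (⋃ u ∈ {u : Fin n → Str | ∃ i, rect (D := D) e u ⊆ U i}, box u)ᶜ := by
      ext x
      simp only [C, Set.mem_ofPred_eq, Set.mem_compl_iff, Set.mem_iUnion, not_exists]
    rw [this]
    exact (isOpen_biUnion fun u _ => (isClopen_box u).isOpen).isClosed_compl
  have hCN : ∀ e, ∀ x ∈ C e, ¬ ∀ l, x l ∈ D.N (e l) := by
    intro e x hx hN
    let p : Fin n → Sp D := fun l => ⟨(e l, x l), D.sub _ (hN l)⟩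
    have hp : p ∈ ⋃ i, U i := by rw [hcov]; exact Set.mem_univ _
    obtain ⟨i, hi⟩ := Set.mem_iUnion.1 hp
    obtain ⟨m, hm⟩ := exists_near_subset (hU i) hi
    refine hx (fun l => pre (x l) m) ⟨i, ?_⟩ (mem_box_pre x m)
    intro q hq
    refine hm q fun l => Or.inr ⟨hN l, ?_, ?_⟩
    · exact (hq l).1
    · exact (hq l).2
  -- index of patterns
  let Q : Type := Σ n' : ℕ, (Fin n → Fin n') × (Fin n → J) × (Fin n' → ℕ)
  have hpull : ∀ c : Q, IsClosed {q : Fin c.1 → X | q ∘ c.2.1 ∈ C c.2.2.1} := by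
    intro c
    refine (hC c.2.2.1).preimage ?_
    exact continuous_pi fun l => continuous_apply _
  have hex : ∀ c : Q, ∃ S : Set X, S.Countable ∧
      ((∀ x ∈ {q : Fin c.1 → X | q ∘ c.2.1 ∈ C c.2.2.1}, ¬ ∀ i, x i ∈ T (c.2.2.2 i)) →
        ∀ x ∈ {q : Fin c.1 → X | q ∘ c.2.1 ∈ C c.2.2.1}, Function.Injective x → ∃ i, x i ∈ S) := by
    intro c
    by_cases h : ∀ x ∈ {q : Fin c.1 → X | q ∘ c.2.1 ∈ C c.2.2.1}, ¬ ∀ i, x i ∈ T (c.2.2.2 i)
    · obtain ⟨S, h1, h2⟩ := hT c.1 _ (hpull c) c.2.2.2 h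
      exact ⟨S, h1, fun _ => h2⟩
    · exact ⟨∅, Set.countable_empty, fun h' => absurd h' h⟩
  choose S hS1 hS2 using hex
  refine ⟨⋃ c, S c, Set.countable_iUnion hS1, fun p hp hfree => ?_⟩
  -- decompose the point
  let R : Finset X := Finset.univ.image fun l => pt (p l)
  let eq : R ≃ Fin R.card := R.equivFin
  let π : Fin n → Fin R.card := fun l => eq ⟨pt (p l), Finset.mem_image_of_mem _ (Finset.mem_univ l)⟩
  let q : Fin R.card → X := fun i => (eq.symm i).1
  have hq : ∀ l, q (π l) = pt (p l) := by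
    intro l
    simp [q, π]
  have hqinj : Function.Injective q := fun i j hij => eq.symm.injective (Subtype.ext hij)
  have hsurj : ∀ i, ∃ l, π l = i := by
    intro i
    obtain ⟨l, _, hl⟩ := Finset.mem_image.1 (eq.symm i).2
    refine ⟨l, ?_⟩
    apply hqinj
    rw [hq, hl]
  choose l₀ hl₀ using hsurj
  choose k hk using hfree
  let c : Q := ⟨R.card, π, fun l => lab (p l), fun i => k (l₀ i)⟩
  have hqC : q ∘ π ∈ C (fun l => lab (p l)) := by
    intro u hu hx
    refine hp _ u hu fun l => ⟨rfl, ?_⟩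
    have := hx l
    rwa [Function.comp_apply, hq] at this
  have hmiss : ∀ x ∈ {q : Fin c.1 → X | q ∘ c.2.1 ∈ C c.2.2.1}, ¬ ∀ i, x i ∈ T (c.2.2.2 i) := by
    intro x hx hxT
    refine hCN _ _ hx fun l => ?_
    have h1 := hxT (π l)
    have h2 : pt (p l) = pt (p (l₀ (π l))) := by
      rw [← hq l, ← hq (l₀ (π l)), hl₀]
    exact hk (l₀ (π l)) l h2 h1
  obtain ⟨i, hi⟩ := hS2 c hmiss q hqC hqinj
  refine ⟨l₀ i, Set.mem_iUnion.2 ⟨c, ?_⟩⟩
  rw [← hq, hl₀]
  exact hi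

end Power

end Pool.Agent.Helper747.PL
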