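import Mathlib
import Pool.Agent.Helper747.PLC

set_option autoImplicit false
open Set Topology Filter

namespace Pool.Agent.Helper747.PL

open Pool.Agent.Helper747.BL (Str X pre cyl pre_length pre_prefix mem_cyl_pre prefix_iff_of_mem
  mem_cyl_iff cyl_mono cyl_disjoint isClopen_cyl)

/-- every open cover has a locally constant choice function -/
def UP (P : Type) [TopologicalSpace P] : Prop :=
  ∀ (ι : Type) (U : ι → Set P), (∀ i, IsOpen (U i)) → (⋃ i, U i = univ) →
    ∃ g : P → ι, (∀ p, ∀ᶠ q in 𝓝 p, g q = g p) ∧ ∀ p, p ∈ U (g p)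

theorem UP.paracompact {P : Type} [TopologicalSpace P] (h : UP P) : ParacompactSpace P := by
  refine ⟨fun ι U hU hcov => ?_⟩
  obtain ⟨g, h1, h2⟩ := h ι U hU hcov
  refine ⟨ι, fun i => {p | g p = i}, ?_, ?_, ?_, ?_⟩
  · intro i
    rw [isOpen_iff_mem_nhds]
    intro p hp
    filter_upwards [h1 p] with q hq
    rw [hq]
    exact hp
  · ext p
    simp
  · intro p
    refine ⟨{q | g q = g p}, h1 p, ?_⟩
    refine (Set.finite_singleton (g p)).subset ?_
    rintro i ⟨q, hq1, hq2⟩
    have h3 : g q = i := hq1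
    have h4 : g q = g p := hq2
    rw [Set.mem_singleton_iff, ← h3, h4]
  · intro i
    refine ⟨i, ?_⟩
    rintro p hp
    have h3 : g p = i := hp
    rw [← h3]
    exact h2 p

section Good
variable {P : Type} [TopologicalSpace P] {ι : Type}

/-- clopen sets on which there is a locally constant choice function -/
def Good (U : ι → Set P) (G : Set P) : Prop :=
  IsClopen G ∧ ∃ g : P → ι, ∀ p ∈ G, (∀ᶠ q in 𝓝 p, g q = g p) ∧ p ∈ U (g p)

lemma good_of_subset {U : ι → Set P} {G : Set P} (hG : IsClopen G) {i : ι} (h : G ⊆ U i) :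
    Good U G := ⟨hG, fun _ => i, fun _ hp => ⟨Eventually.of_forall fun _ => rfl, h hp⟩⟩

theorem exists_choice {U : ι → Set P} (𝒢 : Set (Set P)) (hc : 𝒢.Countable)
    (hG : ∀ G ∈ 𝒢, Good U G) (hcov : ∀ p, ∃ G ∈ 𝒢, p ∈ G) :
    ∃ g : P → ι, (∀ p, ∀ᶠ q in 𝓝 p, g q = g p) ∧ ∀ p, p ∈ U (g p) := by
  classical
  rcases isEmpty_or_nonempty P with he | ⟨⟨p₀⟩⟩
  · exact ⟨fun p => he.elim p, fun p => he.elim p, fun p => he.elim p⟩
  obtain ⟨G₀, hG₀, _⟩ := hcov p₀
  obtain ⟨F, hF⟩ := hc.exists_eq_range ⟨G₀, hG₀⟩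
  have hF1 : ∀ n, Good U (F n) := fun n => hG _ (by rw [hF]; exact ⟨n, rfl⟩)
  choose hcl g hg using hF1
  have hex : ∀ p, ∃ n, p ∈ F n := by
    intro p
    obtain ⟨G, h1, h2⟩ := hcov p
    rw [hF] at h1
    obtain ⟨n, rfl⟩ := h1
    exact ⟨n, h2⟩
  refine ⟨fun p => g (Nat.find (hex p)) p, fun p => ?_, fun p => ?_⟩
  · have h1 : p ∈ F (Nat.find (hex p)) := Nat.find_spec (hex p)
    have h2 : ∀ m < Nat.find (hex p), p ∉ F m := fun m hm => Nat.find_min (hex p) hm
    have h3 : ∀ᶠ q in 𝓝 p, q ∈ F (Nat.find (hex p)) := (hcl _).isOpen.mem_nhds h1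
    have h4 : ∀ᶠ q in 𝓝 p, ∀ m ∈ Finset.range (Nat.find (hex p)), q ∉ F m := by
      rw [Filter.eventually_all_finset]
      intro m hm
      exact (hcl m).compl.isOpen.mem_nhds (h2 m (Finset.mem_range.1 hm))
    filter_upwards [h3, h4, (hg _ p h1).1] with q q1 q2 q3
    have h5 : Nat.find (hex q) = Nat.find (hex p) := by
      refine le_antisymm (Nat.find_min' (hex q) q1) ?_
      by_contra hlt
      push Not at hlt
      exact q2 _ (Finset.mem_range.2 hlt) (Nat.find_spec (hex q))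
    simp only [h5]
    exact q3
  · exact (hg _ p (Nat.find_spec (hex p))).2

end Good

section Hyper
variable {J : Type} {D : Data J} {n : ℕ}

lemma isClopen_near (m : ℕ) (x : Sp D) : IsClopen {y | Near m x y} := by
  by_cases h : pt x ∈ D.N (lab x)
  · have : {y | Near m x y} = piece (lab x) (pre (pt x) m) := by
      ext y
      constructor
      · rintro (rfl | ⟨_, h2, h3⟩)
        · exact ⟨rfl, mem_cyl_pre _ _⟩
        · exact ⟨h2, h3⟩
      · rintro ⟨h2, h3⟩
        exact Or.inr ⟨h, h2, h3⟩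
    rw [this]
    exact isClopen_piece _ _
  · have : {y | Near m x y} = {x} := by
      ext y
      constructor
      · rintro (rfl | ⟨h1, _⟩)
        · rfl
        · exact absurd h1 h
      · rintro rfl
        exact Near.refl _ _
    rw [this]
    exact ⟨isClosed_singleton, isOpen_singleton_of h⟩

lemma isOpen_nears (m : ℕ) (p : Fin n → Sp D) : IsOpen {q : Fin n → Sp D | ∀ l, Near m (p l) (q l)} := by
  have : {q : Fin n → Sp D | ∀ l, Near m (p l) (q l)} =
      ⋂ l, (fun q : Fin n → Sp D => q l) ⁻¹' {y | Near m (p l) y} := by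
    ext q
    simp
  rw [this]
  exact isOpen_iInter_of_finite fun l => (isOpen_near m (p l)).preimage (continuous_apply l)

theorem good_hyper (hUP : UP (Fin n → Sp D)) {ι : Type} {U : ι → Set (Fin (n + 1) → Sp D)}
    (hU : ∀ i, IsOpen (U i)) (hcov : ⋃ i, U i = univ) (l : Fin (n + 1)) (x : Sp D) :
    ∃ G, Good U G ∧ ∀ p : Fin (n + 1) → Sp D, p l = x → p ∈ G := by
  let U' : ι × ℕ → Set (Fin n → Sp D) := fun im => {e | ∃ O : Set (Fin n → Sp D), IsOpen O ∧
    e ∈ O ∧ ∀ y, Near im.2 x y → ∀ e' ∈ O, (l.insertNth y e' : Fin (n + 1) → Sp D) ∈ U im.1}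
  have hU' : ∀ im, IsOpen (U' im) := by
    intro im
    rw [isOpen_iff_mem_nhds]
    rintro e ⟨O, h1, h2, h3⟩
    filter_upwards [h1.mem_nhds h2] with e' he'
    exact ⟨O, h1, he', h3⟩
  have hcov' : ⋃ im, U' im = univ := by
    rw [Set.eq_univ_iff_forall]
    intro e
    have h1 : (l.insertNth x e : Fin (n + 1) → Sp D) ∈ ⋃ i, U i := by
      rw [hcov]; exact Set.mem_univ _
    obtain ⟨i, hi⟩ := Set.mem_iUnion.1 h1
    obtain ⟨m, hm⟩ := exists_near_subset (hU i) hi
    refine Set.mem_iUnion.2 ⟨(i, m), {e' | ∀ k, Near m (e k) (e' k)}, isOpen_nears m e,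
      fun k => Near.refl _ _, fun y hy e' he' => hm _ ?_⟩
    rw [Fin.forall_iff_succAbove l]
    refine ⟨?_, fun k => ?_⟩
    · simpa using hy
    · simpa using he' k
  obtain ⟨g', h1, h2⟩ := hUP (ι × ℕ) U' hU' hcov'
  have hcont : Continuous fun p : Fin (n + 1) → Sp D => l.removeNth p :=
    continuous_pi fun k => continuous_apply (l.succAbove k)
  have hloc : ∀ p : Fin (n + 1) → Sp D, ∀ᶠ q in 𝓝 p,
      g' (l.removeNth q) = g' (l.removeNth p) := fun p => hcont.continuousAt.eventually (h1 _)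
  refine ⟨{p | Near (g' (l.removeNth p)).2 x (p l)}, ⟨?_, fun p => (g' (l.removeNth p)).1,
    fun p hp => ⟨?_, ?_⟩⟩, ?_⟩
  · constructor
    · rw [← isOpen_compl_iff, isOpen_iff_mem_nhds]
      intro p hp
      have h3 : ∀ᶠ q in 𝓝 p, q l ∉ {y | Near (g' (l.removeNth p)).2 x y} :=
        (continuous_apply l).continuousAt.eventually
          ((isClopen_near _ x).compl.isOpen.mem_nhds hp)
      filter_upwards [h3, hloc p] with q q1 q2 q3
      apply q1
      change Near (g' (l.removeNth q)).2 x (q l) at q3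
      rw [q2] at q3
      exact q3
    · rw [isOpen_iff_mem_nhds]
      intro p hp
      have h3 : ∀ᶠ q in 𝓝 p, q l ∈ {y | Near (g' (l.removeNth p)).2 x y} :=
        (continuous_apply l).continuousAt.eventually ((isClopen_near _ x).isOpen.mem_nhds hp)
      filter_upwards [h3, hloc p] with q q1 q2
      rw [q2]
      exact q1
  · filter_upwards [hloc p] with q hq
    rw [hq]
  · obtain ⟨O, _, h4, h5⟩ := h2 (l.removeNth p)
    have h6 := h5 (p l) hp _ h4
    rwa [Fin.insertNth_self_removeNth] at h6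
  · rintro p rfl
    exact Near.refl _ _

theorem good_isolated (hUP : UP (Fin n → Sp D)) {ι : Type} {U : ι → Set (Fin (n + 1) → Sp D)}
    (hU : ∀ i, IsOpen (U i)) (hcov : ⋃ i, U i = univ) (l : Fin (n + 1))
    {E : Set (Fin (n + 1) → Sp D)} (hE : IsClopen E)
    (hiso : ∀ p ∈ E, pt (p l) ∉ D.N (lab (p l))) : Good U E := by
  choose G hG hGx using fun x => good_hyper hUP hU hcov l x
  choose hcl g hg using hG
  refine ⟨hE, fun p => g (p l) p, fun p hp => ⟨?_, ?_⟩⟩
  · have h1 : ∀ᶠ q in 𝓝 p, q l = p l :=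
      (continuous_apply l).continuousAt.eventually
        ((isOpen_singleton_of (hiso p hp)).mem_nhds rfl)
    filter_upwards [h1, (hg (p l) p (hGx _ p rfl)).1] with q q1 q2
    rw [q1]
    exact q2
  · exact (hg (p l) p (hGx _ p rfl)).2

/-- a point is free if every block has a generic set in all its Euclidean parts -/
def Free (T : ℕ → Set X) (p : Fin n → Sp D) : Prop :=
  ∀ l₀, ∃ k, ∀ l, pt (p l) = pt (p l₀) → T k ⊆ D.N (lab (p l))

lemma countable_pts [Countable J] {S : Set X} (hS : S.Countable) :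
    {x : Sp D | pt x ∈ S}.Countable := by
  have h1 : ((Set.univ : Set J) ×ˢ S).Countable := (Set.countable_univ).prod hS
  have h2 : {x : Sp D | pt x ∈ S} = (fun x : Sp D => x.1) ⁻¹' ((Set.univ : Set J) ×ˢ S) := by
    ext x
    simp [pt]
  rw [h2]
  exact h1.preimage_of_injOn (Subtype.val_injective.injOn)

/-- ultraparacompactness of powers -/
theorem up_power [Countable J] {T : ℕ → Set X}
    (hT : ∀ (n : ℕ) (C : Set (Fin n → X)), IsClosed C → ∀ e : Fin n → ℕ,
      (∀ x ∈ C, ¬ ∀ i, x i ∈ T (e i)) → Small C) (n : ℕ)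
    (h : ∀ n' ≤ n, ∃ 𝓔 : Set (Set (Fin n' → Sp D)), 𝓔.Countable ∧
      (∀ E ∈ 𝓔, IsClopen E ∧ ∃ l, ∀ p ∈ E, pt (p l) ∉ D.N (lab (p l))) ∧
      ∀ p : Fin n' → Sp D, Free T p ∨ ∃ E ∈ 𝓔, p ∈ E) : UP (Fin n → Sp D) := by
  classical
  induction n with
  | zero =>
    intro ι U _ hcov
    have h0 : (fun l => Fin.elim0 l : Fin 0 → Sp D) ∈ ⋃ i, U i := by
      rw [hcov]; exact Set.mem_univ _
    obtain ⟨i, hi⟩ := Set.mem_iUnion.1 h0
    refine ⟨fun _ => i, fun p => Eventually.of_forall fun _ => rfl, fun p => ?_⟩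
    rwa [Subsingleton.elim p (fun l => Fin.elim0 l)]
  | succ n ih =>
    have hUP := ih fun n' hn' => h n' (hn'.trans (Nat.le_succ n))
    intro ι U hU hcov
    obtain ⟨𝓔, hE1, hE2, hE3⟩ := h (n + 1) le_rfl
    obtain ⟨S, hS1, hS2⟩ := cover_lemma hT hU hcov
    choose G hG hGx using fun (lx : Fin (n + 1) × Sp D) => good_hyper hUP hU hcov lx.1 lx.2
    let 𝒢 : Set (Set (Fin (n + 1) → Sp D)) :=
      {R | ∃ e u, R = rect (D := D) e u ∧ ∃ i, rect (D := D) e u ⊆ U i} ∪
      (𝓔 ∪ G '' {lx | pt lx.2 ∈ S})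
    refine exists_choice 𝒢 ?_ ?_ ?_
    · refine Set.Countable.union ?_ (hE1.union ?_)
      · have h1 : (Set.range fun eu : (Fin (n + 1) → J) × (Fin (n + 1) → Str) =>
            rect (D := D) eu.1 eu.2).Countable := Set.countable_range _
        refine h1.mono ?_
        rintro R ⟨e, u, rfl, _⟩
        exact ⟨(e, u), rfl⟩
      · refine Set.Countable.image ?_ G
        have h2 : {lx : Fin (n + 1) × Sp D | pt lx.2 ∈ S} =
            (Set.univ : Set (Fin (n + 1))) ×ˢ {x : Sp D | pt x ∈ S} := by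
          ext lx
          simp
        rw [h2]
        exact Set.countable_univ.prod (countable_pts hS1)
    · rintro R (⟨e, u, rfl, i, hi⟩ | hR | ⟨lx, _, rfl⟩)
      · exact good_of_subset (isClopen_rect e u) hi
      · obtain ⟨h1, l, h2⟩ := hE2 R hR
        exact good_isolated hUP hU hcov l h1 h2
      · exact hG lx
    · intro p
      by_cases h1 : ∀ e u, (∃ i, rect (D := D) e u ⊆ U i) → p ∉ rect (D := D) e u
      · rcases hE3 p with h2 | ⟨E, hE, hpE⟩
        · obtain ⟨l, hl⟩ := hS2 p h1 h2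
          exact ⟨G (l, p l), Or.inr (Or.inr ⟨(l, p l), hl, rfl⟩), hGx (l, p l) p rfl⟩
        · exact ⟨E, Or.inr (Or.inl hE), hpE⟩
      · push Not at h1
        obtain ⟨e, u, h2, h3⟩ := h1
        exact ⟨_, Or.inl ⟨e, u, rfl, h2⟩, h3⟩

/-- Lindelöf property of powers -/
theorem lindelof_power [Countable J] {T : ℕ → Set X}
    (hT : ∀ (n : ℕ) (C : Set (Fin n → X)), IsClosed C → ∀ e : Fin n → ℕ,
      (∀ x ∈ C, ¬ ∀ i, x i ∈ T (e i)) → Small C) (n : ℕ)
    (h : ∀ n' ≤ n, ∀ p : Fin n' → Sp D, Free T p) : LindelofSpace (Fin n → Sp D) := by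
  classical
  induction n with
  | zero => exact inferInstance
  | succ n ih =>
    have hL := ih fun n' hn' => h n' (hn'.trans (Nat.le_succ n))
    refine ⟨isLindelof_of_countable_subcover fun {ι} U hU hcov' => ?_⟩
    have hcov : ⋃ i, U i = univ := Set.univ_subset_iff.1 hcov'
    obtain ⟨S, hS1, hS2⟩ := cover_lemma hT hU hcov
    -- the hyperplanes
    have hH : ∀ lx : Fin (n + 1) × Sp D, IsLindelof {p : Fin (n + 1) → Sp D | p lx.1 = lx.2} := by
      intro lx
      have h1 : {p : Fin (n + 1) → Sp D | p lx.1 = lx.2} =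
          (fun e : Fin n → Sp D => (lx.1.insertNth lx.2 e : Fin (n + 1) → Sp D)) '' univ := by
        ext p
        constructor
        · intro hp
          refine ⟨lx.1.removeNth p, Set.mem_univ _, ?_⟩
          have hp' : p lx.1 = lx.2 := hp
          simp only
          rw [← hp', Fin.insertNth_self_removeNth]
        · rintro ⟨e, _, rfl⟩
          simp
      rw [h1]
      refine isLindelof_univ.image ?_
      refine continuous_pi fun k => ?_
      rcases Fin.eq_self_or_eq_succAbove lx.1 k with rfl | ⟨j, rfl⟩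
      · simpa using continuous_const
      · simpa using continuous_apply j
    have hcount : {lx : Fin (n + 1) × Sp D | pt lx.2 ∈ S}.Countable := by
      have h2 : {lx : Fin (n + 1) × Sp D | pt lx.2 ∈ S} =
          (Set.univ : Set (Fin (n + 1))) ×ˢ {x : Sp D | pt x ∈ S} := by
        ext lx
        simp
      rw [h2]
      exact Set.countable_univ.prod (countable_pts hS1)
    have hL2 := hcount.isLindelof_biUnion fun lx _ => hH lx
    obtain ⟨t, ht1, ht2⟩ := hL2.elim_countable_subcover U hU (by rw [hcov]; exact Set.subset_univ _)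
    -- the rectangles
    have hR : ∀ eu : {eu : (Fin (n + 1) → J) × (Fin (n + 1) → Str) //
        ∃ i, rect (D := D) eu.1 eu.2 ⊆ U i}, ∃ i, rect (D := D) eu.1.1 eu.1.2 ⊆ U i :=
      fun eu => eu.2
    choose r hr using hR
    refine ⟨t ∪ Set.range r, ht1.union (Set.countable_range r), fun p _ => ?_⟩
    by_cases h1 : ∀ e u, (∃ i, rect (D := D) e u ⊆ U i) → p ∉ rect (D := D) e u
    · obtain ⟨l, hl⟩ := hS2 p h1 (h (n + 1) le_rfl p)
      have h2 : p ∈ ⋃ lx ∈ {lx : Fin (n + 1) × Sp D | pt lx.2 ∈ S},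
          {p : Fin (n + 1) → Sp D | p lx.1 = lx.2} := by
        simp only [Set.mem_iUnion]
        exact ⟨(l, p l), hl, rfl⟩
      have h3 := ht2 h2
      simp only [Set.mem_iUnion] at h3 ⊢
      obtain ⟨i, hi, hpi⟩ := h3
      exact ⟨i, Or.inl hi, hpi⟩
    · push Not at h1
      obtain ⟨e, u, h2, h3⟩ := h1
      simp only [Set.mem_iUnion]
      exact ⟨r ⟨(e, u), h2⟩, Or.inr ⟨_, rfl⟩, hr ⟨(e, u), h2⟩ h3⟩

end Hyper

end Pool.Agent.Helper747.PL
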