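import Mathlib
import Pool.Agent.Helper747.PLD

set_option autoImplicit false
open Set Topology Filter

namespace Pool.Agent.Helper747.PL

open Pool.Agent.Helper747.BL (Str X pre cyl pre_length pre_prefix mem_cyl_pre prefix_iff_of_mem
  mem_cyl_iff cyl_mono cyl_disjoint isClopen_cyl)

/-- the data -/
def dat (T : ℕ → Set X) (a b : ℕ) : Data (Fin a ⊕ Fin b) where
  S := Sum.elim (fun j => T 0 ∪ {x | ∃ i : Fin a, i ≠ j ∧ x ∈ T (2 * i + 1)})
    (fun _ => {x | ∃ i : Fin b, x ∈ T (2 * i + 2)})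
  N := Sum.elim (fun j => {x | ∃ i : Fin a, i ≠ j ∧ x ∈ T (2 * i + 1)})
    (fun j => {x | ∃ i : Fin b, i ≠ j ∧ x ∈ T (2 * i + 2)})
  sub := by
    rintro (j | j)
    · exact Set.subset_union_right
    · rintro x ⟨i, _, hx⟩
      exact ⟨i, hx⟩

section Main
variable {T : ℕ → Set X} (hdis : ∀ i j, i ≠ j → Disjoint (T i) (T j)) {a b : ℕ}

include hdis in
lemma idx_eq {x : X} {i j : ℕ} (hi : x ∈ T i) (hj : x ∈ T j) : i = j := by
  by_contra h
  exact Set.disjoint_left.1 (hdis i j h) hi hj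

include hdis in
/-- points of both kinds are different -/
lemma kinds {x : X} {i : Fin a} {j : Fin b} (h1 : x ∈ (dat T a b).S (Sum.inl i))
    (h2 : x ∈ (dat T a b).S (Sum.inr j)) : False := by
  obtain ⟨j', hj'⟩ := h2
  rcases h1 with h1 | ⟨i', _, hi'⟩
  · have := idx_eq hdis h1 hj'
    omega
  · have := idx_eq hdis hi' hj'
    omega

/-- bad blocks -/
def Ebad (T : ℕ → Set X) (a b : ℕ) {n : ℕ} (f : Fin a → Fin n) :
    Set (Fin n → Sp (dat T a b)) :=
  {p | (∀ i, lab (p (f i)) = Sum.inl i) ∧ ∀ i i', pt (p (f i)) = pt (p (f i'))}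

include hdis in
lemma bad_mem {n : ℕ} {f : Fin a → Fin n} {p : Fin n → Sp (dat T a b)}
    (hp : p ∈ Ebad T a b f) (i : Fin a) : pt (p (f i)) ∈ T 0 := by
  have h1 := pt_mem (p (f i))
  rw [hp.1 i] at h1
  rcases h1 with h1 | ⟨i', h2, h3⟩
  · exact h1
  · exfalso
    have h4 := pt_mem (p (f i'))
    rw [hp.1 i', ← hp.2 i i'] at h4
    rcases h4 with h4 | ⟨i'', h5, h6⟩
    · have := idx_eq hdis h3 h4
      omega
    · have := idx_eq hdis h3 h6
      apply h5
      apply Fin.ext
      omega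

include hdis in
lemma bad_iso {n : ℕ} {f : Fin a → Fin n} {p : Fin n → Sp (dat T a b)}
    (hp : p ∈ Ebad T a b f) (i : Fin a) :
    pt (p (f i)) ∉ (dat T a b).N (lab (p (f i))) := by
  rw [hp.1 i]
  rintro ⟨i', _, h⟩
  have := idx_eq hdis (bad_mem hdis hp i) h
  omega

lemma continuous_pt {J : Type} {D : Data J} : Continuous (fun x : Sp D => pt x) := by
  rw [continuous_def]
  intro O hO x hx
  obtain ⟨m, hm⟩ := exists_cyl_subset hO hx
  refine ⟨m, fun y hy => ?_⟩
  rcases hy with rfl | ⟨_, _, h3⟩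
  · exact hx
  · exact hm h3

include hdis in
lemma isClopen_bad {n : ℕ} (f : Fin a → Fin n) : IsClopen (Ebad T a b f) := by
  constructor
  · have : Ebad T a b f = (⋂ i, {p : Fin n → Sp (dat T a b) | lab (p (f i)) = Sum.inl i}) ∩
        ⋂ i, ⋂ i', {p : Fin n → Sp (dat T a b) | pt (p (f i)) = pt (p (f i'))} := by
      ext p
      simp [Ebad]
    rw [this]
    refine IsClosed.inter (isClosed_iInter fun i => ?_)
      (isClosed_iInter fun i => isClosed_iInter fun i' => ?_)
    · have h1 : IsOpen ((fun p : Fin n → Sp (dat T a b) => p (f i)) ⁻¹'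
          {y | lab y ∈ ({Sum.inl i}ᶜ : Set (Fin a ⊕ Fin b))}) :=
        (isOpen_lab _).preimage (continuous_apply (f i))
      rw [← isOpen_compl_iff]
      exact h1
    · exact isClosed_eq (continuous_pt.comp (continuous_apply (f i)))
        (continuous_pt.comp (continuous_apply (f i')))
  · rw [isOpen_iff_mem_nhds]
    intro p hp
    have h1 : ∀ᶠ q in 𝓝 p, ∀ i, q (f i) = p (f i) := by
      rw [Filter.eventually_all]
      intro i
      exact (continuous_apply (f i)).continuousAt.eventually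
        ((isOpen_singleton_of (bad_iso hdis hp i)).mem_nhds rfl)
    filter_upwards [h1] with q hq
    refine ⟨fun i => ?_, fun i i' => ?_⟩
    · rw [hq]; exact hp.1 i
    · rw [hq, hq]; exact hp.2 i i'

include hdis in
lemma free_or {n : ℕ} (hb : b = 0 ∨ n < b) (p : Fin n → Sp (dat T a b)) :
    Free T p ∨ ∃ f : Fin a → Fin n, Function.Injective f ∧ p ∈ Ebad T a b f := by
  classical
  by_cases hE : ∃ f : Fin a → Fin n, Function.Injective f ∧ p ∈ Ebad T a b f
  · exact Or.inr hE
  left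
  intro l₀
  cases hl₀ : lab (p l₀) with
  | inl j₀ =>
    have h1 : ∃ i : Fin a, ∀ l, pt (p l) = pt (p l₀) → lab (p l) ≠ Sum.inl i := by
      by_contra hcon
      push Not at hcon
      choose f hf1 hf2 using hcon
      apply hE
      refine ⟨f, fun i i' hii => ?_, hf2, fun i i' => (hf1 i).trans (hf1 i').symm⟩
      have := (hf2 i).symm.trans ((congrArg (fun l => lab (p l)) hii).trans (hf2 i'))
      exact Sum.inl_injective this
    obtain ⟨i, hi⟩ := h1
    refine ⟨2 * i + 1, fun l hl => ?_⟩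
    cases hlab : lab (p l) with
    | inl j =>
      intro x hx
      refine ⟨i, ?_, hx⟩
      rintro rfl
      exact hi l hl hlab
    | inr j =>
      exfalso
      have e1 := pt_mem (p l)
      rw [hlab, hl] at e1
      have e2 := pt_mem (p l₀)
      rw [hl₀] at e2
      exact kinds hdis e2 e1
  | inr j₀ =>
    have hnb : n < b := by
      rcases hb with rfl | hb
      · exact j₀.elim0
      · exact hb
    have h1 : ∃ i : Fin b, ∀ l, lab (p l) ≠ Sum.inr i := by
      by_contra hcon
      push Not at hcon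
      choose f hf using hcon
      have hinj : Function.Injective f := by
        intro i i' hii
        have := (hf i).symm.trans ((congrArg (fun l => lab (p l)) hii).trans (hf i'))
        exact Sum.inr_injective this
      have := Fintype.card_le_of_injective f hinj
      simp at this
      omega
    obtain ⟨i, hi⟩ := h1
    refine ⟨2 * i + 2, fun l hl => ?_⟩
    cases hlab : lab (p l) with
    | inr j =>
      intro x hx
      refine ⟨i, ?_, hx⟩
      rintro rfl
      exact hi l hlab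
    | inl j =>
      exfalso
      have e1 := pt_mem (p l)
      rw [hlab, hl] at e1
      have e2 := pt_mem (p l₀)
      rw [hl₀] at e2
      exact kinds hdis e1 e2

include hdis in
theorem up_dat (hT : ∀ (n : ℕ) (C : Set (Fin n → X)), IsClosed C → ∀ e : Fin n → ℕ,
      (∀ x ∈ C, ¬ ∀ i, x i ∈ T (e i)) → Small C) (ha : 1 ≤ a) {n : ℕ} (hb : b = 0 ∨ n < b) :
    UP (Fin n → Sp (dat T a b)) := by
  refine up_power hT n fun n' hn' => ?_
  have hb' : b = 0 ∨ n' < b := by omega
  refine ⟨Set.range fun f : Fin a → Fin n' => Ebad T a b f, Set.countable_range _, ?_, ?_⟩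
  · rintro _ ⟨f, rfl⟩
    exact ⟨isClopen_bad hdis f, f ⟨0, ha⟩, fun p hp => bad_iso hdis hp _⟩
  · intro p
    rcases free_or hdis hb' p with h | ⟨f, _, hf⟩
    · exact Or.inl h
    · exact Or.inr ⟨_, ⟨f, rfl⟩, hf⟩

include hdis in
theorem lindelof_dat (hT : ∀ (n : ℕ) (C : Set (Fin n → X)), IsClosed C → ∀ e : Fin n → ℕ,
      (∀ x ∈ C, ¬ ∀ i, x i ∈ T (e i)) → Small C) {n : ℕ} (hb : b = 0 ∨ n < b) (hna : n < a) :
    LindelofSpace (Fin n → Sp (dat T a b)) := by
  refine lindelof_power hT n fun n' hn' p => ?_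
  have hb' : b = 0 ∨ n' < b := by omega
  rcases free_or hdis hb' p with h | ⟨f, hf, _⟩
  · exact h
  · have := Fintype.card_le_of_injective f hf
    simp at this
    omega

include hdis in
theorem not_lindelof_dat (ha : 1 ≤ a) (hunc : ∀ i, ¬ (T i).Countable) :
    ¬ LindelofSpace (Fin a → Sp (dat T a b)) := by
  classical
  intro hL
  let E : Set (Fin a → Sp (dat T a b)) := Ebad T a b (fun i => i)
  have hE : IsClopen E := isClopen_bad hdis _
  have hEL : IsLindelof E := hE.isClosed.isLindelof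
  obtain ⟨r, hr1, hr2⟩ := hEL.elim_countable_subcover
    (fun p : Fin a → Sp (dat T a b) => if p ∈ E then {p} else ∅) (by
      intro p
      split_ifs with hp
      · have : ({p} : Set (Fin a → Sp (dat T a b))) =
            ⋂ i, (fun q : Fin a → Sp (dat T a b) => q i) ⁻¹' {p i} := by
          ext q
          simp [funext_iff]
        rw [this]
        exact isOpen_iInter_of_finite fun i =>
          (isOpen_singleton_of (bad_iso hdis hp i)).preimage (continuous_apply i)
      · exact isOpen_empty) (by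
      intro p hp
      refine Set.mem_iUnion.2 ⟨p, ?_⟩
      rw [if_pos hp]
      rfl)
  have hEc : E.Countable := by
    refine hr1.mono fun p hp => ?_
    have h1 := hr2 hp
    simp only [Set.mem_iUnion] at h1
    obtain ⟨q, hq, hpq⟩ := h1
    split_ifs at hpq with h2
    · rw [Set.mem_singleton_iff] at hpq
      rwa [hpq]
    · exact absurd hpq (Set.notMem_empty _)
  apply hunc 0
  let Φ : T 0 → E := fun y => ⟨fun i => ⟨(Sum.inl i, y.1), Or.inl y.2⟩,
    fun _ => rfl, fun _ _ => rfl⟩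
  have hΦ : Function.Injective Φ := by
    intro y y' hyy
    have h1 : pt ((Φ y).1 ⟨0, ha⟩) = pt ((Φ y').1 ⟨0, ha⟩) := by rw [hyy]
    exact Subtype.ext h1
  have := hEc.to_subtype
  exact Set.countable_coe_iff.1 hΦ.countable

include hdis in
theorem not_paracompact_dat (hunc : ∀ i, ¬ (T i).Countable)
    (hT : ∀ (n : ℕ) (C : Set (Fin n → X)), IsClosed C → ∀ e : Fin n → ℕ,
      (∀ x ∈ C, ¬ ∀ i, x i ∈ T (e i)) → Small C) (hb : 2 ≤ b) :
    ¬ ParacompactSpace (Fin b → Sp (dat T a b)) := by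
  classical
  intro hP
  let i0 : Fin b := ⟨0, by omega⟩
  let i1 : Fin b := ⟨1, by omega⟩
  -- the diagonal points
  let d : T 2 → Fin b → Sp (dat T a b) := fun x i => ⟨(Sum.inr i, x.1), ⟨i0, x.2⟩⟩
  have hne : Nonempty (T 2) := by
    by_contra h
    apply hunc 2
    rw [not_nonempty_iff] at h
    have : T 2 = ∅ := Set.isEmpty_coe_sort.1 h
    rw [this]
    exact Set.countable_empty
  have hlabd : ∀ x l, lab (d x l) = Sum.inr l := fun _ _ => rfl
  have hptd : ∀ x l, pt (d x l) = x.1 := fun _ _ => rfl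
  have hclosed : ∀ A : Set (T 2), IsClosed (d '' A) := by
    intro A
    rw [← isOpen_compl_iff, isOpen_iff_mem_nhds]
    intro q hq
    by_cases c1 : ∀ i, lab (q i) = Sum.inr i
    · by_cases c2 : ∀ i i', pt (q i) = pt (q i')
      · have h1 := pt_mem (q i0)
        rw [c1 i0] at h1
        obtain ⟨j, hj⟩ := h1
        have hiso : pt (q j) ∉ (dat T a b).N (lab (q j)) := by
          rw [c1 j, c2 j i0]
          rintro ⟨i, h2, h3⟩
          have := idx_eq hdis h3 hj
          apply h2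
          apply Fin.ext
          omega
        have h4 : ∀ᶠ q' in 𝓝 q, q' j = q j :=
          (continuous_apply j).continuousAt.eventually ((isOpen_singleton_of hiso).mem_nhds rfl)
        filter_upwards [h4] with q' h5
        rintro ⟨x, hx, rfl⟩
        apply hq
        refine ⟨x, hx, ?_⟩
        funext l
        refine sp_ext ((hlabd x l).trans (c1 l).symm) ?_
        rw [hptd, ← hptd x j, h5, c2 j l]
      · push Not at c2
        obtain ⟨i, i', hne⟩ := c2
        have h1 : IsOpen {q' : Fin b → Sp (dat T a b) | pt (q' i) ≠ pt (q' i')} :=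
          isOpen_ne_fun (continuous_pt.comp (continuous_apply i))
            (continuous_pt.comp (continuous_apply i'))
        filter_upwards [h1.mem_nhds hne] with q' h2
        rintro ⟨x, _, rfl⟩
        exact h2 rfl
    · push Not at c1
      obtain ⟨i, hi⟩ := c1
      have h1 : IsOpen ((fun p : Fin b → Sp (dat T a b) => p i) ⁻¹'
          {y | lab y ∈ ({Sum.inr i}ᶜ : Set (Fin a ⊕ Fin b))}) :=
        (isOpen_lab _).preimage (continuous_apply i)
      filter_upwards [h1.mem_nhds hi] with q' h2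
      rintro ⟨x, _, rfl⟩
      exact h2 rfl
  obtain ⟨v, hv1, hv2, hv3, hv4⟩ := precise_refinement
    (fun x : T 2 => (d '' {x' | x' ≠ x})ᶜ) (fun x => (hclosed _).isOpen_compl) (by
      rw [Set.eq_univ_iff_forall]
      intro p
      by_cases hp : ∃ x, d x = p
      · obtain ⟨x, rfl⟩ := hp
        refine Set.mem_iUnion.2 ⟨x, ?_⟩
        rintro ⟨x', hx', h⟩
        apply hx'
        apply Subtype.ext
        rw [← hptd x' i0, h, hptd]
      · obtain ⟨x⟩ := hne
        refine Set.mem_iUnion.2 ⟨x, ?_⟩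
        rintro ⟨x', _, h⟩
        exact hp ⟨x', h⟩)
  have hdv : ∀ x, d x ∈ v x := by
    intro x
    have h1 : d x ∈ ⋃ x', v x' := by rw [hv2]; exact Set.mem_univ _
    obtain ⟨x', hx'⟩ := Set.mem_iUnion.1 h1
    by_cases h : x = x'
    · rw [h]
      rwa [h] at hx'
    · exact absurd ⟨x, h, rfl⟩ (hv4 x' hx')
  choose m hm using fun x => exists_near_subset (hv1 x) (hdv x)
  let A : ℕ → Set X := fun k => {x | ∃ h : x ∈ T 2, m ⟨x, h⟩ = k}
  have hk : ∃ k, ∃ x0 ∈ T 4, x0 ∈ closure (A k) := by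
    by_contra hcon
    push Not at hcon
    have h1 : ∀ k, ∃ S : Set X, S.Countable ∧ closure (A k) ⊆ S := by
      intro k
      obtain ⟨S, h2, h3⟩ := hT 1 {x : Fin 1 → X | x 0 ∈ closure (A k)}
        (isClosed_closure.preimage (continuous_apply 0)) (fun _ => 4)
        (fun x hx h => hcon k (x 0) (h 0) hx)
      refine ⟨S, h2, fun y hy => ?_⟩
      obtain ⟨i, hi⟩ := h3 (fun _ => y) hy (fun i j _ => Subsingleton.elim i j)
      exact hi
    choose S hS1 hS2 using h1
    apply hunc 2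
    refine (Set.countable_iUnion hS1).mono fun x hx => ?_
    exact Set.mem_iUnion.2 ⟨m ⟨x, hx⟩, hS2 _ (subset_closure ⟨hx, rfl⟩)⟩
  obtain ⟨k, x0, hx0, hcl⟩ := hk
  let q0 : Fin b → Sp (dat T a b) := fun i => ⟨(Sum.inr i, x0), ⟨i1, hx0⟩⟩
  obtain ⟨O, hO1, hO2⟩ := hv3 q0
  obtain ⟨O', hO3, hO4, hO5⟩ := mem_nhds_iff.1 hO1
  obtain ⟨M, hM⟩ := exists_near_subset hO4 hO5
  have hF : (Subtype.val '' {x : T 2 | (v x ∩ O).Nonempty}).Finite := hO2.image _
  have hx0F : x0 ∉ Subtype.val '' {x : T 2 | (v x ∩ O).Nonempty} := by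
    rintro ⟨x, _, rfl⟩
    have := idx_eq hdis x.2 hx0
    omega
  have hV : IsOpen (cyl (pre x0 (max k M)) ∩ (Subtype.val '' {x : T 2 | (v x ∩ O).Nonempty})ᶜ) :=
    (isClopen_cyl _).isOpen.inter hF.isClosed.isOpen_compl
  obtain ⟨x, ⟨hx1, hx2⟩, hxA⟩ := mem_closure_iff.1 hcl _ hV ⟨mem_cyl_pre _ _, hx0F⟩
  obtain ⟨hxT, hxk⟩ := hxA
  apply hx2
  refine ⟨⟨x, hxT⟩, ?_, rfl⟩
  let q' : Fin b → Sp (dat T a b) := fun l => if l = i0 then ⟨(Sum.inr l, x), ⟨i0, hxT⟩⟩ else q0 l
  have hpre : ∀ j ≤ max k M, pre x j = pre x0 j := by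
    intro j hj
    exact mem_cyl_pre_eq (cyl_mono (pre_prefix x0 hj) hx1)
  have hq1 : ∀ l, l = i0 → q' l = ⟨(Sum.inr l, x), ⟨i0, hxT⟩⟩ := fun l hl => if_pos hl
  have hq2 : ∀ l, l ≠ i0 → q' l = q0 l := fun l hl => if_neg hl
  refine ⟨q', hm ⟨x, hxT⟩ q' fun l => ?_, hO3 (hM q' fun l => ?_)⟩
  · by_cases hl : l = i0
    · left
      rw [hq1 l hl]
    · right
      rw [hq2 l hl]
      refine ⟨⟨i0, Ne.symm hl, hxT⟩, rfl, ?_⟩
      change pre x0 (pre x (m ⟨x, hxT⟩)).length = pre x (m ⟨x, hxT⟩)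
      rw [pre_length, hxk, hpre k (le_max_left _ _)]
  · by_cases hl : l = i0
    · right
      rw [hq1 l hl]
      refine ⟨⟨i1, ?_, hx0⟩, rfl, ?_⟩
      · rw [hl]
        intro h
        have := congrArg Fin.val h
        simp [i0, i1] at this
      · change pre x (pre x0 M).length = pre x0 M
        rw [pre_length, hpre M (le_max_right _ _)]
    · left
      rw [hq2 l hl]

end Main

end Pool.Agent.Helper747.PL
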