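import Mathlib
import Pool.Agent.Helper747.PLE

set_option autoImplicit false
open Set Topology Filter

namespace Pool.Agent.Helper747.PL

open Pool.Agent.Helper747.BL (Str X)

theorem lindelof_of_le {P : Type} [TopologicalSpace P] [Nonempty P] {m n : ℕ} (h : m ≤ n)
    (hL : LindelofSpace (Fin n → P)) : LindelofSpace (Fin m → P) := by
  have hc : Continuous fun (q : Fin n → P) (i : Fin m) => q (Fin.castLE h i) :=
    continuous_pi fun i => continuous_apply _
  have hs : Function.Surjective fun (q : Fin n → P) (i : Fin m) => q (Fin.castLE h i) := by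
    intro x
    refine ⟨fun l => if hl : (l : ℕ) < m then x ⟨l, hl⟩ else Classical.arbitrary P, ?_⟩
    funext i
    simp
  refine ⟨?_⟩
  have h1 := (isLindelof_univ (X := Fin n → P)).image hc
  rwa [Set.image_univ, hs.range_eq] at h1

theorem paracompact_of_le {P : Type} [TopologicalSpace P] [T2Space P] [Nonempty P] {m n : ℕ}
    (h : m ≤ n) (hP : ParacompactSpace (Fin n → P)) : ParacompactSpace (Fin m → P) := by
  have hc : Continuous fun (q : Fin n → P) (i : Fin m) => q (Fin.castLE h i) :=
    continuous_pi fun i => continuous_apply _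
  have hc2 : Continuous fun (x : Fin m → P) (l : Fin n) =>
      if hl : (l : ℕ) < m then x ⟨l, hl⟩ else Classical.arbitrary P := by
    refine continuous_pi fun l => ?_
    by_cases hl : (l : ℕ) < m
    · simp only [dif_pos hl]
      exact continuous_apply _
    · simp only [dif_neg hl]
      exact continuous_const
  have hinv : Function.LeftInverse (fun (q : Fin n → P) (i : Fin m) => q (Fin.castLE h i))
      (fun (x : Fin m → P) (l : Fin n) =>
        if hl : (l : ℕ) < m then x ⟨l, hl⟩ else Classical.arbitrary P) := by
    intro x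
    funext i
    simp
  exact (hinv.isClosedEmbedding hc hc2).paracompactSpace

theorem up_one {P : Type} [TopologicalSpace P] [T2Space P] (h : ParacompactSpace (Fin 1 → P)) :
    ParacompactSpace P := by
  have e : P ≃ₜ (Fin 1 → P) := (Homeomorph.funUnique (Fin 1) P).symm
  exact e.isClosedEmbedding.paracompactSpace

theorem exists_space (a b : ℕ) (ha : 1 ≤ a) (hb : b = 0 ∨ 2 ≤ b) :
    ∃ (P : Type) (_ : TopologicalSpace P), T3Space P ∧ Nonempty P ∧
      (∀ n, (b = 0 ∨ n < b) → ParacompactSpace (Fin n → P)) ∧
      (∀ n, (b = 0 ∨ n < b) → n < a → LindelofSpace (Fin n → P)) ∧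
      (∀ n, a ≤ n → ¬ LindelofSpace (Fin n → P)) ∧
      (b ≠ 0 → ∀ n, b ≤ n → ¬ ParacompactSpace (Fin n → P)) := by
  obtain ⟨T, hdis, hunc, hT⟩ := exists_generic
  have hpara : ∀ n, (b = 0 ∨ n < b) → ParacompactSpace (Fin n → Sp (dat T a b)) :=
    fun n hn => (up_dat hdis hT ha hn).paracompact
  have h1 : ParacompactSpace (Sp (dat T a b)) := up_one (hpara 1 (by omega))
  have hne : Nonempty (Sp (dat T a b)) := by
    have : (T 0).Nonempty := by
      by_contra h
      rw [Set.not_nonempty_iff_eq_empty] at h
      apply hunc 0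
      rw [h]
      exact Set.countable_empty
    obtain ⟨x, hx⟩ := this
    exact ⟨⟨(Sum.inl ⟨0, ha⟩, x), Or.inl hx⟩⟩
  refine ⟨Sp (dat T a b), inferInstance, inferInstance, hne, hpara,
    fun n hn hna => lindelof_dat hdis hT hn hna, fun n hn hL => ?_, fun hb0 n hn hP => ?_⟩
  · exact not_lindelof_dat hdis ha hunc (lindelof_of_le hn hL)
  · exact not_paracompact_dat hdis hunc hT (by omega) (paracompact_of_le hn hP)

/-- all pairs -/
theorem main (k m : ℕ∞) (hk : 1 ≤ k) (hkm : k ≤ m) :
    ∃ (P : Type) (_ : TopologicalSpace P), T3Space P ∧ ∀ n : ℕ, 1 ≤ n →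
      (ParacompactSpace (Fin n → P) ↔ (n : ℕ∞) < m) ∧
      (LindelofSpace (Fin n → P) ↔ (n : ℕ∞) < k) := by
  induction m using ENat.recTopCoe with
  | top =>
    induction k using ENat.recTopCoe with
    | top =>
      refine ⟨PUnit, inferInstance, inferInstance, fun n _ => ⟨?_, ?_⟩⟩
      · exact ⟨fun _ => ENat.coe_lt_top n, fun _ => inferInstance⟩
      · exact ⟨fun _ => ENat.coe_lt_top n, fun _ => inferInstance⟩
    | coe a =>
      have ha : 1 ≤ a := by exact_mod_cast hk
      obtain ⟨P, t, h1, h2, h3, h4, h5, _⟩ := exists_space a 0 ha (Or.inl rfl)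
      refine ⟨P, t, h1, fun n _ => ⟨?_, ?_⟩⟩
      · exact ⟨fun _ => ENat.coe_lt_top n, fun _ => h3 n (Or.inl rfl)⟩
      · rw [ENat.coe_lt_coe]
        constructor
        · intro hL
          by_contra hn
          exact h5 n (not_lt.1 hn) hL
        · exact fun hn => h4 n (Or.inl rfl) hn
  | coe b =>
    induction k using ENat.recTopCoe with
    | top => exact absurd hkm (not_le.2 (ENat.coe_lt_top b))
    | coe a =>
      have ha : 1 ≤ a := by exact_mod_cast hk
      have hab : a ≤ b := by exact_mod_cast hkm
      by_cases hb : 2 ≤ b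
      · obtain ⟨P, t, h1, h2, h3, h4, h5, h6⟩ := exists_space a b ha (Or.inr hb)
        refine ⟨P, t, h1, fun n _ => ⟨?_, ?_⟩⟩
        · rw [ENat.coe_lt_coe]
          constructor
          · intro hP
            by_contra hn
            exact h6 (by omega) n (not_lt.1 hn) hP
          · exact fun hn => h3 n (Or.inr hn)
        · rw [ENat.coe_lt_coe]
          constructor
          · intro hL
            by_contra hn
            exact h5 n (not_lt.1 hn) hL
          · exact fun hn => h4 n (Or.inr (by omega)) hn
      · have hb1 : b = 1 := by omega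
        have ha1 : a = 1 := by omega
        subst hb1 ha1
        obtain ⟨P, t, h1, h2, h3, h4, h5, h6⟩ := exists_space 1 2 le_rfl (Or.inr le_rfl)
        refine ⟨Fin 2 → P, inferInstance, inferInstance, fun n hn => ⟨?_, ?_⟩⟩
        · rw [ENat.coe_lt_coe]
          constructor
          · intro hP
            exact absurd (up_one (paracompact_of_le hn hP)) (h6 (by norm_num) 2 le_rfl)
          · intro hn'
            omega
        · rw [ENat.coe_lt_coe]
          constructor
          · intro hL
            have h7 := lindelof_of_le hn hL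
            have h8 : LindelofSpace (Fin 2 → P) := by
              refine ⟨?_⟩
              have e : (Fin 1 → (Fin 2 → P)) ≃ₜ (Fin 2 → P) := Homeomorph.funUnique (Fin 1) _
              have h9 := (isLindelof_univ (X := Fin 1 → (Fin 2 → P))).image e.continuous
              rwa [Set.image_univ, e.surjective.range_eq] at h9
            exact absurd h8 (h5 2 (by norm_num))
          · intro hn'
            omega

end Pool.Agent.Helper747.PL
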